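import Pool.Agent.CDim.Steps

set_option autoImplicit false

open Set TopologicalSpace Topology

namespace Pool.Agent.CDim

open Pool.Agent.Gap

namespace Plan

variable {S : TS} (p : Plan S)

/-- If the coordinate `k` of `x` is collapsed and its scale vanishes at `x`, then the distance to
points of `W` does not grow at level `k + 1`. -/
theorem Base_step {k : ℕ} {x v : S.U} (hx : S.act k x = none) (hx0 : S.val k (p.φ k) x = 0)
    (hv : v ∈ S.W p.φ (k + 1)) : S.d (k + 1) x v ≤ S.d k x v := by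
  rw [S.mem_W_succ] at hv
  rcases hv.2 with ⟨-, h2⟩ | h2
  · have e1 : S.d (k + 1) x v = S.d (k + 1) (S.r k x) (S.r k v) := by
      rw [← S.r_of_none k x hx, ← S.r_of_none k v h2, S.d_r_left, S.d_r_right]
    rw [e1]
    exact S.d_core k x v
  · have h3 := S.d_act k v x (p.φ k) h2 hx
    have h4 := S.val_lip k (p.φ k) v x
    have h5 := S.d_nonneg k v x
    rw [S.d_comm (k + 1) x v, S.d_comm k x v]
    refine h3.trans (max_le le_rfl ?_)
    linarith

/-- The same for many levels. -/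
theorem Base_steps {i : ℕ} {x v : S.U} (n : ℕ) (hx : ∀ k, i ≤ k → k < n → S.act k x = none)
    (hx0 : ∀ k, i ≤ k → k < n → S.val k (p.φ k) x = 0)
    (hv : ∀ k, v ∈ S.W p.φ k) : S.d n x v ≤ S.d i x v := by
  induction n with
  | zero => exact S.d_le (Nat.zero_le _) _ _
  | succ n ih =>
    by_cases h : n + 1 ≤ i
    · exact S.d_le h _ _
    · have hn : i ≤ n := by omega
      refine (p.Base_step (hx n hn (Nat.lt_succ_self n)) (hx0 n hn (Nat.lt_succ_self n))
        (hv (n + 1))).trans ?_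
      exact ih (fun k h1 h2 => hx k h1 (by omega)) (fun k h1 h2 => hx0 k h1 (by omega))

theorem A_congr (Λ : p.Lbs) {i : ℕ} {u v : S.U} (h : S.d i u v = 0) (hA : p.A Λ i u) :
    p.A Λ i v := by
  intro z
  obtain ⟨jb, ε, hε, N, hN, H⟩ := hA z
  refine ⟨jb, ε, hε, N, hN, fun u' hu' hd => H u' hu' ?_⟩
  rw [S.d_congr_right h]
  exact hd

/-- Points which are collapsed forever. -/
theorem A_base (Λ : p.Lbs) {i : ℕ} {u : S.U} (hu : u ∈ S.W p.φ i)
    (h : ∀ j ≥ i, S.val j (p.φ j) (S.r i u) = 0) : p.A Λ i u := by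
  obtain ⟨j, b, hP⟩ := p.resolved i u hu h
  obtain ⟨n, ε, hε, H⟩ := (S.isOpen_iff _).1 (p.P_open j b) _ hP
  intro z
  refine ⟨(j, b), ε, hε, univ, Filter.univ_mem, fun u' hu' hd z' _ v hv hthr => H v ?_⟩
  have hvW : v ∈ S.W p.φ i := S.W_congr hv hu'
  have h1 := p.Base_steps (i := i) (x := S.r i u) (v := v) n
    (fun k hk _ => S.act_r_ge hk u) (fun k hk _ => h k hk) (p.thr_mem_W Λ hvW hthr)
  have h2 : S.d i (S.r i u) v = S.d i u' u := by
    rw [S.d_r_left, ← S.d_congr_right hv, S.d_comm]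
  linarith

/-- Points whose next coordinate is collapsed. -/
theorem A_inactive (Λ : p.Lbs) {i : ℕ} {u : S.U} (hu : u ∈ S.W p.φ i)
    (h : S.val i (p.φ i) u = 0) (hA : p.A Λ (i + 1) (S.r i u)) : p.A Λ i u := by
  intro z
  obtain ⟨jb, ε, hε, N, hN, H⟩ := hA z
  refine ⟨jb, ε, hε, N, hN, fun u' hu' hd z' hz' => p.O_step Λ i jb u' z' fun b => ?_⟩
  refine H _ (p.stp_mem_W Λ i b (z' i) hu') ?_ z' hz'
  have h1 := p.Base_step (k := i) (x := S.r i u) (v := p.stp Λ i b (z' i) u')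
    (S.act_r i u) (by rw [S.val_r le_rfl]; exact h) (p.stp_mem_W Λ i b (z' i) hu')
  have h2 : S.d i (p.stp Λ i b (z' i) u') u' = 0 := by
    rw [← S.d_r_left, p.stp_r, S.d_r_left, S.d_self]
  have h3 : S.d i (S.r i u) (p.stp Λ i b (z' i) u') = S.d i u' u := by
    rw [S.d_r_left, S.d_congr_right h2, S.d_comm]
  rw [S.d_comm]
  linarith

/-- Points of good nodes. -/
theorem A_good (Λ : p.Lbs) (n : p.Node) (h : p.Good n Λ (Λ n)) {u : S.U} (hu : u ∈ n.1.2) :
    p.A Λ n.1.1 u := by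
  intro z
  obtain ⟨jb, ε, hε, N, hN, H⟩ := h u hu z
  obtain ⟨ε', hε', H'⟩ := p.F_open n.1.1 n.1.2 n.2 u hu
  refine ⟨jb, min ε ε', lt_min hε hε', N, hN, fun u' hu' hd z' hz' =>
    p.O_step Λ _ jb u' z' fun b => ?_⟩
  have hu'V : u' ∈ n.1.2 := H' u' hu' (by
    rw [S.d_comm]
    exact hd.trans_le (min_le_right _ _))
  have := H u' hu'V (hd.trans_le (min_le_left _ _)) z' hz' b
  unfold stp
  rw [p.lbAt_node Λ n hu'V]
  exact this

/-- `A` holds at `u` if all later nodes containing the collapsed point `r i u` are good. -/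
theorem A_all (Λ : p.Lbs) {i : ℕ} {u : S.U} (hu : u ∈ S.W p.φ i)
    (h : ∀ n : p.Node, i ≤ n.1.1 → S.r i u ∈ n.1.2 → p.Good n Λ (Λ n)) : p.A Λ i u := by
  classical
  by_cases hall : ∀ j ≥ i, S.val j (p.φ j) (S.r i u) = 0
  · exact p.A_base Λ hu hall
  · push Not at hall
    have hex : ∃ j, i ≤ j ∧ S.val j (p.φ j) (S.r i u) ≠ 0 := by
      obtain ⟨j, h1, h2⟩ := hall
      exact ⟨j, h1, h2⟩
    obtain ⟨hij, hne⟩ := Nat.find_spec hex
    set j := Nat.find hex with hj
    have hmin : ∀ k, i ≤ k → k < j → S.val k (p.φ k) (S.r i u) = 0 := by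
      intro k h1 h2
      by_contra h3
      exact Nat.find_min hex h2 ⟨h1, h3⟩
    have hW : ∀ k, k ≤ j → S.r i u ∈ S.W p.φ k := fun k hk =>
      S.W_anti hk (S.r_mem_W_of_zero hu j hmin)
    have hpos : 0 < S.val j (p.φ j) (S.r i u) :=
      lt_of_le_of_ne (S.val_nonneg _ _ _) (Ne.symm hne)
    obtain ⟨V, hV, huV⟩ := (p.F_pos j _ (hW j le_rfl)).1 hpos
    have hAj : p.A Λ j (S.r i u) :=
      p.A_good Λ ⟨(j, V), hV⟩ (h ⟨(j, V), hV⟩ hij huV) huV
    have key : ∀ m k, k + m = j → i ≤ k → p.A Λ k (S.r i u) := by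
      intro m
      induction m with
      | zero =>
        intro k hk _
        rw [add_zero] at hk
        rw [hk]
        exact hAj
      | succ m ih =>
        intro k hk hik
        refine p.A_inactive Λ (hW k (by omega)) (hmin k hik (by omega)) ?_
        rw [S.r_of_ge hik]
        exact ih (k + 1) (by omega) (by omega)
    exact p.A_congr Λ (S.d_r i u) (key (j - i) i (by omega) le_rfl)

end Plan

end Pool.Agent.CDim
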