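import Pool.Agent.CDim.Resolved

set_option autoImplicit false

open Set TopologicalSpace Topology

namespace Pool.Agent.CDim

open Pool.Agent.Gap

theorem chain_le_rd {k i : ℕ} (h : rs k ≤ i) : k ≤ rd i :=
  Nat.le_findGreatest (P := fun k => rs k ≤ i) ((le_rs k).trans h) h

/-- Steps of size `(1/2)^(m+1)` at the level `j` from some index on give a Cauchy sequence. -/
theorem chain_steps (S : TS) (j M : ℕ) (g : ℕ → S.U)
    (hg : ∀ m ≥ M, S.d j (g m) (g (m + 1)) ≤ (1 / 2) ^ (m + 1)) (p : ℕ) (hp : M ≤ p) (t : ℕ) :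
    S.d j (g p) (g (p + t)) ≤ (1 / 2) ^ p - (1 / 2) ^ (p + t) := by
  induction t with
  | zero => rw [add_zero, S.d_self, sub_self]
  | succ t ih =>
    have h1 := S.d_triangle j (g p) (g (p + t)) (g (p + (t + 1)))
    have h2 := hg (p + t) (by omega)
    have h3 : ((1 : ℝ) / 2) ^ (p + t) = 2 * (1 / 2) ^ (p + t + 1) := by
      rw [pow_succ]; ring
    have h4 : p + (t + 1) = p + t + 1 := by omega
    rw [h4] at h1 ⊢
    linarith

theorem chain_cauchy (S : TS) (j M : ℕ) (g : ℕ → S.U)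
    (hg : ∀ m ≥ M, S.d j (g m) (g (m + 1)) ≤ (1 / 2) ^ (m + 1)) (ε : ℝ) (hε : 0 < ε) :
    ∃ N, ∀ p ≥ N, ∀ q ≥ N, S.d j (g p) (g q) < ε := by
  obtain ⟨N, hN⟩ := exists_pow_lt_of_lt_one hε (show (1 : ℝ) / 2 < 1 by norm_num)
  have key : ∀ p ≥ max M N, ∀ t, S.d j (g p) (g (p + t)) < ε := by
    intro p hp t
    have h1 := chain_steps S j M g hg p ((le_max_left _ _).trans hp) t
    have h2 : ((1 : ℝ) / 2) ^ p ≤ (1 / 2) ^ N :=
      pow_le_pow_of_le_one (by norm_num) (by norm_num) ((le_max_right _ _).trans hp)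
    have h3 : (0 : ℝ) ≤ (1 / 2) ^ (p + t) := by positivity
    linarith
  refine ⟨max M N, fun p hp q hq => ?_⟩
  rcases le_total p q with h | h
  · obtain ⟨t, rfl⟩ := Nat.exists_eq_add_of_le h
    exact key p hp t
  · obtain ⟨t, rfl⟩ := Nat.exists_eq_add_of_le h
    rw [S.d_comm]
    exact key q hq t

/-- There is no infinite chain of nodes. -/
theorem Rounds.no_chain {S : TS} {PP : ∀ i, S.Sc i → Bool → Set S.U} (R : Rounds S PP)
    (hPo : ∀ i φ b, IsOpen (PP i φ b)) (Z : ℕ → Set S.U) (hZ : (⋃ k, Z k) = univ)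
    (hPZ : ∀ i φ, ∀ u ∈ Z (rd i), S.act i u = some φ → u ∈ PP i φ false ∨ u ∈ PP i φ true)
    (n : ℕ → ℕ) (hn : StrictMono n) (V : ℕ → Set S.U)
    (hV : ∀ m, V m ∈ R.G (rd (n m)) (rc (n m)))
    (h : ∀ m, (V m ∩ V (m + 1) ∩ S.W R.φ (n (m + 1))).Nonempty) : False := by
  choose g hg using h
  have hmn : ∀ m, m ≤ n m := fun m => hn.id_le m
  have hlev : ∀ j m, rs j ≤ m → j ≤ rs (rd (n m)) := fun j m hm =>
    (chain_le_rd (hm.trans (hmn m))).trans (le_rs _)
  have hdiam : ∀ m, ∀ u ∈ V m, ∀ v ∈ V m, ∀ j ≤ rs (rd (n m)), S.d j u v ≤ (1 / 2) ^ m := by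
    intro m u hu v hv j hj
    refine (S.d_le hj u v).trans ((R.G_diam _ _ _ (hV m) u hu v hv).trans ?_)
    exact pow_le_pow_of_le_one (by norm_num) (by norm_num)
      ((hmn m).trans (lt_rs_rd (n m)).le)
  -- the limit point
  have hstep : ∀ j, ∀ m ≥ rs j, S.d j (g m) (g (m + 1)) ≤ (1 / 2) ^ (m + 1) := by
    intro j m hm
    exact hdiam (m + 1) _ (hg m).1.2 _ (hg (m + 1)).1.1 j (hlev j (m + 1) (by omega))
  obtain ⟨w, hw⟩ := S.complete g (fun j ε hε => chain_cauchy S j (rs j) g (hstep j) ε hε)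
  have hwW : ∀ i, w ∈ S.W R.φ i := by
    intro i
    apply S.W_closed
    intro ε hε
    obtain ⟨N, hN⟩ := hw i ε hε
    refine ⟨g (max N i), ?_, ?_⟩
    · refine S.W_anti ?_ (hg (max N i)).2
      have h1 := hmn (max N i + 1)
      have h2 := le_max_right N i
      omega
    · rw [S.d_comm]
      exact hN _ (le_max_left _ _)
  -- `w` is in none of the open sets
  have hwP : ∀ j b, w ∉ PP j (R.φ j) b := by
    intro j b hwp
    obtain ⟨N0, ε, hε, hball⟩ := (S.isOpen_iff _).1 (hPo j (R.φ j) b) w hwp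
    obtain ⟨N1, hN1⟩ := hw N0 (ε / 2) (by linarith)
    obtain ⟨N2, hN2⟩ := exists_pow_lt_of_lt_one (show (0 : ℝ) < ε / 2 by linarith)
      (show (1 : ℝ) / 2 < 1 by norm_num)
    let m := max (max N1 N2) (max (rs N0) (rs (j + 1)))
    have m1 : N1 ≤ m := (le_max_left _ _).trans (le_max_left _ _)
    have m2 : N2 ≤ m := (le_max_right _ _).trans (le_max_left _ _)
    have m3 : rs N0 ≤ m := (le_max_left _ _).trans (le_max_right _ _)
    have m4 : rs (j + 1) ≤ m := (le_max_right _ _).trans (le_max_right _ _)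
    obtain ⟨κ, hκV, hκ⟩ := R.G_unres _ _ _ (hV m)
    refine hκ j (lt_of_lt_of_le (Nat.lt_succ_self j) (hlev (j + 1) m m4)) b (hball _ ?_)
    have e1 := hN1 m m1
    have e2 := hdiam m _ hκV _ (hg m).1.1 N0 (hlev N0 m m3)
    have e3 : ((1 : ℝ) / 2) ^ m ≤ (1 / 2) ^ N2 :=
      pow_le_pow_of_le_one (by norm_num) (by norm_num) m2
    have e4 := S.d_triangle N0 w (g m) (S.r (rs (rd (n m))) κ)
    rw [S.d_comm N0 w (g m)] at e4
    have e5 : S.d N0 (g m) (S.r (rs (rd (n m))) κ) = S.d N0 κ (g m) := by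
      rw [S.d_congr_right (S.d_r_le (hlev N0 m m3) κ), S.d_comm]
    rw [e5] at e4
    linarith
  -- `w` is in none of the sets `Z k`
  have hwU : w ∈ (⋃ k, Z k) := by rw [hZ]; exact mem_univ w
  obtain ⟨k, hk⟩ := mem_iUnion.1 hwU
  by_cases hA : ∃ c < 3 ^ rs k, ∃ V' ∈ R.G k c, w ∈ V'
  · obtain ⟨c, hc, hV'⟩ := hA
    have hpos := (R.φ_pos k c hc w (hwW _)).2 hV'
    have hact : S.act (rs k + c) w = some (R.φ (rs k + c)) := by
      rcases hwW (rs k + c + 1) (rs k + c) (Nat.lt_succ_self _) with h1 | h1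
      · exact absurd h1.1 hpos.ne'
      · exact h1
    rcases hPZ (rs k + c) _ w (by rw [rd_add hc]; exact hk) hact with h1 | h1
    · exact hwP _ _ h1
    · exact hwP _ _ h1
  · have hzero : ∀ t, ∀ c < 3 ^ rs (k + t), ¬ ∃ V' ∈ R.G (k + t) c, w ∈ V' := by
      intro t
      induction t with
      | zero => exact fun c hc hV' => hA ⟨c, hc, hV'⟩
      | succ t ih =>
        rintro c - ⟨V', hV', hwV'⟩
        obtain ⟨j, hj1, hj2, hj3⟩ := R.G_nest (k + t) c V' hV' w hwV'
        obtain ⟨c', rfl⟩ := Nat.exists_eq_add_of_le hj1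
        rw [rs_succ] at hj2
        have hc' : c' < 3 ^ rs (k + t) := by omega
        exact ih c' hc' ((R.φ_pos _ c' hc' w (hwW _)).1 hj3)
    have hval : ∀ j ≥ rs k, S.val j (R.φ j) w = 0 := by
      intro j hj
      obtain ⟨t, ht⟩ := Nat.exists_eq_add_of_le (chain_le_rd hj)
      have hc := rc_lt j
      have he := rs_add_rc j
      have h1 := hzero t (rc j) (by rw [← ht]; exact hc)
      rw [← ht, ← R.φ_pos _ _ hc w (hwW _), he, not_lt] at h1
      exact le_antisymm h1 (S.val_nonneg _ _ _)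
    have hr : ∀ t, S.r (rs k + t) w = S.r (rs k) w := by
      intro t
      induction t with
      | zero => rfl
      | succ t ih =>
        rw [← ih]
        apply S.r_of_none
        rcases hwW (rs k + t + 1) (rs k + t) (Nat.lt_succ_self _) with h1 | h1
        · exact h1.2
        · have h2 := S.act_pos _ _ _ h1
          rw [hval _ (Nat.le_add_right _ _)] at h2
          exact absurd h2 (lt_irrefl _)
    have hrw : S.r (rs k) w = w := by
      apply S.sepU
      intro i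
      rw [← hr i]
      exact S.d_r_le (by omega) w
    obtain ⟨j, b, hjb⟩ := R.resolved (rs k) w (hwW _) (by rw [hrw]; exact hval)
    rw [hrw] at hjb
    exact hwP j b hjb

end Pool.Agent.CDim
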