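import Pool.Agent.CDim.Defs
import Pool.Agent.Gap.LabBase
import Pool.Agent.Gap.Defs2

set_option autoImplicit false

open Set TopologicalSpace Topology

namespace Pool.Agent.CDim

open Pool.Agent.Gap

/-- For every scale `φ` a metric space over `{φ > 0}`. -/
structure Fam (Y : Type) [MetricSpace Y] where
  X : Scale Y → Type
  [m : ∀ φ, MetricSpace (X φ)]
  pr : ∀ φ, X φ → Y
  pos : ∀ (φ : Scale Y) (p : X φ), 0 < φ.f (pr φ p)
  dist_pr : ∀ (φ : Scale Y) (p q : X φ), dist (pr φ p) (pr φ q) ≤ dist p q

attribute [instance] Fam.m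

/-- The space `Y` together with all the spaces `X φ`, attached at scale `φ`. -/
inductive Col {Y : Type} [MetricSpace Y] (F : Fam Y) : Type
  | core (y : Y) : Col F
  | act (φ : Scale Y) (p : F.X φ) : Col F

namespace Col

variable {Y : Type} [MetricSpace Y] {F : Fam Y}

/-- Projection to `Y`. -/
def pr : Col F → Y
  | core y => y
  | act φ p => F.pr φ p

/-- The scale at the point (`0` at core points). -/
def w : Col F → ℝ
  | core _ => 0
  | act φ p => φ.f (F.pr φ p)

/-- The code of a point. -/
def code : Col F → Option (Scale Y)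
  | core _ => none
  | act φ _ => some φ

open Classical in
/-- The part of the distance which comes from the new coordinate. -/
noncomputable def gap : Col F → Col F → ℝ
  | act φ p, act ψ q => if h : φ = ψ then
      min (dist (cast (congrArg F.X h) p) q) (max (φ.f (F.pr φ p)) (ψ.f (F.pr ψ q)))
      else max (φ.f (F.pr φ p)) (ψ.f (F.pr ψ q))
  | h, h' => max (w h) (w h')

theorem w_nonneg (h : Col F) : 0 ≤ w h := by
  rcases h with y | ⟨φ, p⟩
  · exact le_rfl
  · exact (F.pos φ p).le

theorem w_le_one (h : Col F) : w h ≤ 1 := by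
  rcases h with y | ⟨φ, p⟩
  · exact zero_le_one
  · exact φ.le_one _

theorem gap_same (φ : Scale Y) (p q : F.X φ) :
    gap (act φ p) (act φ q) = min (dist p q) (max (φ.f (F.pr φ p)) (φ.f (F.pr φ q))) := by
  simp [gap]

theorem gap_ne {h h' : Col F} (hne : ∀ φ, code h = some φ → code h' ≠ some φ) :
    gap h h' = max (w h) (w h') := by
  rcases h with y | ⟨φ, p⟩
  · cases h' <;> rfl
  · rcases h' with y | ⟨ψ, q⟩
    · rfl
    · have : φ ≠ ψ := by
        rintro rfl
        exact hne φ rfl rfl
      simp [gap, this, w]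

theorem gap_le (h h' : Col F) : gap h h' ≤ max (w h) (w h') := by
  by_cases hne : ∀ φ, code h = some φ → code h' ≠ some φ
  · exact (gap_ne hne).le
  · push Not at hne
    obtain ⟨φ, h1, h2⟩ := hne
    rcases h with y | ⟨ψ, p⟩
    · cases h1
    · rcases h' with y | ⟨ψ', q⟩
      · cases h2
      · cases h1
        cases h2
        rw [gap_same]
        exact min_le_right _ _

theorem gap_nonneg (h h' : Col F) : 0 ≤ gap h h' := by
  by_cases hne : ∀ φ, code h = some φ → code h' ≠ some φ
  · rw [gap_ne hne]
    exact le_max_of_le_left (w_nonneg h)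
  · push Not at hne
    obtain ⟨φ, h1, h2⟩ := hne
    rcases h with y | ⟨ψ, p⟩
    · cases h1
    · rcases h' with y | ⟨ψ', q⟩
      · cases h2
      · cases h1
        cases h2
        rw [gap_same]
        exact le_min dist_nonneg (le_max_of_le_left (F.pos _ _).le)

theorem gap_comm (h h' : Col F) : gap h h' = gap h' h := by
  by_cases hne : ∀ φ, code h = some φ → code h' ≠ some φ
  · rw [gap_ne hne, gap_ne (fun φ h1 h2 => hne φ h2 h1), max_comm]
  · push Not at hne
    obtain ⟨φ, h1, h2⟩ := hne
    rcases h with y | ⟨ψ, p⟩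
    · cases h1
    · rcases h' with y | ⟨ψ', q⟩
      · cases h2
      · cases h1
        cases h2
        rw [gap_same, gap_same, dist_comm, max_comm]

/-- The distance. -/
noncomputable def D (h h' : Col F) : ℝ := max (dist (pr h) (pr h')) (gap h h')

theorem w_le_of_ne {h h' : Col F} (hne : ∀ φ, code h = some φ → code h' ≠ some φ) :
    w h ≤ D h h' := by
  unfold D
  rw [gap_ne hne]
  exact le_max_of_le_right (le_max_left _ _)

theorem w_lip {h h' : Col F} {φ : Scale Y} (h1 : code h = some φ) (h2 : code h' = some φ) :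
    w h ≤ w h' + dist (pr h) (pr h') / 2 := by
  rcases h with y | ⟨ψ, p⟩
  · cases h1
  · rcases h' with y | ⟨ψ', q⟩
    · cases h2
    · cases h1
      cases h2
      exact φ.lip _ _

theorem D_nonneg (a b : Col F) : 0 ≤ D a b := le_max_of_le_left dist_nonneg

theorem D_comm (a b : Col F) : D a b = D b a := by
  unfold D; rw [dist_comm, gap_comm]

/-- If `a` and `c` are far in the new coordinate then `w a` is small. -/
theorem w_le_tri (a b c : Col F) (hne : ∀ φ, code a = some φ → code c ≠ some φ) :
    w a ≤ D a b + D b c := by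
  by_cases h1 : ∀ φ, code a = some φ → code b ≠ some φ
  · exact (w_le_of_ne h1).trans (le_add_of_nonneg_right (D_nonneg _ _))
  · push Not at h1
    obtain ⟨φ, h1, h2⟩ := h1
    have h3 : ∀ ψ, code b = some ψ → code c ≠ some ψ := by
      intro ψ h4
      rw [h2] at h4
      cases h4
      exact hne φ h1
    have h4 := w_le_of_ne h3
    have h5 := w_lip h1 h2
    have h6 : dist (pr a) (pr b) ≤ D a b := le_max_left _ _
    have h7 := D_nonneg a b
    linarith

theorem D_triangle (a b c : Col F) : D a c ≤ D a b + D b c := by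
  refine max_le ?_ ?_
  · exact (dist_triangle _ (pr b) _).trans (add_le_add (le_max_left _ _) (le_max_left _ _))
  by_cases hne : ∀ φ, code a = some φ → code c ≠ some φ
  · rw [gap_ne hne]
    refine max_le (w_le_tri a b c hne) ?_
    have := w_le_tri c b a (fun φ h1 h2 => hne φ h2 h1)
    rw [D_comm c b, D_comm b a] at this
    linarith
  · push Not at hne
    obtain ⟨φ, h1, h2⟩ := hne
    by_cases hb : code b = some φ
    · rcases a with y | ⟨ψ, p⟩
      · cases h1
      rcases c with y | ⟨ψ', q⟩
      · cases h2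
      rcases b with y | ⟨ψ'', s⟩
      · cases hb
      cases h1
      cases h2
      cases hb
      rw [gap_same]
      have e1 : D (act φ p) (act φ s) = max (dist (F.pr φ p) (F.pr φ s))
        (min (dist p s) (max (φ.f (F.pr φ p)) (φ.f (F.pr φ s)))) := by
        unfold D; rw [gap_same]; rfl
      have e2 : D (act φ s) (act φ q) = max (dist (F.pr φ s) (F.pr φ q))
        (min (dist s q) (max (φ.f (F.pr φ s)) (φ.f (F.pr φ q)))) := by
        unfold D; rw [gap_same]; rfl
      have l1 := φ.lip (F.pr φ p) (F.pr φ s)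
      have l2 := φ.lip (F.pr φ s) (F.pr φ p)
      have l3 := φ.lip (F.pr φ s) (F.pr φ q)
      have l4 := φ.lip (F.pr φ q) (F.pr φ s)
      rw [dist_comm (F.pr φ s) (F.pr φ p)] at l2
      rw [dist_comm (F.pr φ q) (F.pr φ s)] at l4
      have a1 : dist (F.pr φ p) (F.pr φ s) ≤ D (act φ p) (act φ s) := by
        rw [e1]; exact le_max_left _ _
      have a2 : dist (F.pr φ s) (F.pr φ q) ≤ D (act φ s) (act φ q) := by
        rw [e2]; exact le_max_left _ _
      have n1 := D_nonneg (act φ p) (act φ s)
      have n2 := D_nonneg (act φ s) (act φ q)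
      have b1 : dist p s ≤ D (act φ p) (act φ s) ∨
          max (φ.f (F.pr φ p)) (φ.f (F.pr φ s)) ≤ D (act φ p) (act φ s) := by
        rw [e1]
        rcases min_choice (dist p s) (max (φ.f (F.pr φ p)) (φ.f (F.pr φ s))) with h | h
        · left; rw [h]; exact le_max_right _ _
        · right; rw [h]; exact le_max_right _ _
      have b2 : dist s q ≤ D (act φ s) (act φ q) ∨
          max (φ.f (F.pr φ s)) (φ.f (F.pr φ q)) ≤ D (act φ s) (act φ q) := by
        rw [e2]
        rcases min_choice (dist s q) (max (φ.f (F.pr φ s)) (φ.f (F.pr φ q))) with h | h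
        · left; rw [h]; exact le_max_right _ _
        · right; rw [h]; exact le_max_right _ _
      rcases b1 with b1 | b1
      · rcases b2 with b2 | b2
        · refine (min_le_left _ _).trans ((dist_triangle p s q).trans (add_le_add b1 b2))
        · refine (min_le_right _ _).trans ?_
          obtain ⟨b3, b4⟩ := max_le_iff.1 b2
          refine max_le ?_ ?_ <;> linarith
      · refine (min_le_right _ _).trans ?_
        obtain ⟨b3, b4⟩ := max_le_iff.1 b1
        refine max_le ?_ ?_ <;> linarith
    · have h3 : w a ≤ D a b := w_le_of_ne (fun ψ h4 h5 => by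
        rw [h1] at h4; cases h4; exact hb h5)
      have h4 : w c ≤ D b c := by
        rw [D_comm]
        exact w_le_of_ne (fun ψ h4 h5 => by rw [h2] at h4; cases h4; exact hb h5)
      refine (gap_le a c).trans (max_le ?_ ?_)
      · have := D_nonneg b c; linarith
      · have := D_nonneg a b; linarith

noncomputable instance : MetricSpace (Col F) where
  dist := D
  dist_self := by
    intro h
    show max (dist (pr h) (pr h)) (gap h h) = 0
    rw [dist_self]
    rcases h with y | ⟨φ, p⟩
    · show max 0 (max 0 0) = (0 : ℝ)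
      simp
    · rw [gap_same, dist_self, min_eq_left (le_max_of_le_left (F.pos _ _).le), max_self]
  dist_comm := D_comm
  dist_triangle := D_triangle
  eq_of_dist_eq_zero := by
    intro a b h
    have h : D a b = 0 := h
    have h1 : dist (pr a) (pr b) ≤ 0 := h ▸ le_max_left _ _
    have h2 : gap a b ≤ 0 := h ▸ le_max_right _ _
    by_cases hne : ∀ φ, code a = some φ → code b ≠ some φ
    · rw [gap_ne hne, max_le_iff] at h2
      rcases a with y | ⟨φ, p⟩
      · rcases b with y' | ⟨φ, p⟩
        · rw [eq_of_dist_eq_zero (le_antisymm h1 dist_nonneg : dist y y' = 0)]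
        · exact absurd h2.2 (not_le.2 (F.pos _ _))
      · exact absurd h2.1 (not_le.2 (F.pos _ _))
    · push Not at hne
      obtain ⟨φ, h3, h4⟩ := hne
      rcases a with y | ⟨ψ, p⟩
      · cases h3
      rcases b with y | ⟨ψ', q⟩
      · cases h4
      cases h3
      cases h4
      rw [gap_same] at h2
      have h5 : 0 < max (φ.f (F.pr φ p)) (φ.f (F.pr φ q)) := lt_max_of_lt_left (F.pos _ _)
      rcases min_le_iff.1 h2 with h6 | h6
      · rw [eq_of_dist_eq_zero (le_antisymm h6 dist_nonneg)]
      · exact absurd h6 (not_le.2 h5)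

theorem dist_eq (h h' : Col F) : dist h h' = max (dist (pr h) (pr h')) (gap h h') := rfl

theorem dist_pr_le (h h' : Col F) : dist (pr h) (pr h') ≤ dist h h' := le_max_left _ _

theorem dist_le (h h' : Col F) :
    dist h h' ≤ max (dist (pr h) (pr h')) (max (w h) (w h')) :=
  max_le_max le_rfl (gap_le h h')

theorem w_le_dist {h h' : Col F} (hne : ∀ φ, code h = some φ → code h' ≠ some φ) :
    w h ≤ dist h h' := w_le_of_ne hne

/-- The inclusion of `X φ` does not increase distances. -/
theorem dist_act_le (φ : Scale Y) (p q : F.X φ) :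
    dist (act φ p : Col F) (act φ q) ≤ dist p q := by
  rw [dist_eq, gap_same]
  exact max_le (F.dist_pr φ p q) (min_le_left _ _)

/-- Small distances are not changed. -/
theorem dist_act_eq (φ : Scale Y) (p q : F.X φ)
    (h : dist (act φ p : Col F) (act φ q) < φ.f (F.pr φ p)) :
    dist (act φ p : Col F) (act φ q) = dist p q := by
  refine le_antisymm (dist_act_le φ p q) ?_
  rw [dist_eq, gap_same] at h ⊢
  have h2 := (le_max_right _ _).trans_lt h
  rcases min_choice (dist p q) (max (φ.f (F.pr φ p)) (φ.f (F.pr φ q))) with h3 | h3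
  · rw [h3]; exact le_max_right _ _
  · rw [h3] at h2
    exact absurd h2 (not_lt.2 (le_max_left _ _))

end Col

/-- The open set `{φ > 0}` with a complete metric. -/
structure Pos {Y : Type} [MetricSpace Y] (φ : Scale Y) where
  y : Y
  pos : 0 < φ.f y

namespace Pos

variable {Y : Type} [MetricSpace Y] {φ : Scale Y}

theorem ext' {p q : Pos φ} (h : p.y = q.y) : p = q := by
  cases p; cases q; simp only [mk.injEq]; exact h

/-- The embedding which defines the metric. -/
noncomputable def emb (p : Pos φ) : Y × ℝ := (p.y, (φ.f p.y)⁻¹)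

theorem emb_injective : Function.Injective (emb : Pos φ → Y × ℝ) := fun _ _ h =>
  ext' (congrArg Prod.fst h)

noncomputable instance : MetricSpace (Pos φ) :=
  MetricSpace.induced emb emb_injective inferInstance

theorem dist_eq (p q : Pos φ) :
    dist p q = max (dist p.y q.y) |(φ.f p.y)⁻¹ - (φ.f q.y)⁻¹| := by
  show dist (emb p) (emb q) = _
  rw [Prod.dist_eq, Real.dist_eq]
  rfl

theorem dist_y_le (p q : Pos φ) : dist p.y q.y ≤ dist p q := by
  rw [dist_eq]; exact le_max_left _ _

theorem isInducing_emb : IsInducing (emb : Pos φ → Y × ℝ) := ⟨rfl⟩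

end Pos

/-- The labels over `{φ > 0}`. -/
noncomputable def lab {Y : Type} [MetricSpace Y] (φ : Scale Y) :
    Lab (Lip (Pos φ) 1) (Code (Pos φ)) :=
  haveI : Nonempty (Code (Pos φ)) :=
    ⟨(⟨fun _ => 1 / 4, fun _ _ => le_add_of_nonneg_right dist_nonneg,
        fun _ => ⟨by norm_num, le_rfl⟩⟩,
      ⟨fun _ => 1 / 4, fun _ _ => le_add_of_nonneg_right dist_nonneg,
        fun _ => ⟨by norm_num, le_rfl⟩⟩)⟩
  Classical.choice (exists_lab _ _)

end Pool.Agent.CDim
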