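import Pool.Agent.CDim.Defs
import Pool.Agent.Gap.IndUpper
import Pool.Agent.Gap.UpperC

set_option autoImplicit false

open Set TopologicalSpace Topology

namespace Pool.Agent.CDim

open Pool.Agent.Gap

/-- Strong zero-dimensionality is hereditary in metric spaces. -/
theorem SZ.subset {X : Type} [MetricSpace X] {S T : Set X} (hS : SZ S) (h : T ⊆ S) : SZ T :=
  PZ.sz (UpperC_isometry (Set.inclusion h) (fun _ _ => rfl) (SZ.pz hS))

/-- Images under embeddings. -/
theorem SZ.image {X X' : Type} [MetricSpace X] [MetricSpace X'] {f : X → X'} (hf : IsEmbedding f)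
    {S : Set X} (hS : SZ S) : SZ (f '' S) :=
  (SZ.of_isClosedEmbedding (hf.homeomorphImage S).symm.isClosedEmbedding hS)

/-- Preimages under embeddings. -/
theorem SZ.preimage {X X' : Type} [MetricSpace X] [MetricSpace X'] {f : X → X'}
    (hf : IsEmbedding f) {S : Set X'} (hS : SZ S) : SZ (f ⁻¹' S) := by
  have h1 : SZ (f '' (f ⁻¹' S)) := SZ.subset hS (image_preimage_subset f S)
  exact SZ.of_isClosedEmbedding (hf.homeomorphImage (f ⁻¹' S)).isClosedEmbedding h1

/-- Separation of closed sets along a strongly zero-dimensional subspace. -/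
theorem sep_sz {X : Type} [MetricSpace X] {Z A B : Set X} (hZ : SZ Z) (hA : IsClosed A)
    (hB : IsClosed B) (h : Disjoint A B) : ∃ U V : Set X, IsOpen U ∧ IsOpen V ∧ Disjoint U V ∧
      A ⊆ U ∧ B ⊆ V ∧ Z ⊆ U ∪ V := by
  obtain ⟨O1, hO1, hBO, hOA⟩ := normal_exists_closure_subset hB hA.isOpen_compl
    (fun x hx hx' => Set.disjoint_left.1 h hx' hx)
  obtain ⟨U, hU, h1, h2, h3⟩ := IndUpper_step hZ hA (isClosed_closure (s := O1)).isOpen_compl
    (fun x hx hx' => hOA hx' hx)
  refine ⟨U, (closure U)ᶜ, hU, isClosed_closure.isOpen_compl,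
    Set.disjoint_left.2 fun x hx hx' => hx' (subset_closure hx), h1, ?_, ?_⟩
  · intro x hx hx'
    rw [mem_closure_iff] at hx'
    obtain ⟨y, hy1, hy2⟩ := hx' O1 hO1 (hBO hx)
    exact h2 hy2 (subset_closure hy1)
  · intro x hx
    by_cases hxU : x ∈ U
    · exact Or.inl hxU
    · right
      intro hx'
      refine Set.disjoint_left.1 h3 ?_ hx
      rw [frontier, hU.interior_eq]
      exact ⟨hx', hxU⟩

end Pool.Agent.CDim
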