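import Pool.Agent.CDim.ColTop
import Pool.Agent.CDim.Her

set_option autoImplicit false

open Set TopologicalSpace Topology

namespace Pool.Agent.CDim

open Pool.Agent.Gap

variable {Y : Type} [MetricSpace Y] {F : Fam Y}

theorem ColCover_isometry_core : Isometry (Col.core : Y → Col F) := by
  refine Isometry.of_dist_eq fun y y' => ?_
  rw [Col.dist_eq]
  have h : Col.gap (Col.core y : Col F) (Col.core y') = 0 := by
    show max (0 : ℝ) 0 = 0
    exact max_self _
  rw [h]
  exact max_eq_left dist_nonneg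

/-- Finite covers by strongly zero-dimensional pieces go up one level. -/
theorem Col.cover (hX : ∀ (φ : Scale Y) (S : Set Y), SZ S → Fd 2 {p : F.X φ | F.pr φ p ∈ S})
    (φ : Scale Y) (m : ℕ) (W : Set Y) (hW : Fd m W) :
    Fd (3 * m) {h : Col F | Col.pr h ∈ W ∧
      ((φ.f (Col.pr h) = 0 ∧ Col.code h = none) ∨ Col.code h = some φ)} := by
  obtain ⟨S, hS, hWS⟩ := hW
  choose T hT hTS using fun j => hX φ (S j) (hS j)
  let P : Fin 3 → Fin m → Set (Col F) := fun i j =>
    if h : (i : ℕ) < 2 then (fun p : F.X φ => (Col.act φ p : Col F)) '' T j ⟨i, h⟩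
    else Col.core '' S j
  have hP : ∀ i j, SZ (P i j) := by
    intro i j
    by_cases h : (i : ℕ) < 2
    · have e : P i j = (fun p : F.X φ => (Col.act φ p : Col F)) '' T j ⟨i, h⟩ := dif_pos h
      rw [e]
      exact SZ.image (Col.isOpenEmbedding_act φ).isEmbedding (hT j _)
    · have e : P i j = Col.core '' S j := dif_neg h
      rw [e]
      exact SZ.image ColCover_isometry_core.isEmbedding (hS j)
  refine ⟨fun t => P (finProdFinEquiv.symm t).1 (finProdFinEquiv.symm t).2,
    fun t => hP _ _, ?_⟩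
  rintro h ⟨h1, h2⟩
  have key : ∃ i j, h ∈ P i j := by
    obtain ⟨j, hj⟩ := mem_iUnion.1 (hWS h1)
    rcases h with y | ⟨ψ, p⟩
    · refine ⟨2, j, ?_⟩
      have : ¬ ((2 : Fin 3) : ℕ) < 2 := by decide
      simp only [P, dif_neg this]
      exact ⟨y, hj, rfl⟩
    · have h3 : ψ = φ := by
        rcases h2 with h2 | h2
        · cases h2.2
        · exact Option.some.inj h2
      subst h3
      obtain ⟨i, hi⟩ := mem_iUnion.1 (hTS j (show p ∈ {p : F.X ψ | F.pr ψ p ∈ S j} from hj))
      refine ⟨⟨i, i.2.trans (by norm_num)⟩, j, ?_⟩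
      have : ((⟨i, i.2.trans (by norm_num)⟩ : Fin 3) : ℕ) < 2 := i.2
      simp only [P, dif_pos this]
      exact ⟨p, hi, rfl⟩
  obtain ⟨i, j, hij⟩ := key
  refine mem_iUnion.2 ⟨finProdFinEquiv (i, j), ?_⟩
  simpa only [Equiv.symm_apply_apply] using hij

end Pool.Agent.CDim
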