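import Pool.Agent.CDim.Col

set_option autoImplicit false

open Set TopologicalSpace Topology

namespace Pool.Agent.CDim

open Pool.Agent.Gap

variable {Y : Type} [MetricSpace Y] {F : Fam Y}

theorem ColTop_exists_act {h : Col F} {φ : Scale Y} (hc : Col.code h = some φ) :
    ∃ p : F.X φ, h = Col.act φ p := by
  rcases h with y | ⟨ψ, p⟩
  · cases hc
  · cases hc
    exact ⟨p, rfl⟩

theorem ColTop_exists_code {h : Col F} (hw : 0 < Col.w h) : ∃ φ, Col.code h = some φ := by
  rcases h with y | ⟨ψ, p⟩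
  · exact absurd hw (lt_irrefl _)
  · exact ⟨ψ, rfl⟩

/-- Points near a point with code `φ` have code `φ`. -/
theorem ColTop_code_eq {h h' : Col F} {φ : Scale Y} (hc : Col.code h = some φ)
    (hd : dist h h' < Col.w h) : Col.code h' = some φ := by
  by_contra hne
  have := Col.w_le_dist (h := h) (h' := h') (fun ψ h1 h2 => by
    rw [hc] at h1
    cases h1
    exact hne h2)
  exact absurd hd (not_lt.2 this)

theorem ColTop_dist_core (h : Col F) (y : Y) :
    dist h (Col.core y) ≤ max (dist (Col.pr h) y) (Col.w h) := by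
  have := Col.dist_le h (Col.core y)
  have h2 : max (Col.w h) (Col.w (Col.core y : Col F)) = Col.w h :=
    max_eq_left (Col.w_nonneg h)
  rw [h2] at this
  exact this

theorem ColTop_continuous_pr : Continuous (Col.pr : Col F → Y) :=
  (LipschitzWith.mk_one fun h h' => Col.dist_pr_le h h').continuous

theorem Col.completeSpace [CompleteSpace Y] (hF : ∀ φ, CompleteSpace (F.X φ)) :
    CompleteSpace (Col F) := by
  refine Metric.complete_of_cauchySeq_tendsto fun u hu => ?_
  have hy : CauchySeq fun n => Col.pr (u n) := by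
    rw [Metric.cauchySeq_iff] at hu ⊢
    intro ε hε
    obtain ⟨N, hN⟩ := hu ε hε
    exact ⟨N, fun m hm n hn => (Col.dist_pr_le _ _).trans_lt (hN m hm n hn)⟩
  obtain ⟨y, hy⟩ := cauchySeq_tendsto_of_complete hy
  rw [Metric.tendsto_atTop] at hy
  rw [Metric.cauchySeq_iff] at hu
  by_cases hA : ∀ ε > 0, ∀ N : ℕ, ∃ n ≥ N, Col.w (u n) < ε
  · refine ⟨Col.core y, ?_⟩
    rw [Metric.tendsto_atTop]
    intro ε hε
    obtain ⟨N1, hN1⟩ := hu (ε / 2) (half_pos hε)
    obtain ⟨N2, hN2⟩ := hy (ε / 2) (half_pos hε)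
    obtain ⟨m, hm, hwm⟩ := hA (ε / 2) (half_pos hε) (max N1 N2)
    refine ⟨max N1 N2, fun n hn => ?_⟩
    have h1 := hN1 n ((le_max_left _ _).trans hn) m ((le_max_left _ _).trans hm)
    have h2 := hN2 m ((le_max_right _ _).trans hm)
    have h3 := (ColTop_dist_core (u m) y).trans_lt (max_lt h2 hwm)
    have h4 := dist_triangle (u n) (u m) (Col.core y)
    linarith
  · push Not at hA
    obtain ⟨c, hc, N, hN⟩ := hA
    obtain ⟨N1, hN1⟩ := hu c hc
    set M := max N N1 with hM
    obtain ⟨φ, hφ⟩ := ColTop_exists_code (hc.trans_le (hN M (le_max_left _ _)))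
    have hcode : ∀ n, ∃ p : F.X φ, u (n + M) = Col.act φ p := by
      intro n
      refine ColTop_exists_act (ColTop_code_eq hφ ?_)
      exact (hN1 M (le_max_right _ _) (n + M)
        ((le_max_right N N1).trans (Nat.le_add_left _ _))).trans_le (hN M (le_max_left _ _))
    choose p hp using hcode
    have hpc : CauchySeq p := by
      rw [Metric.cauchySeq_iff]
      intro ε hε
      obtain ⟨N2, hN2⟩ := hu (min ε c) (lt_min hε hc)
      refine ⟨N2, fun m hm n hn => ?_⟩
      have h1 := hN2 (m + M) (hm.trans (Nat.le_add_right _ _)) (n + M)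
        (hn.trans (Nat.le_add_right _ _))
      have h2 : c ≤ Col.w (u (m + M)) :=
        hN (m + M) ((le_max_left N N1).trans (Nat.le_add_left _ _))
      rw [hp m] at h2
      rw [hp m, hp n] at h1
      have h3 : dist (Col.act φ (p m) : Col F) (Col.act φ (p n)) < φ.f (F.pr φ (p m)) :=
        (h1.trans_le (min_le_right _ _)).trans_le h2
      rw [← Col.dist_act_eq φ (p m) (p n) h3]
      exact h1.trans_le (min_le_left _ _)
    have := hF φ
    obtain ⟨q, hq⟩ := cauchySeq_tendsto_of_complete hpc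
    refine ⟨Col.act φ q, ?_⟩
    rw [← Filter.tendsto_add_atTop_iff_nat M, Metric.tendsto_atTop]
    rw [Metric.tendsto_atTop] at hq
    intro ε hε
    obtain ⟨N2, hN2⟩ := hq ε hε
    refine ⟨N2, fun n hn => ?_⟩
    rw [hp n]
    exact (Col.dist_act_le φ _ _).trans_lt (hN2 n hn)

theorem Col.isOpenEmbedding_act (φ : Scale Y) :
    IsOpenEmbedding (fun p : F.X φ => (Col.act φ p : Col F)) := by
  refine IsOpenEmbedding.of_continuous_injective_isOpenMap
    (LipschitzWith.mk_one fun p q => Col.dist_act_le φ p q).continuous ?_ ?_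
  · intro p q h
    simpa using h
  · intro U hU
    rw [Metric.isOpen_iff] at hU ⊢
    rintro _ ⟨p, hp, rfl⟩
    obtain ⟨ε, hε, hb⟩ := hU p hp
    refine ⟨min ε (φ.f (F.pr φ p)), lt_min hε (F.pos φ p), fun h hh => ?_⟩
    rw [Metric.mem_ball, dist_comm] at hh
    obtain ⟨q, rfl⟩ := ColTop_exists_act (ColTop_code_eq (h := Col.act φ p) (φ := φ) rfl
      (hh.trans_le (min_le_right _ _)))
    refine ⟨q, hb ?_, rfl⟩
    rw [Metric.mem_ball, dist_comm, ← Col.dist_act_eq φ p q (hh.trans_le (min_le_right _ _))]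
    exact hh.trans_le (min_le_left _ _)

theorem Col.cb (hY : CB Y) (hF : ∀ φ, CB (F.X φ)) : CB (Col F) := by
  refine isTopologicalBasis_of_isOpen_of_nhds (fun s hs => IsClopen.isOpen hs) ?_
  intro h U hhU hU
  rcases h with y | ⟨φ, p⟩
  · rw [Metric.isOpen_iff] at hU
    obtain ⟨ε, hε, hb⟩ := hU _ hhU
    obtain ⟨C, hC, hyC, hCb⟩ := hY.exists_subset_of_mem_open
      (Metric.mem_ball_self (x := y) (half_pos hε)) Metric.isOpen_ball
    have hC : IsClopen C := hC
    have hCd : ∀ z ∈ C, dist z y < ε / 2 := fun z hz => Metric.mem_ball.1 (hCb hz)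
    refine ⟨{h : Col F | Col.pr h ∈ C ∧ ∀ φ, Col.code h = some φ → φ.f y < ε / 2}, ?_, ?_, ?_⟩
    · constructor
      · rw [← isOpen_compl_iff, Metric.isOpen_iff]
        intro h hh
        rw [mem_compl_iff, mem_ofPred_eq, not_and_or] at hh
        rcases hh with hh | hh
        · have h1 : IsOpen (Col.pr ⁻¹' Cᶜ : Set (Col F)) :=
            hC.isClosed.isOpen_compl.preimage ColTop_continuous_pr
          rw [Metric.isOpen_iff] at h1
          obtain ⟨δ, hδ, h2⟩ := h1 h hh
          exact ⟨δ, hδ, fun h' hh' h3 => h2 hh' h3.1⟩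
        · push Not at hh
          obtain ⟨φ, h1, h2⟩ := hh
          refine ⟨Col.w h, ?_, fun h' hh' h3 => ?_⟩
          · obtain ⟨p, rfl⟩ := ColTop_exists_act h1
            exact F.pos φ p
          · rw [Metric.mem_ball, dist_comm] at hh'
            exact absurd (h3.2 φ (ColTop_code_eq h1 hh')) (not_lt.2 h2)
      · rw [Metric.isOpen_iff]
        rintro h ⟨h1, h2⟩
        have h3 : IsOpen (Col.pr ⁻¹' C : Set (Col F)) :=
          hC.isOpen.preimage ColTop_continuous_pr
        rw [Metric.isOpen_iff] at h3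
        obtain ⟨δ, hδ, h4⟩ := h3 h h1
        rcases h with z | ⟨φ, p⟩
        · refine ⟨min δ (ε / 4), lt_min hδ (by linarith), fun h' hh' => ⟨?_, ?_⟩⟩
          · exact h4 (Metric.ball_subset_ball (min_le_left _ _) hh')
          · intro φ hφ
            have h5 : Col.pr h' ∈ C := h4 (Metric.ball_subset_ball (min_le_left _ _) hh')
            rw [Metric.mem_ball] at hh'
            have h6 : Col.w h' < ε / 4 :=
              (Col.w_le_dist (h := h') (h' := Col.core z) (fun ψ _ h7 => by
                cases h7)).trans_lt (hh'.trans_le (min_le_right _ _))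
            obtain ⟨q, rfl⟩ := ColTop_exists_act hφ
            have h7 := φ.lip y (F.pr φ q)
            have h8 : dist (F.pr φ q) y < ε / 2 := hCd _ h5
            have h9 : φ.f (F.pr φ q) < ε / 4 := h6
            rw [dist_comm] at h7
            linarith
        · refine ⟨min δ (φ.f (F.pr φ p)), lt_min hδ (F.pos φ p), fun h' hh' => ⟨?_, ?_⟩⟩
          · exact h4 (Metric.ball_subset_ball (min_le_left _ _) hh')
          · intro ψ hψ
            rw [Metric.mem_ball, dist_comm] at hh'
            have h5 := ColTop_code_eq (h := Col.act φ p) (φ := φ) rfl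
              (hh'.trans_le (min_le_right _ _))
            rw [hψ] at h5
            cases h5
            exact h2 φ rfl
    · exact ⟨hyC, fun φ hφ => by cases hφ⟩
    · rintro h ⟨h1, h2⟩
      apply hb
      rw [Metric.mem_ball]
      refine (ColTop_dist_core h y).trans_lt (max_lt ((hCd _ h1).trans (by linarith)) ?_)
      rcases h with z | ⟨φ, q⟩
      · exact hε
      · have h3 := φ.lip (F.pr φ q) y
        have h4 : dist (F.pr φ q) y < ε / 2 := hCd _ h1
        have h5 := h2 φ rfl
        show φ.f (F.pr φ q) < ε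
        linarith
  · have hemb := Col.isOpenEmbedding_act (F := F) φ
    have hc : 0 < φ.f (F.pr φ p) := F.pos φ p
    have hprc : Continuous (F.pr φ) :=
      (LipschitzWith.mk_one fun p q => F.dist_pr φ p q).continuous
    have hU' : IsOpen ((fun p : F.X φ => (Col.act φ p : Col F)) ⁻¹' U ∩
        F.pr φ ⁻¹' Metric.ball (F.pr φ p) (φ.f (F.pr φ p))) :=
      (hU.preimage hemb.continuous).inter (Metric.isOpen_ball.preimage hprc)
    have hpU : p ∈ (fun p : F.X φ => (Col.act φ p : Col F)) ⁻¹' U ∩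
        F.pr φ ⁻¹' Metric.ball (F.pr φ p) (φ.f (F.pr φ p)) := ⟨hhU, Metric.mem_ball_self hc⟩
    obtain ⟨B, hB, hpB, hBU⟩ := (hF φ).exists_subset_of_mem_open hpU hU'
    have hB : IsClopen B := hB
    have hBc : ∀ b ∈ B, φ.f (F.pr φ p) / 2 < φ.f (F.pr φ b) := by
      intro b hb
      have h1 : dist (F.pr φ b) (F.pr φ p) < φ.f (F.pr φ p) := Metric.mem_ball.1 (hBU hb).2
      have h2 := φ.lip (F.pr φ p) (F.pr φ b)
      rw [dist_comm] at h2
      linarith
    refine ⟨(fun p : F.X φ => (Col.act φ p : Col F)) '' B, ⟨?_, hemb.isOpenMap _ hB.isOpen⟩,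
      ⟨p, hpB, rfl⟩, ?_⟩
    · rw [← closure_subset_iff_isClosed]
      intro h hh
      have hh0 := hh
      rw [Metric.mem_closure_iff] at hh
      obtain ⟨_, ⟨b, hb, rfl⟩, hd⟩ := hh (φ.f (F.pr φ p) / 2) (half_pos hc)
      rw [dist_comm] at hd
      obtain ⟨q, rfl⟩ := ColTop_exists_act (ColTop_code_eq (h := Col.act φ b) (φ := φ) rfl
        (hd.trans (hBc b hb)))
      have h1 : q ∈ closure B := by
        rw [hemb.isInducing.closure_eq_preimage_closure_image]
        exact hh0
      rw [hB.isClosed.closure_eq] at h1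
      exact ⟨q, h1, rfl⟩
    · rintro _ ⟨b, hb, rfl⟩
      exact (hBU hb).1

end Pool.Agent.CDim
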