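import Pool.Agent.CDim.Steps
import Pool.Agent.Gap.Cube

set_option autoImplicit false

open Set TopologicalSpace Topology

namespace Pool.Agent.CDim

open Pool.Agent.Gap

/-- The map from a finite cube to the Hilbert cube which stretches the middle third of every
coordinate. -/
noncomputable def cubeFinalC (n : ℕ) (w : Fin n → unitInterval) (j : ℕ) : unitInterval :=
  if h : j < n then Set.projIcc (0 : ℝ) 1 zero_le_one (3 * (w ⟨j, h⟩ : ℝ) - 1) else 0

theorem cubeFinal_continuous (n : ℕ) : Continuous (cubeFinalC n) := by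
  refine continuous_pi fun j => ?_
  unfold cubeFinalC
  by_cases h : j < n
  · simp only [h, dif_pos]
    refine continuous_projIcc.comp ?_
    fun_prop
  · simp only [h, dif_neg, not_false_eq_true]
    exact continuous_const

theorem cubeFinal_zero {n : ℕ} (w : Fin n → unitInterval) (j : Fin n)
    (h : (w j : ℝ) < 1 / 3) : cubeFinalC n w j = 0 := by
  unfold cubeFinalC
  rw [dif_pos j.2]
  exact Set.projIcc_of_le_left _ (by linarith)

theorem cubeFinal_one {n : ℕ} (w : Fin n → unitInterval) (j : Fin n)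
    (h : 2 / 3 < (w j : ℝ)) : cubeFinalC n w j = 1 := by
  unfold cubeFinalC
  rw [dif_pos j.2]
  exact Set.projIcc_of_right_le _ (by linarith)

/-- The cube theorem for the Hilbert cube, for pairs which only miss the opposite faces. -/
theorem hilbert_cube (G : ℕ × Bool → Set (ℕ → unitInterval))
    (hd : ∀ j, Disjoint (G (j, false)) (G (j, true)))
    (h0 : ∀ j z, z j = 0 → z ∉ G (j, true)) (h1 : ∀ j z, z j = 1 → z ∉ G (j, false))
    (hc : ∀ z, ∃ jb, G jb ∈ 𝓝 z) : False := by
  obtain ⟨t, ht⟩ := isCompact_univ.elim_finite_subcover (fun jb => interior (G jb))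
    (fun jb => isOpen_interior) (fun z _ => by
      obtain ⟨jb, h⟩ := hc z
      exact mem_iUnion.2 ⟨jb, mem_interior_iff_mem_nhds.2 h⟩)
  let n : ℕ := t.sup (fun jb => jb.1 + 1)
  have hn : ∀ jb ∈ t, jb.1 < n := fun jb hjb =>
    Finset.le_sup (f := fun jb : ℕ × Bool => jb.1 + 1) hjb
  have hC := cubeFinal_continuous n
  obtain ⟨w, hw⟩ := cube (Fin n)
    (fun j => {w | (w j : ℝ) < 1 / 3} ∪ cubeFinalC n ⁻¹' interior (G (j, false)))
    (fun j => {w | 2 / 3 < (w j : ℝ)} ∪ cubeFinalC n ⁻¹' interior (G (j, true)))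
    (fun j => (isOpen_lt (by fun_prop) continuous_const).union
      (isOpen_interior.preimage hC))
    (fun j => (isOpen_lt continuous_const (by fun_prop)).union
      (isOpen_interior.preimage hC))
    (fun j => by
      rw [Set.disjoint_left]
      rintro w (ha | ha) (hb | hb)
      · have ha' : (w j : ℝ) < 1 / 3 := ha
        have hb' : 2 / 3 < (w j : ℝ) := hb
        linarith
      · exact h0 j _ (cubeFinal_zero w j ha) (interior_subset hb)
      · exact h1 j _ (cubeFinal_one w j hb) (interior_subset ha)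
      · exact Set.disjoint_left.1 (hd j) (interior_subset ha) (interior_subset hb))
    (fun j z hz => Or.inl (by
      show (z j : ℝ) < 1 / 3
      rw [hz]; norm_num))
    (fun j z hz => Or.inl (by
      show 2 / 3 < (z j : ℝ)
      rw [hz]; norm_num))
  obtain ⟨⟨j, b⟩, hjb⟩ := mem_iUnion.1 (ht (mem_univ (cubeFinalC n w)))
  obtain ⟨hjt, hj⟩ := mem_iUnion.1 hjb
  have hjn : j < n := hn _ hjt
  obtain ⟨ha, hb⟩ := hw ⟨j, hjn⟩
  cases b
  · exact ha (Or.inr hj)
  · exact hb (Or.inr hj)

namespace Plan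

variable {S : TS} (p : Plan S)

theorem not_A_zero (Λ : p.Lbs) (u : S.U) (h : p.A Λ 0 u) : False := by
  have hx : ∀ j b z, p.O Λ 0 (j, b) u z → ∃ v, v ∈ p.P j b ∧ S.act j v = some (p.φ j) ∧
      S.x j v = z j := by
    intro j b z hz
    obtain ⟨v, hv, hthr⟩ := p.exists_thr Λ 0 z u
    have hP : v ∈ p.P j b := hz v hv hthr
    have hact := p.P_act j b v hP
    refine ⟨v, hP, hact, ?_⟩
    obtain ⟨b', hb'⟩ := hthr j (Nat.zero_le _)
    rw [← S.x_r (Nat.lt_succ_self j) v, hb']
    exact p.stp_x Λ j b' (z j) v (S.act_pos j v _ hact)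
  refine hilbert_cube (fun jb => {z | p.O Λ 0 jb u z}) ?_ ?_ ?_ ?_
  · intro j
    rw [Set.disjoint_left]
    intro z hz hz'
    obtain ⟨v, hv, hthr⟩ := p.exists_thr Λ 0 z u
    exact Set.disjoint_left.1 (p.P_disj j) (hz v hv hthr) (hz' v hv hthr)
  · intro j z hz0 hz
    obtain ⟨v, hv, hact, hxv⟩ := hx j true z hz
    have := p.P_zero j v hact (by rw [hxv, hz0]; rfl)
    exact Set.disjoint_left.1 (p.P_disj j) this hv
  · intro j z hz1 hz
    obtain ⟨v, hv, hact, hxv⟩ := hx j false z hz
    have := p.P_one j v hact (by rw [hxv, hz1]; rfl)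
    exact Set.disjoint_left.1 (p.P_disj j) hv this
  · intro z
    obtain ⟨jb, ε, hε, N, hN, hO⟩ := h z
    refine ⟨jb, Filter.mem_of_superset hN fun z' hz' => ?_⟩
    refine hO u ?_ ?_ z' hz'
    · rw [S.W_zero]; exact mem_univ _
    · rw [S.d_self]; exact hε

end Plan

end Pool.Agent.CDim
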