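import Pool.Agent.Gap.ZeroDim

set_option autoImplicit false

open Set TopologicalSpace Topology

namespace Pool.Agent.CDim

open Pool.Agent.Gap

/-- A base of clopen sets. -/
def CB (X : Type) [TopologicalSpace X] : Prop := IsTopologicalBasis {s : Set X | IsClopen s}

/-- `W` is covered by `m` strongly zero-dimensional subspaces. -/
def Fd {X : Type} [TopologicalSpace X] (m : ℕ) (W : Set X) : Prop :=
  ∃ S : Fin m → Set X, (∀ j, SZ (S j)) ∧ W ⊆ ⋃ j, S j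

/-- Scales: `1/2`-Lipschitz functions to `[0, 1]`. -/
structure Scale (Y : Type) [MetricSpace Y] where
  f : Y → ℝ
  lip : ∀ y y', f y ≤ f y' + dist y y' / 2
  nonneg : ∀ y, 0 ≤ f y
  le_one : ∀ y, f y ≤ 1

/-- The one-step extension `E` of `Y`: for every scale `φ` a new coordinate `x` is attached over
the points `y` of `Y`, at scale `φ y` (points with `act h = some φ`, where `φ (pr h) > 0`); the
points with `act h = none` form a copy of `Y`. -/
structure OneStep (Y E : Type) [MetricSpace Y] [MetricSpace E] where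
  pr : E → Y
  core : Y → E
  act : E → Option (Scale Y)
  x : E → ℝ
  Lb : Scale Y → Type
  Q : ∀ φ : Scale Y, Lb φ → Bool → unitInterval → Y → E
  pr_core : ∀ y, pr (core y) = y
  act_core : ∀ y, act (core y) = none
  core_pr : ∀ h, act h = none → core (pr h) = h
  act_pos : ∀ h φ, act h = some φ → 0 < φ.f (pr h)
  dist_pr : ∀ h h', dist (pr h) (pr h') ≤ dist h h'
  dist_core : ∀ y y', dist (core y) (core y') ≤ dist y y'
  dist_act : ∀ h φ y, act h = some φ → dist h (core y) ≤ max (dist (pr h) y) (φ.f (pr h))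
  sep : ∀ h h' φ, act h = some φ → act h' ≠ some φ → φ.f (pr h) ≤ dist h h'
  x_lip : ∀ h h' φ, act h = some φ → act h' = some φ → dist h h' < φ.f (pr h) →
    |x h - x h'| ≤ dist h h'
  Lb_ne : ∀ φ, Nonempty (Lb φ)
  Q_pr : ∀ φ L b lam y, pr (Q φ L b lam y) = y
  Q_act : ∀ φ L b lam y, 0 < φ.f y → act (Q φ L b lam y) = some φ
  Q_x : ∀ φ L b lam y, 0 < φ.f y → x (Q φ L b lam y) = lam
  Q_core : ∀ φ L b lam y, φ.f y = 0 → Q φ L b lam y = core y
  Q_usc : ∀ φ L lam y, 0 < φ.f y → ∀ ε > 0, ∃ δ > 0, ∀ (lam' : unitInterval) (y' : Y),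
    dist lam' lam < δ → dist y' y < δ → ∀ b', ∃ b, dist (Q φ L b' lam' y') (Q φ L b lam y) < ε
  skel : ∀ (φ : Scale Y) (S : Set Y), (∀ y ∈ S, 0 < φ.f y) →
    (∀ y, 0 < φ.f y → y ∈ closure S → y ∈ S) →
    ∀ ρ : E → ℝ, (∀ h, act h = some φ → pr h ∈ S → 0 < ρ h ∧ ρ h ≤ 1) →
      (∀ h h', act h = some φ → act h' = some φ → pr h ∈ S → pr h' ∈ S →
        ρ h ≤ ρ h' + dist h h') →
      ∃ L : Lb φ, ∀ y ∈ S, ∀ lam, ∃ h, pr h = y ∧ act h = some φ ∧
        ∀ b, dist (Q φ L b lam y) h < ρ h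
  cover : ∀ (φ : Scale Y) (m : ℕ) (W : Set Y), Fd m W →
    Fd (3 * m) {h | pr h ∈ W ∧ ((φ.f (pr h) = 0 ∧ act h = none) ∨ act h = some φ)}

/-- An infinite tower of one-step extensions, starting with a point. -/
structure Tw where
  Y : ℕ → Type
  [m : ∀ i, MetricSpace (Y i)]
  cs : ∀ i, CompleteSpace (Y i)
  cb : ∀ i, CB (Y i)
  st : ∀ i, OneStep (Y i) (Y (i + 1))
  y0 : Y 0
  uniq : ∀ y : Y 0, y = y0

attribute [instance] Tw.m

/-- The interface for the inverse limit `U` of a tower. `d i` is the (pseudo)distance of the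
projections to level `i`, `r i u` is the point with the same projection to level `i` all of whose
later coordinates are collapsed, `Sc i` are the scales on level `i` (with values `val i φ u`),
`act i u` is the scale used by `u` at coordinate `i` (`none`: the coordinate is collapsed),
`x i u` is the position in the coordinate `i`, `Q i φ L b lam u` are the skeleton points over
the projection of `u` to level `i`. -/
structure TS where
  U : Type
  [m : MetricSpace U]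
  d : ℕ → U → U → ℝ
  r : ℕ → U → U
  d_self : ∀ i u, d i u u = 0
  d_comm : ∀ i u v, d i u v = d i v u
  d_triangle : ∀ i u v w, d i u w ≤ d i u v + d i v w
  d_mono : ∀ i u v, d i u v ≤ d (i + 1) u v
  d_zero : ∀ u v, d 0 u v = 0
  d_r : ∀ i u, d i (r i u) u = 0
  r_eq : ∀ i u v, d i u v = 0 → r i u = r i v
  r_r : ∀ i j u, r i (r j u) = r (min i j) u
  d_core : ∀ i u v, d (i + 1) (r i u) (r i v) ≤ d i u v
  sepU : ∀ u v, (∀ i, d i u v = 0) → u = v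
  isOpen_iff : ∀ O : Set U, IsOpen O ↔ ∀ u ∈ O, ∃ n, ∃ ε > 0, ∀ v, d n u v < ε → v ∈ O
  complete : ∀ u : ℕ → U, (∀ j, ∀ ε > 0, ∃ N, ∀ p ≥ N, ∀ q ≥ N, d j (u p) (u q) < ε) →
    ∃ v, ∀ j, ∀ ε > 0, ∃ N, ∀ n ≥ N, d j (u n) v < ε
  Sc : ℕ → Type
  val : ∀ i, Sc i → U → ℝ
  val_nonneg : ∀ i φ u, 0 ≤ val i φ u
  val_le_one : ∀ i φ u, val i φ u ≤ 1
  val_lip : ∀ i φ u v, val i φ u ≤ val i φ v + d i u v / 2
  sc_exists : ∀ i (f : U → ℝ), (∀ u, 0 ≤ f u ∧ f u ≤ 1) → (∀ u v, f u ≤ f v + d i u v / 2) →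
    ∃ φ : Sc i, ∀ u, val i φ u = f u
  act : ∀ i, U → Option (Sc i)
  act_congr : ∀ i u v, d (i + 1) u v = 0 → act i u = act i v
  act_r : ∀ i u, act i (r i u) = none
  r_of_none : ∀ i u, act i u = none → r (i + 1) u = r i u
  act_pos : ∀ i u φ, act i u = some φ → 0 < val i φ u
  sep : ∀ i u v φ, act i u = some φ → act i v ≠ some φ → val i φ u ≤ d (i + 1) u v
  d_act : ∀ i u v φ, act i u = some φ → act i v = none →
    d (i + 1) u v ≤ max (d i u v) (val i φ u)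
  x : ℕ → U → ℝ
  x_congr : ∀ i u v, d (i + 1) u v = 0 → x i u = x i v
  x_lip : ∀ i u v φ, act i u = some φ → act i v = some φ → d (i + 1) u v < val i φ u →
    |x i u - x i v| ≤ d (i + 1) u v
  Lb : ∀ i, Sc i → Type
  Lb_ne : ∀ i φ, Nonempty (Lb i φ)
  Q : ∀ i (φ : Sc i), Lb i φ → Bool → unitInterval → U → U
  Q_congr : ∀ i φ L b lam u v, d i u v = 0 → Q i φ L b lam u = Q i φ L b lam v
  Q_r : ∀ i φ L b lam u, r i (Q i φ L b lam u) = r i u
  Q_fix : ∀ i φ L b lam u, r (i + 1) (Q i φ L b lam u) = Q i φ L b lam u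
  Q_act : ∀ i φ L b lam u, 0 < val i φ u → act i (Q i φ L b lam u) = some φ
  Q_x : ∀ i φ L b lam u, 0 < val i φ u → x i (Q i φ L b lam u) = lam
  Q_core : ∀ i φ L b lam u, val i φ u = 0 → Q i φ L b lam u = r i u
  Q_usc : ∀ i φ L lam u, 0 < val i φ u → ∀ ε > 0, ∃ δ > 0, ∀ (lam' : unitInterval) (u' : U),
    dist lam' lam < δ → d i u' u < δ →
      ∀ b', ∃ b, d (i + 1) (Q i φ L b' lam' u') (Q i φ L b lam u) < ε
  skel : ∀ i (φ : Sc i) (S : Set U), (∀ u ∈ S, 0 < val i φ u) →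
    (∀ u, 0 < val i φ u → (∀ ε > 0, ∃ v ∈ S, d i u v < ε) → u ∈ S) →
    ∀ ρ : U → ℝ, (∀ h ∈ S, act i h = some φ → 0 < ρ h ∧ ρ h ≤ 1) →
      (∀ h ∈ S, ∀ h' ∈ S, act i h = some φ → act i h' = some φ → ρ h ≤ ρ h' + d (i + 1) h h') →
      ∃ L : Lb i φ, ∀ u ∈ S, ∀ lam, ∃ h, d i h u = 0 ∧ r (i + 1) h = h ∧ act i h = some φ ∧
        ∀ b, d (i + 1) (Q i φ L b lam u) h < ρ h

attribute [instance] TS.m

namespace TS

variable (S : TS)

/-- The points which use exactly the scales `φ j` at the coordinates `j < i`. -/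
def W (φ : ∀ j, S.Sc j) (i : ℕ) : Set S.U :=
  {u | ∀ j < i, (S.val j (φ j) u = 0 ∧ S.act j u = none) ∨ S.act j u = some (φ j)}

/-- Finite dimensionality of the sets `W φ i`: covers by `3 ^ i` disjoint families of relatively
open sets of small diameter. -/
def Cov : Prop := ∀ (φ : ∀ j, S.Sc j) (i : ℕ) (δ : ℝ), 0 < δ →
  ∃ F : Fin (3 ^ i) → Set (Set S.U),
    (∀ c, ∀ V ∈ F c, V ⊆ S.W φ i) ∧
    (∀ c, ∀ V ∈ F c, ∀ u ∈ V, ∃ ε > 0, ∀ v ∈ S.W φ i, S.d i u v < ε → v ∈ V) ∧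
    (∀ c, ∀ V ∈ F c, ∀ u ∈ V, ∀ v ∈ V, S.d i u v ≤ δ) ∧
    (∀ c, ∀ V ∈ F c, ∀ V' ∈ F c, (V ∩ V').Nonempty → V = V') ∧
    ∀ u ∈ S.W φ i, ∃ c, ∃ V ∈ F c, u ∈ V

end TS

/-- The outcome of the construction under the assumption that the space is a countable union
of strongly zero-dimensional subspaces. `F i` is the family of nodes of coordinate `i`. -/
structure Plan (S : TS) where
  φ : ∀ i, S.Sc i
  F : ℕ → Set (Set S.U)
  P : ℕ → Bool → Set S.U
  F_sub : ∀ i, ∀ V ∈ F i, V ⊆ S.W φ i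
  F_open : ∀ i, ∀ V ∈ F i, ∀ u ∈ V, ∃ ε > 0, ∀ v ∈ S.W φ i, S.d i u v < ε → v ∈ V
  F_disj : ∀ i, ∀ V ∈ F i, ∀ V' ∈ F i, (V ∩ V').Nonempty → V = V'
  F_pos : ∀ i, ∀ u ∈ S.W φ i, (0 < S.val i (φ i) u ↔ ∃ V ∈ F i, u ∈ V)
  P_open : ∀ i b, IsOpen (P i b)
  P_disj : ∀ i, Disjoint (P i false) (P i true)
  P_act : ∀ i b, ∀ u ∈ P i b, S.act i u = some (φ i)
  P_zero : ∀ i u, S.act i u = some (φ i) → S.x i u = 0 → u ∈ P i false
  P_one : ∀ i u, S.act i u = some (φ i) → S.x i u = 1 → u ∈ P i true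
  resolved : ∀ i, ∀ u ∈ S.W φ i, (∀ j ≥ i, S.val j (φ j) (S.r i u) = 0) →
    ∃ j b, S.r i u ∈ P j b
  wf : WellFounded (fun m n : {n : ℕ × Set S.U // n.2 ∈ F n.1} =>
    n.1.1 < m.1.1 ∧ (m.1.2 ∩ n.1.2).Nonempty)

end Pool.Agent.CDim
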