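import Pool.Agent.Gap.Step

set_option autoImplicit false

open Set TopologicalSpace Topology

namespace Pool.Agent.CDim

open Pool.Agent.Gap

/-- The skeleton lemma: labels such that at every position `lam` and over every `y` the left and
the right skeleton points are `ρ`-close to one point over `y`. -/
theorem skel_pt {Y : Type} [MetricSpace Y] (D : Lab (Lip Y 1) (Code Y))
    (ρ : Pt Y D.K D.code → ℝ) (ρlip : ∀ h h', ρ h ≤ ρ h' + dist h h')
    (ρpos : ∀ h, 0 < ρ h ∧ ρ h ≤ 1) :
    ∃ L : ℕ → ℕ → D.K, ∀ (lam : unitInterval) (y : Y), ∃ h : Pt Y D.K D.code, h.y = y ∧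
      dist (Ql D.code L lam y) h < ρ h ∧ dist (Qr D.code L lam y) h < ρ h := by
  obtain ⟨L, T, hT, hcode, hR⟩ := fusion D (fun θ θ' => (halfLip θ, halfLip θ'))
    (fun t k L θ ξ => ∀ y, θ.1 y ≤ ρ (hub D.code L t k ξ y))
    (by
      intro t k L L' θ ξ hL hθ y
      rw [← hub_congr D.code L L' t k ξ y hL]
      exact hθ y)
    (by
      intro t k L θ ξ hθ y
      have key : ∀ m : ℕ, θ.1 y ≤ ρ (hub D.code L t k ξ y) + (1 / 2) ^ m := by
        intro m
        obtain ⟨ξ', h1, h2⟩ := hθ m
        have h3 := h1 y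
        have h4 := ρlip (hub D.code L t k ξ' y) (hub D.code L t k ξ y)
        have h5 := hub_dist_seq D.code L t k m ξ' ξ y h2
        linarith
      have hlim : Filter.Tendsto (fun m : ℕ => ρ (hub D.code L t k ξ y) + (1 / 2 : ℝ) ^ m)
          Filter.atTop (nhds (ρ (hub D.code L t k ξ y) + 0)) :=
        tendsto_const_nhds.add
          (tendsto_pow_atTop_nhds_zero_of_lt_one (by norm_num) (by norm_num))
      rw [add_zero] at hlim
      exact ge_of_tendsto' hlim key)
    (by
      intro t k L ξ
      refine ⟨⟨fun y => ρ (hub D.code L t k ξ y), ?_, fun y => ρpos _⟩, fun y => le_rfl⟩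
      intro y y'
      have h1 := ρlip (hub D.code L t k ξ y) (hub D.code L t k ξ y')
      have h2 := hub_dist_y D.code L t k ξ y y'
      linarith)
  have hT' : ∀ m t k, T (t + m) (2 ^ m * k) = T t k := by
    intro m
    induction m with
    | zero => intro t k; simp
    | succ m ih =>
      intro t k
      rw [← ih t k, ← hT (t + m) (2 ^ m * k)]
      congr 1
      ring
  refine ⟨L, fun lam y => ?_⟩
  by_cases hdy : ∃ t, ∃ k : ℕ, (lam : ℝ) * 2 ^ t = k
  · classical
    obtain ⟨k, hk⟩ := Nat.find_spec hdy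
    set t := Nat.find hdy with ht
    have hmin : ∀ t' < t, ¬ ∃ k : ℕ, (lam : ℝ) * 2 ^ t' = k := fun t' h' => Nat.find_min hdy h'
    have hnew : t = 0 ∨ Odd k := by
      rcases Nat.eq_zero_or_pos t with h | h
      · exact Or.inl h
      · right
        by_contra hodd
        rw [Nat.not_odd_iff_even] at hodd
        obtain ⟨k', hk'⟩ := hodd
        apply hmin (t - 1) (by omega)
        refine ⟨k', ?_⟩
        have e : (2 : ℝ) ^ t = 2 * 2 ^ (t - 1) := by
          conv_lhs => rw [show t = (t - 1) + 1 by omega, pow_succ]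
          ring
        rw [e, hk'] at hk
        push_cast at hk
        linarith
    have hle : (lam : ℝ) = k / 2 ^ t := by
      rw [← hk]; field_simp
    have hρ := hR t k hnew y
    have hTpos := (T t k).pos y
    have hc1 : ∀ m, (D.code (L (t + m) (2 ^ m * k)) (L (t + m) (2 ^ m * k + 1))).1.1 y ≤
        (T t k).1 y / 2 := by
      intro m
      rw [hcode]
      show (halfLip (T (t + m) (2 ^ m * k))).1 y ≤ _
      rw [hT']
      exact halfLip_le _ _
    have hc2 : ∀ m, 1 ≤ k →
        (D.code (L (t + m) (2 ^ m * k - 1)) (L (t + m) (2 ^ m * k))).2.1 y ≤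
        (T t k).1 y / 2 := by
      intro m hk1
      have e : 2 ^ m * k = (2 ^ m * k - 1) + 1 := by
        have : 1 ≤ 2 ^ m * k := Nat.one_le_iff_ne_zero.2 (by positivity)
        omega
      have e2 : (D.code (L (t + m) (2 ^ m * k - 1)) (L (t + m) (2 ^ m * k))) =
          (halfLip (T (t + m) (2 ^ m * k - 1)), halfLip (T (t + m) (2 ^ m * k))) := by
        conv_lhs => rw [e]
        rw [Nat.add_sub_cancel, hcode]
        rw [← e]
      rw [e2]
      show (halfLip (T (t + m) (2 ^ m * k))).1 y ≤ _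
      rw [hT']
      exact halfLip_le _ _
    obtain ⟨n1, n2⟩ := Q_near_hub D.code L t k hnew lam hle y ((T t k).1 y / 2)
      (by linarith) hc1 hc2
    exact ⟨hub D.code L t k (fun m => L (t + m) (2 ^ m * k)) y, rfl, by linarith, by linarith⟩
  · have hdy' : ∀ t k : ℕ, (lam : ℝ) * 2 ^ t ≠ k := by
      intro t k e; exact hdy ⟨t, k, e⟩
    have e := Ql_eq_Qr D.code L lam y hdy'
    refine ⟨Ql D.code L lam y, rfl, ?_, ?_⟩
    · rw [dist_self]; exact (ρpos _).1
    · rw [← e, dist_self]; exact (ρpos _).1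

end Pool.Agent.CDim
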