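import Pool.Agent.CDim.PosLem
import Pool.Agent.CDim.SkelPt
import Pool.Agent.Gap.UpperC

set_option autoImplicit false

open Set TopologicalSpace Topology

namespace Pool.Agent.CDim

open Pool.Agent.Gap

/-- The spaces `X(Pos φ)`. -/
noncomputable def famPt (Y : Type) [MetricSpace Y] : Fam Y where
  X φ := Pt (Pos φ) (lab φ).K (lab φ).code
  pr φ p := p.y.y
  pos φ p := p.y.pos
  dist_pr φ p q := (Pos.dist_y_le _ _).trans (Pt.dist_y_le _ _)

variable {Y : Type} [MetricSpace Y]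

open Classical in
/-- The skeleton points of `Col (famPt Y)`. -/
noncomputable def colQ (φ : Scale Y) (L : ℕ → ℕ → (lab φ).K) (b : Bool) (lam : unitInterval)
    (y : Y) : Col (famPt Y) :=
  if h : 0 < φ.f y then
    .act φ (show Pt (Pos φ) (lab φ).K (lab φ).code from
      cond b (Qr (lab φ).code L lam ⟨y, h⟩) (Ql (lab φ).code L lam ⟨y, h⟩))
  else .core y

theorem FamPt_continuous (φ : Scale Y) :
    Continuous (fun p : Pt (Pos φ) (lab φ).K (lab φ).code => p.y.y) :=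
  Pos.isEmbedding_y.continuous.comp Pt.continuous_y

theorem famPt_cover (φ : Scale Y) (S : Set Y) (hS : SZ S) :
    Fd 2 {p : (famPt Y).X φ | (famPt Y).pr φ p ∈ S} := by
  have hS' : SZ {q : Pos φ | q.y ∈ S} := Pos.sz hS
  let A : Set (Pt (Pos φ) (lab φ).K (lab φ).code) :=
    {p | p.y ∈ {q : Pos φ | q.y ∈ S} ∧ ∀ t k : ℕ, p.x * 2 ^ t ≠ k}
  let B : Set (Pt (Pos φ) (lab φ).K (lab φ).code) :=
    {p | p.y ∈ {q : Pos φ | q.y ∈ S} ∧ ∃ t k : ℕ, p.x * 2 ^ t = k}
  have hA : SZ A := (pz_nondyadic (lab φ).code _ hS'.pz).sz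
  have hB : SZ B := UpperC_dyadic (lab φ).code _ hS'.pz
  refine ⟨fun j => if j = 0 then A else B, ?_, ?_⟩
  · intro j
    have e : (if j = 0 then A else B) = A ∨ (if j = 0 then A else B) = B := by
      by_cases h : j = 0
      · exact Or.inl (if_pos h)
      · exact Or.inr (if_neg h)
    show SZ (if j = 0 then A else B : Set (Pt (Pos φ) (lab φ).K (lab φ).code))
    rcases e with e | e
    · rw [e]
      exact hA
    · rw [e]
      exact hB
  · intro p hp
    rw [mem_iUnion]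
    have key : ∀ p : Pt (Pos φ) (lab φ).K (lab φ).code, p.y.y ∈ S → p ∈ A ∨ p ∈ B := by
      intro p hp
      by_cases h : ∃ t k : ℕ, p.x * 2 ^ t = k
      · exact Or.inr ⟨hp, h⟩
      · exact Or.inl ⟨hp, fun t k htk => h ⟨t, k, htk⟩⟩
    rcases key p hp with h | h
    · exact ⟨0, h⟩
    · exact ⟨1, h⟩

theorem FamPt_colQ_of_pos (φ : Scale Y) (L : ℕ → ℕ → (lab φ).K) (b : Bool) (lam : unitInterval)
    (y : Y) (hy : 0 < φ.f y) : colQ φ L b lam y =
      .act φ (show Pt (Pos φ) (lab φ).K (lab φ).code from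
        cond b (Qr (lab φ).code L lam ⟨y, hy⟩) (Ql (lab φ).code L lam ⟨y, hy⟩)) := by
  unfold colQ
  rw [dif_pos hy]

theorem FamPt_dist (φ : Scale Y) (p q : Pt (Pos φ) (lab φ).K (lab φ).code) :
    dist (Col.act φ p : Col (famPt Y)) (Col.act φ q) ≤ dist p q :=
  Col.dist_act_le (F := famPt Y) φ p q

theorem colQ_usc (φ : Scale Y) (L : ℕ → ℕ → (lab φ).K) (lam : unitInterval) (y : Y)
    (hy : 0 < φ.f y) (ε : ℝ) (hε : 0 < ε) : ∃ δ > 0, ∀ (lam' : unitInterval) (y' : Y),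
    dist lam' lam < δ → dist y' y < δ →
      ∀ b', ∃ b, dist (colQ φ L b' lam' y') (colQ φ L b lam y) < ε := by
  obtain ⟨δ1, hδ1, h1⟩ := Gap.Q_usc (lab φ).code L lam (⟨y, hy⟩ : Pos φ) ε hε
  obtain ⟨δ2, hδ2, h2⟩ := Pos.near (⟨y, hy⟩ : Pos φ) δ1 hδ1
  refine ⟨min δ1 (min δ2 (φ.f y)), lt_min hδ1 (lt_min hδ2 hy), ?_⟩
  intro lam' y' hl hd b'
  have hd1 : dist y' y < δ2 := hd.trans_le ((min_le_right _ _).trans (min_le_left _ _))
  have hd2 : dist y' y < φ.f y := hd.trans_le ((min_le_right _ _).trans (min_le_right _ _))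
  have hy' : 0 < φ.f y' := by
    have := φ.lip y y'
    rw [dist_comm y y'] at this
    linarith
  have hl1 : |(lam' : ℝ) - lam| < δ1 := by
    have : dist lam' lam < δ1 := hl.trans_le (min_le_left _ _)
    rwa [Subtype.dist_eq, Real.dist_eq] at this
  obtain ⟨k1, k2⟩ := h1 lam' ⟨y', hy'⟩ hl1 (h2 ⟨y', hy'⟩ hd1)
  rcases b' with _ | _
  · rcases k1 with k1 | k1
    · refine ⟨false, ?_⟩
      rw [FamPt_colQ_of_pos φ L _ lam' y' hy', FamPt_colQ_of_pos φ L _ lam y hy]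
      exact (FamPt_dist φ _ _).trans_lt k1
    · refine ⟨true, ?_⟩
      rw [FamPt_colQ_of_pos φ L _ lam' y' hy', FamPt_colQ_of_pos φ L _ lam y hy]
      exact (FamPt_dist φ _ _).trans_lt k1
  · rcases k2 with k2 | k2
    · refine ⟨false, ?_⟩
      rw [FamPt_colQ_of_pos φ L _ lam' y' hy', FamPt_colQ_of_pos φ L _ lam y hy]
      exact (FamPt_dist φ _ _).trans_lt k2
    · refine ⟨true, ?_⟩
      rw [FamPt_colQ_of_pos φ L _ lam' y' hy', FamPt_colQ_of_pos φ L _ lam y hy]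
      exact (FamPt_dist φ _ _).trans_lt k2

/-- Extension of a positive `1`-Lipschitz function from a closed set. -/
theorem FamPt_extend {X : Type} [MetricSpace X] {T : Set X} (hT : IsClosed T) (g : X → ℝ)
    (gpos : ∀ q ∈ T, 0 < g q) (glip : ∀ q ∈ T, ∀ q' ∈ T, g q ≤ g q' + dist q q') :
    ∃ ρ' : X → ℝ, (∀ h h', ρ' h ≤ ρ' h' + dist h h') ∧ (∀ h, 0 < ρ' h ∧ ρ' h ≤ 1) ∧
      ∀ q ∈ T, ρ' q ≤ g q := by
  let A : X → Set ℝ := fun h => insert 1 {r | ∃ q ∈ T, r = g q + dist h q}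
  have hne : ∀ h, (A h).Nonempty := fun h => ⟨1, mem_insert _ _⟩
  have hlb : ∀ h, ∀ r ∈ A h, 0 ≤ r := by
    rintro h r (rfl | ⟨q, hq, rfl⟩)
    · exact zero_le_one
    · exact add_nonneg (gpos q hq).le dist_nonneg
  have hbdd : ∀ h, BddBelow (A h) := fun h => ⟨0, fun r hr => hlb h r hr⟩
  refine ⟨fun h => sInf (A h), ?_, ?_, ?_⟩
  · intro h h'
    have key : ∀ r ∈ A h', sInf (A h) - dist h h' ≤ r := by
      rintro r (rfl | ⟨q, hq, rfl⟩)
      · have := csInf_le (hbdd h) (mem_insert (1 : ℝ) _)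
        have h2 : 0 ≤ dist h h' := dist_nonneg
        linarith
      · have := csInf_le (hbdd h) (mem_insert_of_mem (1 : ℝ) ⟨q, hq, rfl⟩ :
          g q + dist h q ∈ A h)
        have h2 := dist_triangle h h' q
        linarith
    have := le_csInf (hne h') key
    show sInf (A h) ≤ sInf (A h') + dist h h'
    linarith
  · intro h
    refine ⟨?_, csInf_le (hbdd h) (mem_insert _ _)⟩
    by_cases hh : h ∈ T
    · refine lt_of_lt_of_le (lt_min one_pos (gpos h hh)) (le_csInf (hne h) ?_)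
      rintro r (rfl | ⟨q, hq, rfl⟩)
      · exact min_le_left _ _
      · exact (min_le_right _ _).trans (glip h hh q hq)
    · obtain ⟨r, hr, hball⟩ := Metric.isOpen_iff.1 hT.isOpen_compl h hh
      refine lt_of_lt_of_le (lt_min one_pos hr) (le_csInf (hne h) ?_)
      rintro s (rfl | ⟨q, hq, rfl⟩)
      · exact min_le_left _ _
      · refine (min_le_right _ _).trans ?_
        have h1 : r ≤ dist h q := by
          by_contra hlt
          push Not at hlt
          exact hball (by rw [Metric.mem_ball, dist_comm]; exact hlt) hq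
        have := gpos q hq
        linarith
  · intro q hq
    have := csInf_le (hbdd q) (mem_insert_of_mem (1 : ℝ) ⟨q, hq, rfl⟩ : g q + dist q q ∈ A q)
    rwa [dist_self, add_zero] at this

theorem colQ_skel (φ : Scale Y) (S : Set Y) (hS : ∀ y ∈ S, 0 < φ.f y)
    (hcl : ∀ y, 0 < φ.f y → y ∈ closure S → y ∈ S) (ρ : Col (famPt Y) → ℝ)
    (ρpos : ∀ h, Col.code h = some φ → Col.pr h ∈ S → 0 < ρ h ∧ ρ h ≤ 1)
    (ρlip : ∀ h h', Col.code h = some φ → Col.code h' = some φ → Col.pr h ∈ S →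
      Col.pr h' ∈ S → ρ h ≤ ρ h' + dist h h') :
    ∃ L : ℕ → ℕ → (lab φ).K, ∀ y ∈ S, ∀ lam, ∃ h, Col.pr h = y ∧ Col.code h = some φ ∧
      ∀ b, dist (colQ φ L b lam y) h < ρ h := by
  let T : Set (Pt (Pos φ) (lab φ).K (lab φ).code) := {p | p.y.y ∈ S}
  have hT : IsClosed T := by
    refine isClosed_of_closure_subset fun p hp => ?_
    exact hcl p.y.y p.y.pos (map_mem_closure (f := fun p : Pt (Pos φ) (lab φ).K (lab φ).code =>
      p.y.y) (FamPt_continuous φ) hp fun q hq => hq)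
  let g : Pt (Pos φ) (lab φ).K (lab φ).code → ℝ := fun q => ρ (Col.act (F := famPt Y) φ q)
  obtain ⟨ρ', h1, h2, h3⟩ := FamPt_extend hT g
    (fun q hq => (ρpos (Col.act (F := famPt Y) φ q) rfl hq).1)
    (fun q hq q' hq' => (ρlip (Col.act (F := famPt Y) φ q) (Col.act (F := famPt Y) φ q') rfl rfl
      hq hq').trans (by
        have := FamPt_dist φ q q'
        show ρ (Col.act (F := famPt Y) φ q') + _ ≤ ρ (Col.act (F := famPt Y) φ q') + _
        linarith))
  obtain ⟨L, hL⟩ := skel_pt (lab φ) ρ' h1 h2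
  refine ⟨L, fun y hy lam => ?_⟩
  obtain ⟨h, e1, e2, e3⟩ := hL lam ⟨y, hS y hy⟩
  have hhT : h ∈ T := by
    show h.y.y ∈ S
    rw [e1]
    exact hy
  refine ⟨Col.act (F := famPt Y) φ h, ?_, rfl, ?_⟩
  · show h.y.y = y
    rw [e1]
  · intro b
    rw [FamPt_colQ_of_pos φ L _ lam y (hS y hy)]
    rcases b with _ | _
    · exact ((FamPt_dist φ _ _).trans_lt e2).trans_le (h3 h hhT)
    · exact ((FamPt_dist φ _ _).trans_lt e3).trans_le (h3 h hhT)

end Pool.Agent.CDim
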