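import Pool.Agent.CDim.Her

set_option autoImplicit false

open Set TopologicalSpace Topology

namespace Pool.Agent.CDim

open Pool.Agent.Gap

/-- The disjoint family of open sets of small diameter given by a strongly zero-dimensional
subspace. -/
theorem fd_cover_one {X : Type} [MetricSpace X] (A W : Set X) (hA : SZ A) (δ : ℝ)
    (hδ : 0 < δ) : ∃ F : Set (Set X),
      (∀ V ∈ F, V ⊆ W) ∧
      (∀ V ∈ F, ∀ u ∈ V, ∃ ε > 0, ∀ v ∈ W, dist u v < ε → v ∈ V) ∧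
      (∀ V ∈ F, ∀ u ∈ V, ∀ v ∈ V, dist u v ≤ δ) ∧
      (∀ V ∈ F, ∀ V' ∈ F, (V ∩ V').Nonempty → V = V') ∧
      ∀ u ∈ W, u ∈ A → ∃ V ∈ F, u ∈ V := by
  obtain ⟨T, f, hf1, hf2⟩ := SZ.pz hA (δ / 3) (by linarith)
  have hr : ∀ x : A, ∃ r > 0, r ≤ δ / 3 ∧ ∀ y : A, dist y x < r → f y = f x := by
    intro x
    obtain ⟨r, hr, hb⟩ := Metric.isOpen_iff.1 (hf1 (f x)) x rfl
    exact ⟨min r (δ / 3), lt_min hr (by linarith), min_le_right _ _,
      fun y hy => hb (Metric.mem_ball.2 (hy.trans_le (min_le_left _ _)))⟩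
  choose r hr0 hr1 hr2 using hr
  let O : T → Set X := fun t => {u | u ∈ W ∧ ∃ x : A, f x = t ∧ dist u x < r x / 2}
  have hdisj : ∀ (t t' : T) (u : X), u ∈ O t → u ∈ O t' → t = t' := by
    rintro t t' u ⟨-, x, rfl, hx⟩ ⟨-, x', rfl, hx'⟩
    have h1 : dist (x : X) x' ≤ dist u x + dist u x' := by
      rw [dist_comm u (x : X)]
      exact dist_triangle _ _ _
    rcases le_total (r x) (r x') with h | h
    · refine hr2 x' x ?_
      show dist (x : X) x' < r x'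
      linarith
    · refine (hr2 x x' ?_).symm
      show dist (x' : X) x < r x
      rw [dist_comm]
      linarith
  refine ⟨Set.range O, ?_, ?_, ?_, ?_, ?_⟩
  · rintro V ⟨t, rfl⟩ u hu
    exact hu.1
  · rintro V ⟨t, rfl⟩ u ⟨-, x, hx, hd⟩
    refine ⟨r x / 2 - dist u x, by linarith, fun v hv hvd => ⟨hv, x, hx, ?_⟩⟩
    have h1 := dist_triangle v u (x : X)
    rw [dist_comm v u] at h1
    linarith
  · rintro V ⟨t, rfl⟩ u ⟨-, x, hx, hd⟩ v ⟨-, x', hx', hd'⟩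
    have h1 : dist (x : X) x' ≤ δ / 3 := hf2 x x' (hx.trans hx'.symm)
    have h2 := dist_triangle4 u (x : X) x' v
    have h3 := hr1 x
    have h4 := hr1 x'
    rw [dist_comm (x' : X) v] at h2
    linarith
  · rintro V ⟨t, rfl⟩ V' ⟨t', rfl⟩ ⟨u, hu, hu'⟩
    rw [hdisj t t' u hu hu']
  · intro u hu huA
    refine ⟨O (f ⟨u, huA⟩), ⟨_, rfl⟩, hu, ⟨u, huA⟩, rfl, ?_⟩
    rw [dist_self]
    have := hr0 ⟨u, huA⟩
    linarith

/-- A union of `m` strongly zero-dimensional sets is covered by `m` disjoint families of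
relatively open sets of small diameter. -/
theorem fd_cover {X : Type} [MetricSpace X] {m : ℕ} {W : Set X} (hW : Fd m W) (δ : ℝ)
    (hδ : 0 < δ) : ∃ F : Fin m → Set (Set X),
      (∀ c, ∀ V ∈ F c, V ⊆ W) ∧
      (∀ c, ∀ V ∈ F c, ∀ u ∈ V, ∃ ε > 0, ∀ v ∈ W, dist u v < ε → v ∈ V) ∧
      (∀ c, ∀ V ∈ F c, ∀ u ∈ V, ∀ v ∈ V, dist u v ≤ δ) ∧
      (∀ c, ∀ V ∈ F c, ∀ V' ∈ F c, (V ∩ V').Nonempty → V = V') ∧
      ∀ u ∈ W, ∃ c, ∃ V ∈ F c, u ∈ V := by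
  obtain ⟨A, hA, hc⟩ := hW
  choose F h1 h2 h3 h4 h5 using fun j => fd_cover_one (A j) W (hA j) δ hδ
  refine ⟨F, h1, h2, h3, h4, fun u hu => ?_⟩
  obtain ⟨j, hj⟩ := mem_iUnion.1 (hc hu)
  exact ⟨j, h5 j u hu hj⟩

end Pool.Agent.CDim
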