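import Pool.Agent.CDim.Defs

set_option autoImplicit false

open Set TopologicalSpace Topology

namespace Pool.Agent.CDim

open Pool.Agent.Gap

namespace TS

variable (S : TS)

theorem d_nonneg (i : ℕ) (u v : S.U) : 0 ≤ S.d i u v := by
  have h1 := S.d_triangle i u v u
  rw [S.d_self, S.d_comm i v u] at h1
  linarith

theorem d_le {i j : ℕ} (h : i ≤ j) (u v : S.U) : S.d i u v ≤ S.d j u v := by
  obtain ⟨k, rfl⟩ := Nat.exists_eq_add_of_le h
  clear h
  induction k with
  | zero => exact le_rfl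
  | succ k ih => exact ih.trans (S.d_mono _ _ _)

theorem d_zero_of_le {i j : ℕ} (h : i ≤ j) {u v : S.U} (h0 : S.d j u v = 0) : S.d i u v = 0 :=
  le_antisymm (h0 ▸ S.d_le h u v) (S.d_nonneg _ _ _)

theorem d_congr_left {i : ℕ} {u v : S.U} (h : S.d i u v = 0) (w : S.U) :
    S.d i u w = S.d i v w := by
  have h1 := S.d_triangle i u v w
  have h2 := S.d_triangle i v u w
  rw [S.d_comm i v u] at h2
  linarith

theorem d_congr_right {i : ℕ} {u v : S.U} (h : S.d i u v = 0) (w : S.U) :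
    S.d i w u = S.d i w v := by
  rw [S.d_comm i w u, S.d_comm i w v, S.d_congr_left h]

theorem d_r_left (i : ℕ) (u v : S.U) : S.d i (S.r i u) v = S.d i u v :=
  S.d_congr_left (S.d_r i u) v

theorem d_r_right (i : ℕ) (u v : S.U) : S.d i v (S.r i u) = S.d i v u :=
  S.d_congr_right (S.d_r i u) v

/-- `r j u` agrees with `u` up to level `j`. -/
theorem d_r_le {i j : ℕ} (h : i ≤ j) (u : S.U) : S.d i (S.r j u) u = 0 :=
  S.d_zero_of_le h (S.d_r j u)

theorem r_of_le {i j : ℕ} (h : i ≤ j) (u : S.U) : S.r i (S.r j u) = S.r i u := by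
  rw [S.r_r, min_eq_left h]

theorem r_of_ge {i j : ℕ} (h : j ≤ i) (u : S.U) : S.r i (S.r j u) = S.r j u := by
  rw [S.r_r, min_eq_right h]

theorem r_self (i : ℕ) (u : S.U) : S.r i (S.r i u) = S.r i u := S.r_of_le le_rfl u

/-- Collapsed points: the distance at level `j` is the distance at level `i`. -/
theorem d_core_le {i j : ℕ} (h : i ≤ j) (u v : S.U) :
    S.d j (S.r i u) (S.r i v) ≤ S.d i u v := by
  obtain ⟨k, rfl⟩ := Nat.exists_eq_add_of_le h
  clear h
  induction k with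
  | zero =>
    have := S.d_r_left i u (S.r i v)
    rw [add_zero, this, S.d_r_right]
  | succ k ih =>
    refine le_trans ?_ ih
    have h1 := S.d_core (i + k) (S.r i u) (S.r i v)
    rw [S.r_of_ge (by omega), S.r_of_ge (by omega)] at h1
    exact h1

theorem d_core_eq {i j : ℕ} (h : i ≤ j) (u v : S.U) :
    S.d j (S.r i u) (S.r i v) = S.d i u v := by
  refine le_antisymm (S.d_core_le h u v) ?_
  have := S.d_le h (S.r i u) (S.r i v)
  rwa [S.d_r_left, S.d_r_right] at this

theorem val_congr {i : ℕ} {u v : S.U} (φ : S.Sc i) (h : S.d i u v = 0) :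
    S.val i φ u = S.val i φ v := by
  have h1 := S.val_lip i φ u v
  have h2 := S.val_lip i φ v u
  rw [S.d_comm i v u] at h2
  linarith

theorem val_r {i j : ℕ} (h : i ≤ j) (φ : S.Sc i) (u : S.U) :
    S.val i φ (S.r j u) = S.val i φ u := S.val_congr φ (S.d_r_le h u)

theorem act_r_lt {i j : ℕ} (h : i < j) (u : S.U) : S.act i (S.r j u) = S.act i u :=
  S.act_congr i _ _ (S.d_r_le h u)

theorem act_r_ge {i j : ℕ} (h : j ≤ i) (u : S.U) : S.act i (S.r j u) = none := by
  rw [← S.r_of_ge h]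
  exact S.act_r i _

theorem x_r {i j : ℕ} (h : i < j) (u : S.U) : S.x i (S.r j u) = S.x i u :=
  S.x_congr i _ _ (S.d_r_le h u)

theorem isOpen_ball (i : ℕ) (u : S.U) (ε : ℝ) : IsOpen {v | S.d i u v < ε} := by
  rw [S.isOpen_iff]
  intro v hv
  refine ⟨i, ε - S.d i u v, sub_pos.2 hv, fun w hw => ?_⟩
  have := S.d_triangle i u v w
  show S.d i u w < ε
  linarith

/-- Nearby points use the same scale. -/
theorem act_near {i : ℕ} {u v : S.U} {φ : S.Sc i} (h : S.act i u = some φ)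
    (hd : S.d (i + 1) u v < S.val i φ u) : S.act i v = some φ := by
  by_contra hne
  exact absurd (S.sep i u v φ h hne) (not_le.2 hd)

theorem isOpen_act (i : ℕ) (φ : S.Sc i) : IsOpen {u | S.act i u = some φ} := by
  rw [S.isOpen_iff]
  intro u hu
  exact ⟨i + 1, S.val i φ u, S.act_pos i u φ hu, fun v hv => S.act_near hu hv⟩

theorem W_zero (φ : ∀ j, S.Sc j) : S.W φ 0 = univ := by
  ext u
  simp [W]

theorem mem_W_succ {φ : ∀ j, S.Sc j} {i : ℕ} {u : S.U} :
    u ∈ S.W φ (i + 1) ↔ u ∈ S.W φ i ∧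
      ((S.val i (φ i) u = 0 ∧ S.act i u = none) ∨ S.act i u = some (φ i)) := by
  constructor
  · intro h
    exact ⟨fun j hj => h j (by omega), h i (by omega)⟩
  · rintro ⟨h1, h2⟩ j hj
    rcases Nat.lt_succ_iff_lt_or_eq.1 hj with h | h
    · exact h1 j h
    · subst h; exact h2

theorem W_anti {φ : ∀ j, S.Sc j} {i j : ℕ} (h : i ≤ j) : S.W φ j ⊆ S.W φ i :=
  fun _ hu k hk => hu k (by omega)

theorem W_congr {φ : ∀ j, S.Sc j} {i : ℕ} {u v : S.U} (h : S.d i u v = 0)
    (hu : u ∈ S.W φ i) : v ∈ S.W φ i := by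
  intro j hj
  rw [← S.act_congr j u v (S.d_zero_of_le (by omega) h),
    ← S.val_congr (φ j) (S.d_zero_of_le (by omega) h)]
  exact hu j hj

theorem r_mem_W {φ : ∀ j, S.Sc j} {i : ℕ} {u : S.U} (hu : u ∈ S.W φ i) :
    S.r i u ∈ S.W φ i := by
  refine S.W_congr ?_ hu
  rw [S.d_comm]
  exact S.d_r i u

/-- The sets `W φ i` do not depend on the scales of the coordinates `≥ i`. -/
theorem W_eq {φ φ' : ∀ j, S.Sc j} {i : ℕ} (h : ∀ j < i, φ j = φ' j) : S.W φ i = S.W φ' i := by
  ext u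
  constructor
  · intro hu j hj
    rw [← h j hj]; exact hu j hj
  · intro hu j hj
    rw [h j hj]; exact hu j hj

/-- Collapsed points stay in the sets `W φ k` as long as the scales vanish. -/
theorem r_mem_W_of_zero {φ : ∀ j, S.Sc j} {i : ℕ} {u : S.U} (hu : u ∈ S.W φ i) (k : ℕ)
    (h : ∀ j, i ≤ j → j < k → S.val j (φ j) (S.r i u) = 0) : S.r i u ∈ S.W φ k := by
  intro j hj
  by_cases hji : j < i
  · exact S.r_mem_W hu j hji
  · exact Or.inl ⟨h j (by omega) hj, S.act_r_ge (by omega) u⟩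

/-- The sets `W φ i` are closed. -/
theorem W_closed {φ : ∀ j, S.Sc j} {i : ℕ} {u : S.U}
    (h : ∀ ε > 0, ∃ v ∈ S.W φ i, S.d i u v < ε) : u ∈ S.W φ i := by
  intro j hj
  rcases hact : S.act j u with _ | ψ
  · left
    refine ⟨?_, rfl⟩
    by_contra hne
    have hpos : 0 < S.val j (φ j) u := lt_of_le_of_ne (S.val_nonneg _ _ _) (Ne.symm hne)
    obtain ⟨v, hv, hd⟩ := h (S.val j (φ j) u / 2) (by linarith)
    have hdj : S.d (j + 1) u v < S.val j (φ j) u / 2 := (S.d_le (by omega) u v).trans_lt hd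
    have hdj' : S.d j u v < S.val j (φ j) u / 2 := (S.d_mono j u v).trans_lt hdj
    have hl := S.val_lip j (φ j) u v
    rcases hv j hj with ⟨h1, -⟩ | h1
    · linarith
    · have h2 := S.sep j v u (φ j) h1 (by rw [hact]; exact fun h => by cases h)
      rw [S.d_comm] at h2
      linarith
  · right
    have hpos := S.act_pos j u ψ hact
    obtain ⟨v, hv, hd⟩ := h (S.val j ψ u) hpos
    have hdj : S.d (j + 1) u v < S.val j ψ u := (S.d_le (by omega) u v).trans_lt hd
    have h1 := S.act_near hact hdj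
    rcases hv j hj with ⟨-, h2⟩ | h2
    · rw [h1] at h2; cases h2
    · rw [h1] at h2; exact h2

end TS

end Pool.Agent.CDim
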