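import Pool.Agent.CDim.LimTS
import Pool.Agent.CDim.FdCover
import Pool.Agent.CDim.TSBasic

set_option autoImplicit false

open Set TopologicalSpace Topology

namespace Pool.Agent.CDim

open Pool.Agent.Gap

namespace LimCov

theorem fd_mono {X : Type} [TopologicalSpace X] {m : ℕ} {W W' : Set X} (h : W' ⊆ W)
    (hW : Fd m W) : Fd m W' := by
  obtain ⟨A, hA, hc⟩ := hW
  exact ⟨A, hA, h.trans hc⟩

/-- The projections of the sets `W φ i` are finite-dimensional. -/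
theorem fd (T : Tw) (φ : ∀ j, (toTS T).Sc j) (i : ℕ) :
    Fd (3 ^ i) {y : T.Y i | ∃ u : T.U, u ∈ (toTS T).W φ i ∧ u.1 i = y} := by
  induction i with
  | zero =>
    refine ⟨fun _ => univ, fun _ => ?_, fun y _ => mem_iUnion.2 ⟨⟨0, by norm_num⟩, mem_univ y⟩⟩
    intro A B hA hB hAB
    have hs : ∀ x y : (univ : Set (T.Y 0)), x = y := fun x y =>
      Subtype.ext ((T.uniq x.1).trans (T.uniq y.1).symm)
    have hop : ∀ C : Set (univ : Set (T.Y 0)), IsOpen C := by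
      intro C
      rcases C.eq_empty_or_nonempty with rfl | ⟨c, hc⟩
      · exact isOpen_empty
      · have : C = univ := eq_univ_of_forall fun x => hs c x ▸ hc
        rw [this]
        exact isOpen_univ
    exact ⟨A, ⟨hA, hop A⟩, Subset.rfl, hAB⟩
  | succ i ih =>
    have h1 := (T.st i).cover (φ i) (3 ^ i) _ ih
    rw [pow_succ, mul_comm]
    refine fd_mono ?_ h1
    rintro y ⟨u, hu, rfl⟩
    have h2 := ((toTS T).mem_W_succ).1 hu
    refine ⟨⟨u, h2.1, (u.2 i).symm⟩, ?_⟩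
    rcases h2.2 with ⟨h3, h4⟩ | h3
    · left
      refine ⟨?_, h4⟩
      rw [u.2 i]
      exact h3
    · exact Or.inr h3

end LimCov

theorem toTS_cov (T : Tw) : (toTS T).Cov := by
  intro φ i δ hδ
  obtain ⟨F, h1, h2, h3, h4, h5⟩ := fd_cover (LimCov.fd T φ i) δ hδ
  refine ⟨fun c => {V | ∃ V' ∈ F c, V = {u : T.U | u.1 i ∈ V'}}, ?_, ?_, ?_, ?_, ?_⟩
  · rintro c V ⟨V', hV', rfl⟩ u hu
    obtain ⟨w, hw, hwu⟩ := h1 c V' hV' hu
    refine (toTS T).W_congr ?_ hw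
    show T.d i w u = 0
    unfold Tw.d
    rw [hwu, dist_self]
  · rintro c V ⟨V', hV', rfl⟩ u hu
    obtain ⟨ε, hε, hb⟩ := h2 c V' hV' _ hu
    exact ⟨ε, hε, fun v hv hd => hb _ ⟨v, hv, rfl⟩ hd⟩
  · rintro c V ⟨V', hV', rfl⟩ u hu v hv
    exact h3 c V' hV' _ hu _ hv
  · rintro c V ⟨V', hV', rfl⟩ W ⟨W', hW', rfl⟩ ⟨u, hu, hu'⟩
    rw [h4 c V' hV' W' hW' ⟨_, hu, hu'⟩]
  · intro u hu
    obtain ⟨c, V', hV', hm⟩ := h5 (u.1 i) ⟨u, hu, rfl⟩
    exact ⟨c, _, ⟨V', hV', rfl⟩, hm⟩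

end Pool.Agent.CDim
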