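import Pool.Agent.CDim.Defs

set_option autoImplicit false

open Set TopologicalSpace Topology

namespace Pool.Agent.CDim

open Pool.Agent.Gap

/-- The inverse limit of the tower. -/
def Tw.U (T : Tw) : Type := {u : ∀ i, T.Y i // ∀ i, (T.st i).pr (u (i + 1)) = u i}

namespace Tw

variable (T : Tw)

noncomputable instance : MetricSpace T.U :=
  letI : MetricSpace (∀ i, T.Y i) := PiCountable.metricSpace
  MetricSpace.induced (fun u : T.U => u.1) Subtype.val_injective inferInstance

/-- The topology of `U` is the topology of a subspace of the product. -/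
theorem isInducing_val : IsInducing (fun u : T.U => u.1) := ⟨rfl⟩

/-- The coordinates of `r i u`. -/
noncomputable def rs (i : ℕ) (u : T.U) : ∀ j, T.Y j
  | 0 => u.1 0
  | j + 1 => if j + 1 ≤ i then u.1 (j + 1) else (T.st j).core (rs i u j)

theorem rs_le (i : ℕ) (u : T.U) (j : ℕ) (h : j ≤ i) : T.rs i u j = u.1 j := by
  cases j with
  | zero => rfl
  | succ j => simp [rs, h]

theorem rs_succ (i : ℕ) (u : T.U) (j : ℕ) (h : i ≤ j) :
    T.rs i u (j + 1) = (T.st j).core (T.rs i u j) := by
  have : ¬ j + 1 ≤ i := by omega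
  simp [rs, this]

/-- Forgetting (collapsing) the coordinates `≥ i`. -/
noncomputable def r (i : ℕ) (u : T.U) : T.U :=
  ⟨T.rs i u, fun j => by
    by_cases h : j + 1 ≤ i
    · rw [rs_le _ _ _ _ h, rs_le _ _ _ _ (by omega), u.2]
    · rw [rs_succ _ _ _ _ (by omega), (T.st j).pr_core]⟩

theorem r_le (i : ℕ) (u : T.U) (j : ℕ) (h : j ≤ i) : (T.r i u).1 j = u.1 j := T.rs_le i u j h

theorem r_succ (i : ℕ) (u : T.U) (j : ℕ) (h : i ≤ j) :
    (T.r i u).1 (j + 1) = (T.st j).core ((T.r i u).1 j) := T.rs_succ i u j h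

/-- Points with the same projection to level `i` agree below `i`. -/
theorem eq_of_eq {u v : T.U} {i : ℕ} (h : u.1 i = v.1 i) (j : ℕ) (hj : j ≤ i) :
    u.1 j = v.1 j := by
  obtain ⟨k, rfl⟩ := Nat.exists_eq_add_of_le hj
  clear hj
  induction k with
  | zero => exact h
  | succ k ih =>
    apply ih
    rw [← u.2, ← v.2]
    exact congrArg _ h

theorem r_eq {u v : T.U} {i : ℕ} (h : u.1 i = v.1 i) : T.r i u = T.r i v := by
  apply Subtype.ext
  funext j
  induction j with
  | zero => exact T.eq_of_eq h 0 (Nat.zero_le _)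
  | succ j ih =>
    by_cases hj : j + 1 ≤ i
    · rw [r_le _ _ _ _ hj, r_le _ _ _ _ hj]
      exact T.eq_of_eq h _ hj
    · rw [r_succ _ _ _ _ (by omega), r_succ _ _ _ _ (by omega), ih]

/-- Points of `U` are determined by one coordinate if all later coordinates are core points. -/
theorem eq_r {u : T.U} {i : ℕ} (h : ∀ j ≥ i, u.1 (j + 1) = (T.st j).core (u.1 j)) :
    T.r i u = u := by
  apply Subtype.ext
  funext j
  induction j with
  | zero => exact T.r_le i u 0 (Nat.zero_le _)
  | succ j ih =>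
    by_cases hj : j + 1 ≤ i
    · rw [r_le _ _ _ _ hj]
    · rw [r_succ _ _ _ _ (by omega), ih, h j (by omega)]

theorem r_r (i j : ℕ) (u : T.U) : T.r i (T.r j u) = T.r (min i j) u := by
  apply Subtype.ext
  funext k
  induction k with
  | zero =>
    rw [r_le _ _ _ _ (Nat.zero_le _), r_le _ _ _ _ (Nat.zero_le _),
      r_le _ _ _ _ (Nat.zero_le _)]
  | succ k ih =>
    by_cases hi : k + 1 ≤ i
    · by_cases hj : k + 1 ≤ j
      · rw [r_le _ _ _ _ hi, r_le _ _ _ _ hj, r_le _ _ _ _ (le_min hi hj)]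
      · rw [r_le _ _ _ _ hi, r_succ _ _ _ _ (by omega), r_succ _ _ _ _ (by omega), ← ih,
          r_le _ _ _ _ (by omega : k ≤ i)]
    · rw [r_succ _ _ _ _ (by omega), r_succ _ _ _ _ (by omega), ih]

/-- Distance of the projections to level `i`. -/
noncomputable def d (i : ℕ) (u v : T.U) : ℝ := dist (u.1 i) (v.1 i)

theorem d_mono (i : ℕ) (u v : T.U) : T.d i u v ≤ T.d (i + 1) u v := by
  unfold d
  rw [← u.2 i, ← v.2 i]
  exact (T.st i).dist_pr _ _

/-- Every point of level `i` extends. -/
theorem exists_sec (i : ℕ) (y : T.Y i) : ∃ u : T.U, u.1 i = y ∧ T.r i u = u := by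
  induction i with
  | zero =>
    let s : ∀ j, T.Y j := fun j => Nat.rec y (fun j z => (T.st j).core z) j
    have hs : ∀ j, s (j + 1) = (T.st j).core (s j) := fun j => rfl
    refine ⟨⟨s, fun j => by rw [hs, (T.st j).pr_core]⟩, rfl, T.eq_r fun j _ => hs j⟩
  | succ i ih =>
    obtain ⟨u, hu1, hu2⟩ := ih ((T.st i).pr y)
    let s : ∀ j, T.Y j := fun j => Nat.rec (u.1 0) (fun j z => if j < i then u.1 (j + 1)
      else if h : i = j then cast (by rw [h]) y else (T.st j).core z) j
    have hs : ∀ j, s (j + 1) = if j < i then u.1 (j + 1)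
      else if h : i = j then cast (by rw [h]) y else (T.st j).core (s j) := fun j => rfl
    have h1 : ∀ j ≤ i, s j = u.1 j := by
      intro j hj
      cases j with
      | zero => rfl
      | succ j => rw [hs, if_pos (by omega)]
    have h2 : s (i + 1) = y := by
      rw [hs, if_neg (by omega), dif_pos rfl]; rfl
    have h3 : ∀ j ≥ i + 1, s (j + 1) = (T.st j).core (s j) := by
      intro j hj
      rw [hs, if_neg (by omega), dif_neg (by omega)]
    have h4 : ∀ j, (T.st j).pr (s (j + 1)) = s j := by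
      intro j
      rcases lt_trichotomy j i with h | h | h
      · rw [h1 j (by omega), h1 (j + 1) (by omega), u.2]
      · subst h
        rw [h2, h1 j le_rfl, hu1]
      · rw [h3 j (by omega), (T.st j).pr_core]
    exact ⟨⟨s, h4⟩, h2, T.eq_r fun j hj => h3 j hj⟩

/-- A section of the projection to level `i`. -/
noncomputable def sec (i : ℕ) (y : T.Y i) : T.U := (T.exists_sec i y).choose

theorem sec_apply (i : ℕ) (y : T.Y i) : (T.sec i y).1 i = y := (T.exists_sec i y).choose_spec.1

theorem r_sec (i : ℕ) (y : T.Y i) : T.r i (T.sec i y) = T.sec i y :=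
  (T.exists_sec i y).choose_spec.2

theorem sec_eq_r (i : ℕ) (u : T.U) : T.sec i (u.1 i) = T.r i u := by
  rw [← T.r_sec]
  exact T.r_eq (T.sec_apply i _)

end Tw

end Pool.Agent.CDim
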