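import Pool.Agent.CDim.LimTop

set_option autoImplicit false

open Set TopologicalSpace Topology

namespace Pool.Agent.CDim

open Pool.Agent.Gap

namespace LimTS

variable (T : Tw)

theorem d_zero (u v : T.U) : T.d 0 u v = 0 := by
  unfold Tw.d
  rw [T.uniq (u.1 0), T.uniq (v.1 0), dist_self]

theorem eq_of_d {i : ℕ} {u v : T.U} (h : T.d i u v = 0) : u.1 i = v.1 i :=
  eq_of_dist_eq_zero h

theorem d_of_eq {i : ℕ} {u v : T.U} (h : u.1 i = v.1 i) : T.d i u v = 0 := by
  unfold Tw.d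
  rw [h, dist_self]

theorem d_r (i : ℕ) (u : T.U) : T.d i (T.r i u) u = 0 :=
  d_of_eq T (T.r_le i u i le_rfl)

theorem d_core (i : ℕ) (u v : T.U) : T.d (i + 1) (T.r i u) (T.r i v) ≤ T.d i u v := by
  unfold Tw.d
  rw [T.r_succ i u i le_rfl, T.r_succ i v i le_rfl, T.r_le i u i le_rfl, T.r_le i v i le_rfl]
  exact (T.st i).dist_core _ _

theorem sepU (u v : T.U) (h : ∀ i, T.d i u v = 0) : u = v :=
  Subtype.ext (funext fun i => eq_of_d T (h i))

theorem d_sec (i : ℕ) (y y' : T.Y i) : T.d i (T.sec i y) (T.sec i y') = dist y y' := by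
  unfold Tw.d
  rw [T.sec_apply, T.sec_apply]

theorem sc_exists (i : ℕ) (f : T.U → ℝ) (h1 : ∀ u, 0 ≤ f u ∧ f u ≤ 1)
    (h2 : ∀ u v, f u ≤ f v + T.d i u v / 2) :
    ∃ φ : Scale (T.Y i), ∀ u : T.U, φ.f (u.1 i) = f u := by
  refine ⟨⟨fun y => f (T.sec i y), fun y y' => ?_, fun y => (h1 _).1, fun y => (h1 _).2⟩,
    fun u => ?_⟩
  · rw [← d_sec]; exact h2 _ _
  · show f (T.sec i (u.1 i)) = f u
    have e : T.d i (T.sec i (u.1 i)) u = 0 := d_of_eq T (T.sec_apply i _)
    have e' : T.d i u (T.sec i (u.1 i)) = 0 := d_of_eq T (T.sec_apply i _).symm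
    have a := h2 (T.sec i (u.1 i)) u
    have b := h2 u (T.sec i (u.1 i))
    rw [e] at a
    rw [e'] at b
    linarith

theorem core_of_none (i : ℕ) (u : T.U) (h : (T.st i).act (u.1 (i + 1)) = none) :
    u.1 (i + 1) = (T.st i).core (u.1 i) := by
  have := (T.st i).core_pr _ h
  rw [u.2 i] at this
  exact this.symm

theorem r_of_none (i : ℕ) (u : T.U) (h : (T.st i).act (u.1 (i + 1)) = none) :
    T.r (i + 1) u = T.r i u := by
  rw [← T.r_eq (u := T.r i u) (v := u) (i := i + 1), T.r_r]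
  · congr 1
    omega
  · rw [T.r_succ i u i le_rfl, T.r_le i u i le_rfl, ← core_of_none T i u h]

theorem r_sec_succ (i : ℕ) (h : T.Y (i + 1)) : (T.sec (i + 1) h).1 i = (T.st i).pr h := by
  rw [← (T.sec (i + 1) h).2 i, T.sec_apply]

theorem Q_r (i : ℕ) (h : T.Y (i + 1)) (u : T.U) (hp : (T.st i).pr h = u.1 i) :
    T.r i (T.sec (i + 1) h) = T.r i u :=
  T.r_eq (by rw [r_sec_succ, hp])

theorem sec_core (i : ℕ) (u : T.U) : T.sec (i + 1) ((T.st i).core (u.1 i)) = T.r i u := by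
  have h1 : (T.r i u).1 (i + 1) = (T.st i).core (u.1 i) := by
    rw [T.r_succ i u i le_rfl, T.r_le i u i le_rfl]
  rw [← h1, T.sec_eq_r, T.r_r]
  congr 1
  omega

end LimTS

open LimTS in
/-- The interface of the inverse limit. -/
noncomputable def toTS (T : Tw) : TS where
  U := T.U
  d := T.d
  r := T.r
  d_self i u := dist_self _
  d_comm i u v := dist_comm _ _
  d_triangle i u v w := dist_triangle _ _ _
  d_mono := T.d_mono
  d_zero := d_zero T
  d_r := d_r T
  r_eq i u v h := T.r_eq (eq_of_d T h)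
  r_r := T.r_r
  d_core := d_core T
  sepU := sepU T
  isOpen_iff := T.isOpen_iff
  complete := T.complete
  Sc i := Scale (T.Y i)
  val i φ u := φ.f (u.1 i)
  val_nonneg i φ u := φ.nonneg _
  val_le_one i φ u := φ.le_one _
  val_lip i φ u v := φ.lip _ _
  sc_exists := sc_exists T
  act i u := (T.st i).act (u.1 (i + 1))
  act_congr i u v h := by rw [eq_of_d T h]
  act_r i u := by
    show (T.st i).act ((T.r i u).1 (i + 1)) = none
    rw [T.r_succ i u i le_rfl]
    exact (T.st i).act_core _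
  r_of_none := r_of_none T
  act_pos i u φ h := by
    have := (T.st i).act_pos _ _ h
    rw [u.2 i] at this
    exact this
  sep i u v φ h h' := by
    have := (T.st i).sep _ _ φ h h'
    rw [u.2 i] at this
    exact this
  d_act i u v φ h h' := by
    have := (T.st i).dist_act _ φ (v.1 i) h
    rw [u.2 i, ← core_of_none T i v h'] at this
    exact this
  x i u := (T.st i).x (u.1 (i + 1))
  x_congr i u v h := by rw [eq_of_d T h]
  x_lip i u v φ h h' hd := by
    refine (T.st i).x_lip _ _ φ h h' ?_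
    rw [u.2 i]
    exact hd
  Lb i φ := (T.st i).Lb φ
  Lb_ne i φ := (T.st i).Lb_ne φ
  Q i φ L b lam u := T.sec (i + 1) ((T.st i).Q φ L b lam (u.1 i))
  Q_congr i φ L b lam u v h := by rw [eq_of_d T h]
  Q_r i φ L b lam u := Q_r T i _ u ((T.st i).Q_pr _ _ _ _ _)
  Q_fix i φ L b lam u := T.r_sec _ _
  Q_act i φ L b lam u h := by
    rw [T.sec_apply]
    exact (T.st i).Q_act _ _ _ _ _ h
  Q_x i φ L b lam u h := by
    rw [T.sec_apply]
    exact (T.st i).Q_x _ _ _ _ _ h
  Q_core i φ L b lam u h := by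
    rw [(T.st i).Q_core _ _ _ _ _ h]
    exact sec_core T i u
  Q_usc i φ L lam u h ε hε := by
    obtain ⟨δ, hδ, hd⟩ := (T.st i).Q_usc φ L lam (u.1 i) h ε hε
    refine ⟨δ, hδ, fun lam' u' h1 h2 b' => ?_⟩
    obtain ⟨b, hb⟩ := hd lam' (u'.1 i) h1 h2 b'
    refine ⟨b, ?_⟩
    rw [d_sec]
    exact hb
  skel i φ S hpos hcl ρ ρpos ρlip := by
    have hsat : ∀ u ∈ S, ∀ v : T.U, v.1 i = u.1 i → v ∈ S := by
      intro u hu v hv
      refine hcl v ?_ fun ε hε => ⟨u, hu, ?_⟩
      · rw [hv]; exact hpos u hu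
      · rw [d_of_eq T hv]; exact hε
    have hmem : ∀ h : T.Y (i + 1), T.sec i ((T.st i).pr h) ∈ S → T.sec (i + 1) h ∈ S := by
      intro h hS
      refine hsat _ hS _ ?_
      rw [r_sec_succ, T.sec_apply]
    obtain ⟨L, hL⟩ := (T.st i).skel φ {y | T.sec i y ∈ S}
      (fun y hy => by
        have := hpos _ hy
        rwa [T.sec_apply] at this)
      (fun y hy hc => by
        refine hcl _ (by rwa [T.sec_apply]) fun ε hε => ?_
        obtain ⟨z, hz, hd⟩ := Metric.mem_closure_iff.1 hc ε hε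
        exact ⟨T.sec i z, hz, by rw [d_sec]; exact hd⟩)
      (fun h => ρ (T.sec (i + 1) h))
      (fun h ha hp => ρpos _ (hmem h hp) (by rw [T.sec_apply]; exact ha))
      (fun h h' ha ha' hp hp' => by
        have := ρlip _ (hmem h hp) _ (hmem h' hp') (by rw [T.sec_apply]; exact ha)
          (by rw [T.sec_apply]; exact ha')
        rwa [d_sec] at this)
    refine ⟨L, fun u hu lam => ?_⟩
    obtain ⟨h, h1, h2, h3⟩ := hL (u.1 i) (hsat u hu _ (T.sec_apply i _)) lam
    refine ⟨T.sec (i + 1) h, ?_, T.r_sec _ _, by rw [T.sec_apply]; exact h2, fun b => ?_⟩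
    · apply d_of_eq
      rw [r_sec_succ, h1]
    · rw [d_sec]
      exact h3 b

end Pool.Agent.CDim
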