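import Pool.Agent.CDim.LimDefs

set_option autoImplicit false

open Set TopologicalSpace Topology

namespace Pool.Agent.CDim

open Pool.Agent.Gap

namespace Tw

variable (T : Tw)

theorem limTop_continuous (n : ℕ) : Continuous (fun u : T.U => u.1 n) :=
  (continuous_apply n).comp T.isInducing_val.continuous

theorem limTop_d_le {i j : ℕ} (h : i ≤ j) (u v : T.U) : T.d i u v ≤ T.d j u v := by
  obtain ⟨k, rfl⟩ := Nat.exists_eq_add_of_le h
  clear h
  induction k with
  | zero => exact le_rfl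
  | succ k ih => exact ih.trans (T.d_mono _ _ _)

theorem limTop_isOpen_ball (n : ℕ) (u : T.U) (ε : ℝ) : IsOpen {v | T.d n u v < ε} :=
  isOpen_lt (continuous_const.dist (T.limTop_continuous n)) continuous_const

theorem isOpen_iff (O : Set T.U) :
    IsOpen O ↔ ∀ u ∈ O, ∃ n, ∃ ε > 0, ∀ v, T.d n u v < ε → v ∈ O := by
  constructor
  · intro hO u hu
    obtain ⟨O', hO', rfl⟩ := T.isInducing_val.isOpen_iff.1 hO
    obtain ⟨I, w, hw, hI⟩ := isOpen_pi_iff.1 hO' u.1 hu
    have key : ∀ J : Finset ℕ, J ⊆ I → ∃ n, ∃ ε > 0, ∀ v, T.d n u v < ε → ∀ i ∈ J, v.1 i ∈ w i := by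
      intro J
      induction J using Finset.induction_on with
      | empty => exact fun _ => ⟨0, 1, one_pos, fun v _ i hi => by simp at hi⟩
      | insert a J ha ih =>
        intro hJ
        obtain ⟨n, ε, hε, h⟩ := ih (fun i hi => hJ (Finset.mem_insert_of_mem hi))
        obtain ⟨h1, h2⟩ := hw a (hJ (Finset.mem_insert_self _ _))
        obtain ⟨ε', hε', h3⟩ := Metric.isOpen_iff.1 h1 _ h2
        refine ⟨max n a, min ε ε', lt_min hε hε', fun v hv i hi => ?_⟩
        rcases Finset.mem_insert.1 hi with rfl | hi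
        · apply h3
          rw [Metric.mem_ball, dist_comm]
          exact (T.limTop_d_le (le_max_right n i) u v).trans_lt (hv.trans_le (min_le_right _ _))
        · exact h v ((T.limTop_d_le (le_max_left n a) u v).trans_lt
            (hv.trans_le (min_le_left _ _))) i hi
    obtain ⟨n, ε, hε, h⟩ := key I (Finset.Subset.refl _)
    exact ⟨n, ε, hε, fun v hv => hI fun i hi => h v hv i hi⟩
  · intro h
    rw [isOpen_iff_mem_nhds]
    intro u hu
    obtain ⟨n, ε, hε, hsub⟩ := h u hu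
    refine Filter.mem_of_superset ((T.limTop_isOpen_ball n u ε).mem_nhds ?_) hsub
    show T.d n u u < ε
    unfold d
    rwa [dist_self]

theorem complete (u : ℕ → T.U)
    (hu : ∀ j, ∀ ε > 0, ∃ N, ∀ p ≥ N, ∀ q ≥ N, T.d j (u p) (u q) < ε) :
    ∃ v, ∀ j, ∀ ε > 0, ∃ N, ∀ n ≥ N, T.d j (u n) v < ε := by
  have hlim : ∀ j, ∃ y : T.Y j, Filter.Tendsto (fun n => (u n).1 j) Filter.atTop (𝓝 y) := by
    intro j
    have := T.cs j
    refine cauchySeq_tendsto_of_complete (Metric.cauchySeq_iff.2 fun ε hε => ?_)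
    obtain ⟨N, hN⟩ := hu j ε hε
    exact ⟨N, fun p hp q hq => hN p hp q hq⟩
  choose y hy using hlim
  have hpr : ∀ j, (T.st j).pr (y (j + 1)) = y j := by
    intro j
    have hc : Continuous (T.st j).pr :=
      (LipschitzWith.of_dist_le_mul (K := 1) fun a b => by
        rw [NNReal.coe_one, one_mul]; exact (T.st j).dist_pr a b).continuous
    have h1 := (hc.tendsto _).comp (hy (j + 1))
    have h2 : ((T.st j).pr ∘ fun n => (u n).1 (j + 1)) = fun n => (u n).1 j := by
      funext n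
      exact (u n).2 j
    rw [h2] at h1
    exact tendsto_nhds_unique h1 (hy j)
  refine ⟨⟨y, hpr⟩, fun j ε hε => ?_⟩
  obtain ⟨N, hN⟩ := Metric.tendsto_atTop.1 (hy j) ε hε
  exact ⟨N, fun n hn => hN n hn⟩

theorem cb_U : CB T.U := by
  refine isTopologicalBasis_of_isOpen_of_nhds (fun s hs => hs.2) fun u O hu hO => ?_
  obtain ⟨n, ε, hε, h⟩ := (T.isOpen_iff O).1 hO u hu
  obtain ⟨C, hC, huC, hCs⟩ := (T.cb n).exists_subset_of_mem_open
    (Metric.mem_ball_self hε : u.1 n ∈ Metric.ball (u.1 n) ε) Metric.isOpen_ball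
  refine ⟨(fun v : T.U => v.1 n) ⁻¹' C, IsClopen.preimage hC (T.limTop_continuous n), huC,
    fun v hv => h v ?_⟩
  have := hCs hv
  rw [Metric.mem_ball, dist_comm] at this
  exact this

end Tw

end Pool.Agent.CDim
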