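import Pool.Agent.CDim.Steps

set_option autoImplicit false

open Set TopologicalSpace Topology

namespace Pool.Agent.CDim

open Pool.Agent.Gap

namespace Plan

variable {S : TS} (p : Plan S)

theorem Locality_lbAt (n : p.Node) (Λ Λ' : p.Lbs) (h : ∀ m, p.rel m n → Λ m = Λ' m)
    {v : S.U} (hv : v ∈ n.1.2) (j : ℕ) (hj : n.1.1 < j) : p.lbAt Λ j v = p.lbAt Λ' j v := by
  by_cases hex : ∃ V, V ∈ p.F j ∧ v ∈ V
  · obtain ⟨V, hV, hvV⟩ := hex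
    have h1 := p.lbAt_node Λ ⟨(j, V), hV⟩ hvV
    have h2 := p.lbAt_node Λ' ⟨(j, V), hV⟩ hvV
    have h3 := h ⟨(j, V), hV⟩ ⟨hj, v, hvV, hv⟩
    exact h1.trans (h3.trans h2.symm)
  · unfold lbAt
    rw [dif_neg hex, dif_neg hex]

theorem Locality_thr (n : p.Node) (Λ Λ' : p.Lbs) (h : ∀ m, p.rel m n → Λ m = Λ' m)
    {v : S.U} (hv : v ∈ n.1.2) {z : ℕ → unitInterval} (ht : p.Thr Λ (n.1.1 + 1) z v) :
    p.Thr Λ' (n.1.1 + 1) z v := by
  intro j hj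
  obtain ⟨b, hb⟩ := ht j hj
  refine ⟨b, ?_⟩
  rw [hb]
  unfold stp
  rw [p.Locality_lbAt n Λ Λ' h hv j (by omega)]

/-- `Good n Λ x` depends only on the labels of the nodes below `n`. -/
theorem good_loc (n : p.Node) (Λ Λ' : p.Lbs) (x : S.Lb n.1.1 (p.φ n.1.1))
    (h : ∀ m, p.rel m n → Λ m = Λ' m) (hG : p.Good n Λ x) : p.Good n Λ' x := by
  intro u hu z
  obtain ⟨jb, ε, hε, N, hN, hO⟩ := hG u hu z
  refine ⟨jb, ε, hε, N, hN, fun u' hu' hd z' hz' b v hv ht => ?_⟩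
  refine hO u' hu' hd z' hz' b v hv (p.Locality_thr n Λ' Λ (fun m hm => (h m hm).symm) ?_ ht)
  refine p.mem_F_of_d n.2 hu' ?_
  have h1 := S.d_zero_of_le (Nat.le_succ _) hv
  rw [← h1]
  refine S.d_congr_left ?_ v
  rw [← S.d_r_left, ← S.Q_r n.1.1 (p.φ n.1.1) x b (z' n.1.1) u']
  exact S.d_r _ _

end Plan

end Pool.Agent.CDim
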