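import Pool.Agent.CDim.Steps
import Pool.Agent.Gap.Rho

set_option autoImplicit false

open Set TopologicalSpace Topology

namespace Pool.Agent.CDim

open Pool.Agent.Gap

namespace Plan

variable {S : TS} (p : Plan S)

theorem NodeStep_d_of_r {i : ℕ} {u v : S.U} (h : S.r i u = S.r i v) : S.d i u v = 0 := by
  rw [← S.d_r_left, h]
  exact S.d_r i v

/-- The points over the node `n` at the next level. -/
structure NX (n : p.Node) : Type where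
  h : S.U
  fix : S.r (n.1.1 + 1) h = h
  mem : h ∈ n.1.2
  act : S.act n.1.1 h = some (p.φ n.1.1)

theorem NX.ext' {n : p.Node} {a b : p.NX n} (h : a.h = b.h) : a = b := by
  cases a; cases b; simp only [mk.injEq]; exact h

noncomputable instance (n : p.Node) : MetricSpace (p.NX n) where
  dist a b := S.d (n.1.1 + 1) a.h b.h
  dist_self a := S.d_self _ _
  dist_comm a b := S.d_comm _ _ _
  dist_triangle a b c := S.d_triangle _ _ _ _
  eq_of_dist_eq_zero := by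
    intro a b h
    apply NX.ext'
    rw [← a.fix, ← b.fix]
    exact S.r_eq _ _ _ h

theorem NX.dist_eq {n : p.Node} (a b : p.NX n) : dist a b = S.d (n.1.1 + 1) a.h b.h := rfl

theorem NodeStep_Q_mem (n : p.Node) {u : S.U} (hu : u ∈ n.1.2) (L : S.Lb n.1.1 (p.φ n.1.1))
    (b : Bool) (lam : unitInterval) : S.Q n.1.1 (p.φ n.1.1) L b lam u ∈ n.1.2 := by
  refine p.mem_F_of_d n.2 hu (NodeStep_d_of_r ?_)
  exact (S.Q_r _ _ _ _ _ _).symm

theorem NodeStep_pos (n : p.Node) {u : S.U} (hu : u ∈ n.1.2) :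
    0 < S.val n.1.1 (p.φ n.1.1) u :=
  (p.F_pos _ u (p.F_sub _ _ n.2 hu)).2 ⟨n.1.2, n.2, hu⟩

/-- The skeleton point as a point over the node. -/
noncomputable def NodeStep_Q (n : p.Node) {u : S.U} (hu : u ∈ n.1.2)
    (L : S.Lb n.1.1 (p.φ n.1.1)) (b : Bool) (lam : unitInterval) : p.NX n where
  h := S.Q n.1.1 (p.φ n.1.1) L b lam u
  fix := S.Q_fix _ _ _ _ _ _
  mem := p.NodeStep_Q_mem n hu L b lam
  act := S.Q_act _ _ _ _ _ _ (p.NodeStep_pos n hu)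

/-- The node step: good labels exist. -/
theorem exists_good (Λ : p.Lbs) (n : p.Node)
    (h : ∀ v ∈ S.W p.φ (n.1.1 + 1), v ∈ n.1.2 → p.A Λ (n.1.1 + 1) v) :
    ∃ x, p.Good n Λ x := by
  classical
  set i := n.1.1 with hi
  have hW : ∀ q : p.NX n, q.h ∈ S.W p.φ (n.1.1 + 1) := fun q =>
    S.mem_W_succ.2 ⟨p.F_sub _ _ n.2 q.mem, Or.inr q.act⟩
  obtain ⟨ρ, ρlip, ρpos, ρcov⟩ := exists_rho (X := p.NX n) (Z := ℕ → unitInterval)
    (ι := ℕ × Bool) (fun jb => interior {q | p.O Λ (n.1.1 + 1) jb q.1.h q.2})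
    (fun jb => isOpen_interior)
    (by
      rintro ⟨q, z⟩
      obtain ⟨jb, ε, hε, N, hN, hO⟩ := h q.h (hW q) q.mem z
      refine ⟨jb, ?_⟩
      rw [mem_interior_iff_mem_nhds]
      have h1 : Metric.ball q ε ×ˢ N ∈ 𝓝 (q, z) :=
        prod_mem_nhds (Metric.ball_mem_nhds q hε) hN
      refine Filter.mem_of_superset h1 ?_
      rintro ⟨q', z'⟩ ⟨hq', hz'⟩
      exact hO q'.h (hW q') hq' z' hz')
  let toX : ∀ u, (u ∈ n.1.2 ∧ S.act n.1.1 u = some (p.φ n.1.1)) → p.NX n := fun u hu =>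
    { h := S.r (n.1.1 + 1) u
      fix := S.r_self _ _
      mem := p.mem_F_of_d n.2 hu.1 (by
        rw [S.d_comm]; exact S.d_r_le (Nat.le_succ _) u)
      act := by rw [S.act_r_lt (Nat.lt_succ_self _)]; exact hu.2 }
  let ρ' : S.U → ℝ := fun u =>
    if hu : u ∈ n.1.2 ∧ S.act n.1.1 u = some (p.φ n.1.1) then ρ (toX u hu) else 1
  have hρ' : ∀ u (hu : u ∈ n.1.2 ∧ S.act n.1.1 u = some (p.φ n.1.1)), ρ' u = ρ (toX u hu) :=
    fun u hu => dif_pos hu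
  obtain ⟨L, hL⟩ := S.skel n.1.1 (p.φ n.1.1) n.1.2 (fun u hu => p.NodeStep_pos n hu)
    (by
      intro u hpos hcl
      have huW : u ∈ S.W p.φ n.1.1 := S.W_closed fun ε hε => by
        obtain ⟨v, hv, hd⟩ := hcl ε hε
        exact ⟨v, p.F_sub _ _ n.2 hv, hd⟩
      obtain ⟨V', hV', huV'⟩ := (p.F_pos _ u huW).1 hpos
      obtain ⟨ε, hε, hb⟩ := p.F_open _ V' hV' u huV'
      obtain ⟨v, hv, hd⟩ := hcl ε hε
      have hv' : v ∈ V' := hb v (p.F_sub _ _ n.2 hv) hd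
      have e : V' = n.1.2 := p.F_disj _ V' hV' _ n.2 ⟨v, hv', hv⟩
      rw [← e]; exact huV')
    ρ'
    (by
      intro u hu hact
      rw [hρ' u ⟨hu, hact⟩]
      exact ρpos _)
    (by
      intro u hu v hv hau hav
      rw [hρ' u ⟨hu, hau⟩, hρ' v ⟨hv, hav⟩]
      have h1 := ρlip (toX u ⟨hu, hau⟩) (toX v ⟨hv, hav⟩)
      have h2 : dist (toX u ⟨hu, hau⟩) (toX v ⟨hv, hav⟩) = S.d (n.1.1 + 1) u v := by
        show S.d (n.1.1 + 1) (S.r (n.1.1 + 1) u) (S.r (n.1.1 + 1) v) = _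
        rw [S.d_r_left, S.d_r_right]
      rw [h2] at h1
      exact h1)
  refine ⟨L, ?_⟩
  intro u hu z
  obtain ⟨hb, hb1, hb2, hb3, hb4⟩ := hL u hu (z n.1.1)
  have hbV : hb ∈ n.1.2 := p.mem_F_of_d n.2 hu (by rw [S.d_comm]; exact hb1)
  let hX : p.NX n := ⟨hb, hb2, hbV, hb3⟩
  have hX' : ρ' hb = ρ hX := by
    rw [hρ' hb ⟨hbV, hb3⟩]
    congr 1
    apply NX.ext'
    exact hb2
  obtain ⟨jb, hjb⟩ := ρcov hX z
  have hQ : ∀ b, (p.NodeStep_Q n hu L b (z n.1.1), z) ∈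
      interior {q : p.NX n × (ℕ → unitInterval) | p.O Λ (n.1.1 + 1) jb q.1.h q.2} := by
    intro b
    apply hjb
    rw [← hX']
    exact hb4 b
  have hnb : ∀ b, ∃ ε > 0, ∃ N ∈ 𝓝 z, ∀ q : p.NX n,
      dist q (p.NodeStep_Q n hu L b (z n.1.1)) < ε → ∀ z' ∈ N, p.O Λ (n.1.1 + 1) jb q.h z' := by
    intro b
    have h1 := mem_interior_iff_mem_nhds.1 (hQ b)
    rw [nhds_prod_eq] at h1
    obtain ⟨A, hA, B, hB, hAB⟩ := Filter.mem_prod_iff.1 h1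
    obtain ⟨ε, hε, hεA⟩ := Metric.mem_nhds_iff.1 hA
    refine ⟨ε, hε, B, hB, fun q hq z' hz' => ?_⟩
    have h2 : (q, z') ∈ A ×ˢ B := ⟨hεA (Metric.mem_ball.2 hq), hz'⟩
    exact hAB h2
  obtain ⟨ε1, hε1, N1, hN1, h1⟩ := hnb false
  obtain ⟨ε2, hε2, N2, hN2, h2⟩ := hnb true
  obtain ⟨δ, hδ, hus⟩ := S.Q_usc n.1.1 (p.φ n.1.1) L (z n.1.1) u (p.NodeStep_pos n hu)
    (min ε1 ε2) (lt_min hε1 hε2)
  have hN3 : {z' : ℕ → unitInterval | dist (z' n.1.1) (z n.1.1) < δ} ∈ 𝓝 z := by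
    have hc : Continuous (fun z' : ℕ → unitInterval => z' n.1.1) := continuous_apply _
    exact hc.continuousAt (Metric.ball_mem_nhds (z n.1.1) hδ)
  refine ⟨jb, δ, hδ, N1 ∩ N2 ∩ {z' | dist (z' n.1.1) (z n.1.1) < δ},
    Filter.inter_mem (Filter.inter_mem hN1 hN2) hN3, ?_⟩
  rintro u' hu' hd z' ⟨⟨hz1, hz2⟩, hz3⟩ b'
  obtain ⟨b, hb⟩ := hus (z' n.1.1) u' hz3 hd b'
  cases b
  · exact h1 (p.NodeStep_Q n hu' L b' (z' n.1.1)) (hb.trans_le (min_le_left _ _)) z' hz1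
  · exact h2 (p.NodeStep_Q n hu' L b' (z' n.1.1)) (hb.trans_le (min_le_right _ _)) z' hz2

end Plan

end Pool.Agent.CDim
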