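import Mathlib

set_option autoImplicit false

namespace Pool.Agent.CDim

/-- Simultaneous choice along a well-founded relation (not assumed transitive). -/
theorem wf_choice {N : Type} {r : N → N → Prop} (hr : WellFounded r) {β : N → Type}
    (hne : ∀ n, Nonempty (β n)) (R : ∀ n, (∀ m, β m) → β n → Prop)
    (loc : ∀ n (S S' : ∀ m, β m) (x : β n), (∀ m, r m n → S m = S' m) → R n S x → R n S' x)
    (ex : ∀ n (S : ∀ m, β m), (∀ m, Relation.TransGen r m n → R m S (S m)) → ∃ x, R n S x) :
    ∃ S : ∀ m, β m, ∀ n, R n S (S n) := by
  classical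
  have ht : WellFounded (Relation.TransGen r) := hr.transGen
  let ext : ∀ n, (∀ m, Relation.TransGen r m n → β m) → ∀ m, β m := fun n f m =>
    if h : Relation.TransGen r m n then f m h else (hne m).some
  let F : ∀ n, β n := ht.fix fun n f =>
    if hx : ∃ x, R n (ext n f) x then hx.choose else (hne n).some
  have hF : ∀ n, F n = if hx : ∃ x, R n (ext n fun m _ => F m) x then hx.choose
      else (hne n).some := fun n => ht.fix_eq _ n
  have hE : ∀ n m, Relation.TransGen r m n → ext n (fun m _ => F m) m = F m :=
    fun n m h => dif_pos h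
  refine ⟨F, fun n => ?_⟩
  induction n using ht.induction with
  | _ n ih =>
    have h1 : ∀ m, Relation.TransGen r m n →
        R m (ext n fun m _ => F m) ((ext n fun m _ => F m) m) := by
      intro m hm
      rw [hE n m hm]
      refine loc m F _ (F m) (fun m' hm' => ?_) (ih m hm)
      exact (hE n m' (Relation.TransGen.head hm' hm)).symm
    have h2 := ex n _ h1
    have h3 : R n (ext n fun m _ => F m) (F n) := by
      rw [hF n, dif_pos h2]
      exact h2.choose_spec
    exact loc n _ F (F n) (fun m hm => hE n m (Relation.TransGen.single hm)) h3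

end Pool.Agent.CDim
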