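import Pool.Agent.CDim.Base
import Pool.Agent.CDim.NodeStep
import Pool.Agent.CDim.Locality
import Pool.Agent.CDim.CubeFinal
import Pool.Agent.CDim.WfChoice

set_option autoImplicit false

open Set TopologicalSpace Topology

namespace Pool.Agent.CDim

open Pool.Agent.Gap

theorem no_plan {S : TS} (p : Plan S) (u0 : S.U) : False := by
  obtain ⟨Λ, hΛ⟩ := wf_choice p.wf_rel (β := fun n => S.Lb n.1.1 (p.φ n.1.1))
    (fun n => S.Lb_ne _ _) (fun n Λ x => p.Good n Λ x)
    (fun n Λ Λ' x h hG => p.good_loc n Λ Λ' x h hG)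
    (fun n Λ hΛ => by
      refine p.exists_good Λ n fun v hv hvn => ?_
      refine p.A_all Λ hv fun m hm hvm => ?_
      refine hΛ m (Relation.TransGen.single ⟨by omega, S.r (n.1.1 + 1) v, hvm, ?_⟩)
      refine p.mem_F_of_d n.2 hvn ?_
      rw [S.d_comm]
      exact S.d_r_le (Nat.le_succ _) v)
  refine p.not_A_zero Λ u0 (p.A_all Λ ?_ fun n _ _ => hΛ n)
  rw [S.W_zero]
  trivial

end Pool.Agent.CDim
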