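import Pool.Agent.CDim.FamPt
import Pool.Agent.CDim.ColTop
import Pool.Agent.CDim.ColCover
import Pool.Agent.Gap.Complete
import Pool.Agent.Gap.Clopen

set_option autoImplicit false

open Set TopologicalSpace Topology

namespace Pool.Agent.CDim

open Pool.Agent.Gap

section

variable {Y : Type} [MetricSpace Y]

/-- The position in the new coordinate. -/
noncomputable def oneStepX : Col (famPt Y) → ℝ
  | .core _ => 0
  | .act φ p => (show Pt (Pos φ) (lab φ).K (lab φ).code from p).x

theorem oneStep_lab_nonempty (φ : Scale Y) : Nonempty (lab φ).K := by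
  by_contra h
  rw [not_nonempty_iff] at h
  have : (univ : Set (lab φ).K) = ∅ := Set.eq_empty_of_isEmpty _
  exact (lab φ).univ_not_small true (this ▸ (lab φ).small_empty true)

theorem oneStep_Q_of_pos (φ : Scale Y) (L : ℕ → ℕ → (lab φ).K) (b : Bool) (lam : unitInterval)
    (y : Y) (h : 0 < φ.f y) : ∃ p : Pt (Pos φ) (lab φ).K (lab φ).code,
      p.y.y = y ∧ p.x = lam ∧ colQ φ L b lam y = .act φ p := by
  unfold colQ
  rw [dif_pos h]
  cases b
  · exact ⟨Ql (lab φ).code L lam ⟨y, h⟩, rfl, rfl, rfl⟩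
  · exact ⟨Qr (lab φ).code L lam ⟨y, h⟩, rfl, rfl, rfl⟩

theorem oneStep_x_lip (h h' : Col (famPt Y)) (φ : Scale Y) (h1 : Col.code h = some φ)
    (h2 : Col.code h' = some φ) (hd : dist h h' < φ.f (Col.pr h)) :
    |oneStepX h - oneStepX h'| ≤ dist h h' := by
  rcases h with y | ⟨ψ, p⟩
  · cases h1
  rcases h' with y | ⟨ψ', q⟩
  · cases h2
  cases h1
  cases h2
  rw [Col.dist_act_eq φ p q hd]
  exact Pt.abs_x_le (show Pt (Pos φ) (lab φ).K (lab φ).code from p) q

/-- The one-step extension. -/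
noncomputable def oneStep : OneStep Y (Col (famPt Y)) where
  pr := Col.pr
  core := Col.core
  act := Col.code
  x := oneStepX
  Lb φ := ℕ → ℕ → (lab φ).K
  Q := colQ
  pr_core _ := rfl
  act_core _ := rfl
  core_pr h hh := by
    rcases h with y | ⟨ψ, p⟩
    · rfl
    · cases hh
  act_pos h φ hh := by
    rcases h with y | ⟨ψ, p⟩
    · cases hh
    · cases hh
      exact (famPt Y).pos φ p
  dist_pr := Col.dist_pr_le
  dist_core y y' := by
    refine (Col.dist_le _ _).trans (max_le le_rfl ?_)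
    exact (max_le le_rfl le_rfl : max (0 : ℝ) 0 ≤ 0).trans dist_nonneg
  dist_act h φ y hh := by
    rcases h with y' | ⟨ψ, p⟩
    · cases hh
    · cases hh
      refine (Col.dist_le _ _).trans (max_le_max le_rfl (max_le le_rfl ?_))
      exact ((famPt Y).pos φ p).le
  sep h h' φ h1 h2 := by
    have := Col.w_le_dist (h := h) (h' := h') (fun ψ h3 h4 => by
      rw [h1] at h3
      cases h3
      exact h2 h4)
    rcases h with y' | ⟨ψ, p⟩
    · cases h1
    · cases h1
      exact this
  x_lip := oneStep_x_lip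
  Lb_ne φ := by
    have := oneStep_lab_nonempty φ
    infer_instance
  Q_pr φ L b lam y := by
    by_cases h : 0 < φ.f y
    · obtain ⟨p, h1, -, h3⟩ := oneStep_Q_of_pos φ L b lam y h
      rw [h3]
      exact h1
    · unfold colQ
      rw [dif_neg h]
      rfl
  Q_act φ L b lam y h := by
    obtain ⟨p, -, -, h3⟩ := oneStep_Q_of_pos φ L b lam y h
    rw [h3]
    rfl
  Q_x φ L b lam y h := by
    obtain ⟨p, -, h2, h3⟩ := oneStep_Q_of_pos φ L b lam y h
    rw [h3]
    exact h2
  Q_core φ L b lam y h := by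
    unfold colQ
    rw [dif_neg (by rw [h]; exact lt_irrefl _)]
  Q_usc φ L lam y hy ε hε := colQ_usc φ L lam y hy ε hε
  skel φ S hS hcl ρ h1 h2 := colQ_skel φ S hS hcl ρ h1 h2
  cover φ m W hW := Col.cover famPt_cover φ m W hW

end

theorem exists_oneStep (Y : Type) [MetricSpace Y] [CompleteSpace Y] (hY : CB Y) :
    ∃ (E : Type) (_ : MetricSpace E), CompleteSpace E ∧ CB E ∧ Nonempty (OneStep Y E) := by
  refine ⟨Col (famPt Y), inferInstance, Col.completeSpace fun φ => ?_, Col.cb hY fun φ => ?_,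
    ⟨oneStep⟩⟩
  · have := Pos.completeSpace φ
    exact complete_pt (lab φ).code
  · exact clopen_basis_pt (lab φ).code (Pos.cb hY φ)

end Pool.Agent.CDim
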