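import Pool.Agent.CDim.TSBasic
import Pool.Agent.CDim.Her

set_option autoImplicit false

open Set TopologicalSpace Topology

namespace Pool.Agent.CDim

open Pool.Agent.Gap

theorem PSets_continuous_x (S : TS) (i : ℕ) (φ : S.Sc i) :
    Continuous fun g : {u : S.U // S.act i u = some φ} => S.x i g := by
  rw [continuous_iff_continuousAt]
  intro g
  rw [ContinuousAt, Metric.tendsto_nhds]
  intro ε hε
  have hpos := S.act_pos i g φ g.2
  have hm : 0 < min ε (S.val i φ g) := lt_min hε hpos
  have hO := (S.isOpen_ball (i + 1) g (min ε (S.val i φ g))).preimage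
    (continuous_subtype_val (p := fun u : S.U => S.act i u = some φ))
  have hg : g ∈ Subtype.val ⁻¹' {v | S.d (i + 1) g v < min ε (S.val i φ g)} := by
    show S.d (i + 1) g g < _
    rw [S.d_self]
    exact hm
  filter_upwards [hO.mem_nhds hg] with v hv
  have hv : S.d (i + 1) g v < min ε (S.val i φ g) := hv
  rw [dist_comm, Real.dist_eq]
  exact (S.x_lip i g v φ g.2 v.2 (hv.trans_le (min_le_right _ _))).trans_lt
    (hv.trans_le (min_le_left _ _))

/-- A partition between `{x = 0}` and `{x = 1}` in the open set of the points which use the scale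
`φ` at coordinate `i`; the partition misses the strongly zero-dimensional set `Z`. -/
theorem exists_P (S : TS) (i : ℕ) (φ : S.Sc i) (Z : Set S.U) (hZ : SZ Z) :
    ∃ P : Bool → Set S.U, (∀ b, IsOpen (P b)) ∧ Disjoint (P false) (P true) ∧
      (∀ b, ∀ u ∈ P b, S.act i u = some φ) ∧
      (∀ u, S.act i u = some φ → S.x i u = 0 → u ∈ P false) ∧
      (∀ u, S.act i u = some φ → S.x i u = 1 → u ∈ P true) ∧
      ∀ u ∈ Z, S.act i u = some φ → u ∈ P false ∨ u ∈ P true := by
  have hc := PSets_continuous_x S i φ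
  have hZ' : SZ ((Subtype.val : {u : S.U // S.act i u = some φ} → S.U) ⁻¹' Z) :=
    SZ.preimage IsEmbedding.subtypeVal hZ
  have hA : IsClosed {g : {u : S.U // S.act i u = some φ} | S.x i g = 0} :=
    isClosed_eq hc continuous_const
  have hB : IsClosed {g : {u : S.U // S.act i u = some φ} | S.x i g = 1} :=
    isClosed_eq hc continuous_const
  obtain ⟨U, V, hU, hV, hUV, hAU, hBV, hZUV⟩ := sep_sz hZ' hA hB
    (Set.disjoint_left.2 fun g (h0 : S.x i g = 0) (h1 : S.x i g = 1) => by
      rw [h0] at h1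
      exact zero_ne_one h1)
  have hG : IsOpen {u | S.act i u = some φ} := S.isOpen_act i φ
  refine ⟨fun b => if b then Subtype.val '' V else Subtype.val '' U, ?_, ?_, ?_, ?_, ?_, ?_⟩
  · intro b
    cases b
    · exact hG.isOpenMap_subtype_val U hU
    · exact hG.isOpenMap_subtype_val V hV
  · refine Set.disjoint_left.2 ?_
    rintro _ ⟨g, hg, rfl⟩ ⟨g', hg', h⟩
    rw [Subtype.val_injective h] at hg'
    exact Set.disjoint_left.1 hUV hg hg'
  · intro b u hu
    cases b
    · obtain ⟨g, -, rfl⟩ := hu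
      exact g.2
    · obtain ⟨g, -, rfl⟩ := hu
      exact g.2
  · intro u h1 h2
    exact ⟨⟨u, h1⟩, hAU h2, rfl⟩
  · intro u h1 h2
    exact ⟨⟨u, h1⟩, hBV h2, rfl⟩
  · intro u hu h1
    rcases hZUV (show (⟨u, h1⟩ : {u : S.U // S.act i u = some φ}) ∈ Subtype.val ⁻¹' Z from hu) with
      h | h
    · exact Or.inl ⟨_, h, rfl⟩
    · exact Or.inr ⟨_, h, rfl⟩

end Pool.Agent.CDim
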