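import Pool.Agent.CDim.TSBasic

set_option autoImplicit false

open Set TopologicalSpace Topology

namespace Pool.Agent.CDim

open Pool.Agent.Gap

/-- A scale of coordinate `i` which vanishes exactly on the `d s`-closure of `B`
(`min 1 (dist (u, B) / 2)`, and `1` if `B` is empty). -/
theorem exists_scale (S : TS) {s i : ℕ} (h : s ≤ i) (B : Set S.U) :
    ∃ φ : S.Sc i, ∀ u, 0 < S.val i φ u ↔ ∃ ε > 0, ∀ v ∈ B, ε ≤ S.d s u v := by
  classical
  let A : S.U → Set ℝ := fun u => insert 1 ((fun v => S.d s u v / 2) '' B)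
  have hA1 : ∀ u, (1 : ℝ) ∈ A u := fun u => mem_insert _ _
  have hA0 : ∀ u, ∀ a ∈ A u, (0 : ℝ) ≤ a := by
    rintro u a (rfl | ⟨v, -, rfl⟩)
    · exact zero_le_one
    · have := S.d_nonneg s u v
      show 0 ≤ S.d s u v / 2
      linarith
  have hbdd : ∀ u, BddBelow (A u) := fun u => ⟨0, fun a ha => hA0 u a ha⟩
  obtain ⟨φ, hφ⟩ := S.sc_exists i (fun u => sInf (A u))
    (fun u => ⟨le_csInf ⟨1, hA1 u⟩ (hA0 u), csInf_le (hbdd u) (hA1 u)⟩)
    (by
      intro u v
      have hd := S.d_nonneg i u v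
      have key : ∀ a ∈ A v, sInf (A u) - S.d i u v / 2 ≤ a := by
        rintro a (rfl | ⟨w, hw, rfl⟩)
        · have := csInf_le (hbdd u) (hA1 u)
          linarith
        · have h1 : S.d s u w / 2 ∈ A u := mem_insert_of_mem _ ⟨w, hw, rfl⟩
          have h2 := csInf_le (hbdd u) h1
          have h3 := S.d_triangle s u v w
          have h4 := S.d_le h u v
          show _ ≤ S.d s v w / 2
          linarith
      have := le_csInf ⟨1, hA1 v⟩ key
      linarith)
  refine ⟨φ, fun u => ?_⟩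
  rw [hφ u]
  constructor
  · intro hpos
    refine ⟨sInf (A u), hpos, fun v hv => ?_⟩
    have h1 : S.d s u v / 2 ∈ A u := mem_insert_of_mem _ ⟨v, hv, rfl⟩
    have h2 := csInf_le (hbdd u) h1
    have h3 := S.d_nonneg s u v
    linarith
  · rintro ⟨ε, hε, h1⟩
    refine lt_of_lt_of_le (lt_min one_pos (half_pos hε)) (le_csInf ⟨1, hA1 u⟩ ?_)
    rintro a (rfl | ⟨w, hw, rfl⟩)
    · exact min_le_left _ _
    · refine (min_le_right _ _).trans ?_
      have := h1 w hw
      show ε / 2 ≤ S.d s u w / 2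
      linarith

end Pool.Agent.CDim
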