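import Pool.Agent.CDim.RoundsDefs
import Pool.Agent.CDim.ScaleMk

set_option autoImplicit false

open Set TopologicalSpace Topology

namespace Pool.Agent.CDim

open Pool.Agent.Gap

namespace RoundsMk

variable {S : TS}

/-- The support of round `k`, seen from the next level (everything for `k = 0`). -/
def Om (S : TS) (φ : ∀ j, S.Sc j) (k : ℕ) : Set S.U :=
  {u | ∀ k', k = k' + 1 → ∃ j, rs k' ≤ j ∧ j < rs k ∧ 0 < S.val j (φ j) u}

/-- The families of round `k`, chosen for the scales `φ`. -/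
noncomputable def F0 (hC : S.Cov) (φ : ∀ j, S.Sc j) (k : ℕ) : Fin (3 ^ rs k) → Set (Set S.U) :=
  (hC φ (rs k) ((1 / 2) ^ rs (k + 1)) (by positivity)).choose

theorem F0_spec (hC : S.Cov) (φ : ∀ j, S.Sc j) (k : ℕ) :
    (∀ c, ∀ V ∈ F0 hC φ k c, V ⊆ S.W φ (rs k)) ∧
    (∀ c, ∀ V ∈ F0 hC φ k c, ∀ u ∈ V, ∃ ε > 0, ∀ v ∈ S.W φ (rs k), S.d (rs k) u v < ε → v ∈ V) ∧
    (∀ c, ∀ V ∈ F0 hC φ k c, ∀ u ∈ V, ∀ v ∈ V, S.d (rs k) u v ≤ (1 / 2) ^ rs (k + 1)) ∧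
    (∀ c, ∀ V ∈ F0 hC φ k c, ∀ V' ∈ F0 hC φ k c, (V ∩ V').Nonempty → V = V') ∧
    ∀ u ∈ S.W φ (rs k), ∃ c, ∃ V ∈ F0 hC φ k c, u ∈ V :=
  (hC φ (rs k) ((1 / 2) ^ rs (k + 1)) (by positivity)).choose_spec

variable (PP : ∀ i, S.Sc i → Bool → Set S.U)

/-- The families after intersection with the support of the previous round. -/
def Fam (hC : S.Cov) (φ : ∀ j, S.Sc j) (k c : ℕ) : Set (Set S.U) :=
  {V | ∃ h : c < 3 ^ rs k, ∃ V0 ∈ F0 hC φ k ⟨c, h⟩, V = V0 ∩ Om S φ k ∧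
    ∃ u ∈ V, u ∈ Unres S PP φ (rs k)}

theorem exists_sc (hC : S.Cov) (φ : ∀ j, S.Sc j) (i : ℕ) :
    ∃ ψ : S.Sc i, ∀ u, 0 < S.val i ψ u ↔
      ∃ ε > 0, ∀ v ∈ S.W φ (rs (rd i)) \ ⋃₀ Fam PP hC φ (rd i) (rc i), ε ≤ S.d (rs (rd i)) u v :=
  exists_scale S (rs_rd_le i) _

open Classical in
/-- The scales after round `k`. -/
noncomputable def nx (hC : S.Cov) (k : ℕ) (φ : ∀ j, S.Sc j) : ∀ j, S.Sc j := fun i =>
  if rd i = k then (exists_sc PP hC φ i).choose else φ i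

/-- The scales before round `k`. -/
noncomputable def Ph (hC : S.Cov) (φ0 : ∀ j, S.Sc j) : ℕ → ∀ j, S.Sc j
  | 0 => φ0
  | k + 1 => nx PP hC k (Ph hC φ0 k)

/-- The final scales. -/
noncomputable def fin (hC : S.Cov) (φ0 : ∀ j, S.Sc j) (i : ℕ) : S.Sc i :=
  Ph PP hC φ0 (rd i + 1) i

theorem Ph_eq (hC : S.Cov) (φ0 : ∀ j, S.Sc j) (i k : ℕ) (h : rd i < k) :
    Ph PP hC φ0 k i = fin PP hC φ0 i := by
  obtain ⟨m, rfl⟩ := Nat.exists_eq_add_of_lt h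
  clear h
  induction m with
  | zero => rfl
  | succ m ih =>
    rw [← ih]
    show nx PP hC (rd i + m + 1) (Ph PP hC φ0 (rd i + m + 1)) i = _
    unfold nx
    rw [if_neg (by omega)]

theorem rd_lt {j k : ℕ} (h : j < rs k) : rd j < k := by
  by_contra hk
  have := rs_strictMono.monotone (not_lt.1 hk)
  have := rs_rd_le j
  omega

theorem Ph_eq' (hC : S.Cov) (φ0 : ∀ j, S.Sc j) (k : ℕ) : ∀ j < rs k,
    Ph PP hC φ0 k j = fin PP hC φ0 j := fun j hj => Ph_eq PP hC φ0 j k (rd_lt hj)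

theorem W_Ph (hC : S.Cov) (φ0 : ∀ j, S.Sc j) (k : ℕ) :
    S.W (Ph PP hC φ0 k) (rs k) = S.W (fin PP hC φ0) (rs k) := S.W_eq (Ph_eq' PP hC φ0 k)

theorem Om_Ph (hC : S.Cov) (φ0 : ∀ j, S.Sc j) (k : ℕ) :
    Om S (Ph PP hC φ0 k) k = Om S (fin PP hC φ0) k := by
  ext u
  constructor
  · intro h k' hk
    obtain ⟨j, h1, h2, h3⟩ := h k' hk
    exact ⟨j, h1, h2, by rwa [← Ph_eq' PP hC φ0 k j h2]⟩
  · intro h k' hk
    obtain ⟨j, h1, h2, h3⟩ := h k' hk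
    exact ⟨j, h1, h2, by rwa [Ph_eq' PP hC φ0 k j h2]⟩

theorem Unres_Ph (hC : S.Cov) (φ0 : ∀ j, S.Sc j) (k : ℕ) :
    Unres S PP (Ph PP hC φ0 k) (rs k) = Unres S PP (fin PP hC φ0) (rs k) := by
  ext u
  constructor
  · intro h j hj b
    rw [← Ph_eq' PP hC φ0 k j hj]
    exact h j hj b
  · intro h j hj b
    rw [Ph_eq' PP hC φ0 k j hj]
    exact h j hj b

theorem Om_open {φ : ∀ j, S.Sc j} {k : ℕ} {u : S.U} (hu : u ∈ Om S φ k) :
    ∃ ε > 0, ∀ v, S.d (rs k) u v < ε → v ∈ Om S φ k := by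
  rcases k with _ | k'
  · exact ⟨1, one_pos, fun v _ k' hk' => absurd hk' (by omega)⟩
  · obtain ⟨j, h1, h2, h3⟩ := hu k' rfl
    refine ⟨S.val j (φ j) u, h3, fun v hv k'' hk'' => ?_⟩
    have e : k'' = k' := by omega
    subst e
    refine ⟨j, h1, h2, ?_⟩
    have h4 := S.val_lip j (φ j) u v
    have h5 := S.d_le h2.le u v
    have h6 := S.d_nonneg j u v
    linarith

theorem exists_rounds (hC : S.Cov) : Nonempty (Rounds S PP) := by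
  have hne : ∀ j, Nonempty (S.Sc j) := fun j => by
    obtain ⟨φ, -⟩ := S.sc_exists j (fun _ => 0) (fun _ => ⟨le_rfl, zero_le_one⟩)
      (fun u v => by have := S.d_nonneg j u v; simp only [zero_add]; linarith)
    exact ⟨φ⟩
  let φ0 : ∀ j, S.Sc j := fun j => Classical.choice (hne j)
  refine ⟨{
    φ := fin PP hC φ0
    G := fun k c => Fam PP hC (Ph PP hC φ0 k) k c
    G_sub := ?_
    G_open := ?_
    G_diam := ?_
    G_disj := ?_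
    G_nest := ?_
    G_unres := ?_
    G_cover := ?_
    φ_pos := ?_ }⟩
  · rintro k c V ⟨hc, V0, hV0, rfl, -⟩
    rw [← W_Ph]
    exact inter_subset_left.trans ((F0_spec hC _ k).1 _ V0 hV0)
  · rintro k c V ⟨hc, V0, hV0, rfl, -⟩ u ⟨hu1, hu2⟩
    obtain ⟨ε1, h1, h2⟩ := (F0_spec hC _ k).2.1 _ V0 hV0 u hu1
    obtain ⟨ε2, h3, h4⟩ := Om_open hu2
    refine ⟨min ε1 ε2, lt_min h1 h3, fun v hv hd => ?_⟩
    rw [← W_Ph] at hv
    exact ⟨h2 v hv (hd.trans_le (min_le_left _ _)), h4 v (hd.trans_le (min_le_right _ _))⟩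
  · rintro k c V ⟨hc, V0, hV0, rfl, -⟩ u ⟨hu1, -⟩ v ⟨hv1, -⟩
    exact (F0_spec hC _ k).2.2.1 _ V0 hV0 u hu1 v hv1
  · rintro k c V ⟨hc, V0, hV0, rfl, -⟩ V' ⟨hc', V0', hV0', rfl, -⟩ ⟨u, ⟨h1, -⟩, ⟨h2, -⟩⟩
    rw [(F0_spec hC _ k).2.2.2.1 _ V0 hV0 V0' hV0' ⟨u, h1, h2⟩]
  · rintro k c V ⟨hc, V0, hV0, rfl, -⟩ u ⟨-, hu⟩
    rw [Om_Ph] at hu
    exact hu k rfl
  · rintro k c V ⟨hc, V0, hV0, h, u, hu1, hu2⟩
    rw [Unres_Ph] at hu2
    exact ⟨u, hu1, hu2⟩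
  · intro k u hu hun hOm
    rw [← W_Ph] at hu
    obtain ⟨c, V, hV, huV⟩ := (F0_spec hC _ k).2.2.2.2 u hu
    have hOm' : u ∈ Om S (Ph PP hC φ0 k) k := by rw [Om_Ph]; exact hOm
    refine ⟨c.1, c.2, V ∩ Om S (Ph PP hC φ0 k) k, ⟨c.2, V, hV, rfl, u, ⟨huV, hOm'⟩, ?_⟩,
      huV, hOm'⟩
    rw [Unres_Ph]
    exact hun
  · intro k c hc u hu
    have e1 : rd (rs k + c) = k := rd_add hc
    have e2 : rc (rs k + c) = c := rc_add hc
    have e3 : fin PP hC φ0 (rs k + c) = (exists_sc PP hC (Ph PP hC φ0 k) (rs k + c)).choose := by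
      rw [← Ph_eq PP hC φ0 (rs k + c) (k + 1) (by omega)]
      show nx PP hC k (Ph PP hC φ0 k) (rs k + c) = _
      unfold nx
      rw [if_pos e1]
    have e4 := (exists_sc PP hC (Ph PP hC φ0 k) (rs k + c)).choose_spec u
    rw [← e3, e1, e2] at e4
    rw [e4]
    constructor
    · rintro ⟨ε, hε, h⟩
      by_contra hcon
      have huW : u ∈ S.W (Ph PP hC φ0 k) (rs k) := by rw [W_Ph]; exact hu
      have h1 := h u ⟨huW, ?_⟩
      · rw [S.d_self] at h1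
        exact absurd h1 (not_le.2 hε)
      · rintro ⟨V, hV, huV⟩
        exact hcon ⟨V, hV, huV⟩
    · rintro ⟨V, hV, huV⟩
      obtain ⟨hc', V0, hV0, rfl, hne⟩ := id hV
      obtain ⟨ε1, h1, h2⟩ := (F0_spec hC _ k).2.1 _ V0 hV0 u huV.1
      obtain ⟨ε2, h3, h4⟩ := Om_open huV.2
      refine ⟨min ε1 ε2, lt_min h1 h3, fun v hv => ?_⟩
      by_contra hd
      rw [not_le] at hd
      refine hv.2 ⟨_, hV, h2 v hv.1 (hd.trans_le (min_le_left _ _)),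
        h4 v (hd.trans_le (min_le_right _ _))⟩

end RoundsMk

theorem exists_rounds (S : TS) (hC : S.Cov) (PP : ∀ i, S.Sc i → Bool → Set S.U) :
    Nonempty (Rounds S PP) := RoundsMk.exists_rounds PP hC

end Pool.Agent.CDim
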