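import Pool.Agent.CDim.Chain
import Pool.Agent.CDim.RoundsMk
import Pool.Agent.CDim.PSets

set_option autoImplicit false

open Set TopologicalSpace Topology

namespace Pool.Agent.CDim

open Pool.Agent.Gap

theorem exists_plan (S : TS) (hC : S.Cov) (Z : ℕ → Set S.U) (hZ : ∀ k, SZ (Z k))
    (hc : (⋃ k, Z k) = univ) : Nonempty (Plan S) := by
  choose PP hP1 hP2 hP3 hP4 hP5 hP6 using fun i (φ : S.Sc i) =>
    exists_P S i φ (Z (rd i)) (hZ _)
  obtain ⟨R⟩ := exists_rounds S hC PP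
  refine ⟨{
    φ := R.φ
    F := fun i => {V' | ∃ V ∈ R.G (rd i) (rc i), V' = V ∩ S.W R.φ i}
    P := fun i b => PP i (R.φ i) b
    F_sub := ?_
    F_open := ?_
    F_disj := ?_
    F_pos := ?_
    P_open := fun i b => hP1 i _ b
    P_disj := fun i => hP2 i _
    P_act := fun i b => hP3 i _ b
    P_zero := fun i u => hP4 i _ u
    P_one := fun i u => hP5 i _ u
    resolved := fun i u hu h => R.resolved i u hu h
    wf := ?_ }⟩
  · rintro i V' ⟨V, hV, rfl⟩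
    exact inter_subset_right
  · rintro i V' ⟨V, hV, rfl⟩ u hu
    obtain ⟨ε, hε, h⟩ := R.G_open _ _ V hV u hu.1
    exact ⟨ε, hε, fun v hv hd =>
      ⟨h v (S.W_anti (rs_rd_le i) hv) ((S.d_le (rs_rd_le i) u v).trans_lt hd), hv⟩⟩
  · rintro i V' ⟨V, hV, rfl⟩ V'' ⟨V2, hV2, rfl⟩ ⟨u, hu1, hu2⟩
    rw [R.G_disj _ _ V hV V2 hV2 ⟨u, hu1.1, hu2.1⟩]
  · intro i u hu
    have h := R.φ_pos (rd i) (rc i) (rc_lt i) u (S.W_anti (rs_rd_le i) hu)
    rw [rs_add_rc] at h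
    rw [h]
    constructor
    · rintro ⟨V, hV, huV⟩
      exact ⟨_, ⟨V, hV, rfl⟩, huV, hu⟩
    · rintro ⟨_, ⟨V, hV, rfl⟩, huV, _⟩
      exact ⟨V, hV, huV⟩
  · rw [wellFounded_iff_isEmpty_descending_chain]
    refine ⟨fun f => ?_⟩
    obtain ⟨f, hf⟩ := f
    choose V hV1 hV2 using fun m => (f m).2
    refine R.no_chain (fun i φ b => hP1 i φ b) Z hc (fun i φ u hu ha => hP6 i φ u hu ha)
      (fun m => (f m).1.1) (strictMono_nat_of_lt_succ fun m => (hf m).1) V hV1 fun m => ?_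
    obtain ⟨u, hu1, hu2⟩ := (hf m).2
    rw [hV2] at hu1 hu2
    exact ⟨u, ⟨hu2.1, hu1.1⟩, hu1.2⟩

end Pool.Agent.CDim
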