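import Pool.Agent.CDim.Col
import Pool.Agent.CDim.Her
import Pool.Agent.Gap.Tower

set_option autoImplicit false

open Set TopologicalSpace Topology Filter

namespace Pool.Agent.CDim

open Pool.Agent.Gap

variable {Y : Type} [MetricSpace Y] {φ : Scale Y}

theorem PosLem_continuous (φ : Scale Y) : Continuous φ.f := by
  have : LipschitzWith 1 φ.f := LipschitzWith.of_dist_le_mul fun y y' => by
    rw [Real.dist_eq, NNReal.coe_one, one_mul, abs_le]
    have h1 := φ.lip y y'
    have h2 := φ.lip y' y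
    rw [dist_comm y' y] at h2
    have h3 : 0 ≤ dist y y' := dist_nonneg
    constructor <;> linarith
  exact this.continuous

/-- The metric of `Pos φ` is complete (`emb` is an isometry onto the closed set
`{(y, t) | φ y * t = 1}`). -/
theorem Pos.completeSpace [CompleteSpace Y] (φ : Scale Y) : CompleteSpace (Pos φ) := by
  refine Metric.complete_of_cauchySeq_tendsto fun u hu => ?_
  have hiso : Isometry (Pos.emb : Pos φ → Y × ℝ) := Isometry.of_dist_eq fun p q => rfl
  have hc : CauchySeq (fun n => Pos.emb (u n)) := hu.map hiso.uniformContinuous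
  obtain ⟨⟨y, t⟩, hyt⟩ := cauchySeq_tendsto_of_complete hc
  have h1 : Tendsto (fun n => φ.f (Pos.emb (u n)).1 * (Pos.emb (u n)).2) atTop
      (𝓝 (φ.f y * t)) := by
    have hcont : Continuous (fun q : Y × ℝ => φ.f q.1 * q.2) :=
      ((PosLem_continuous φ).comp continuous_fst).mul continuous_snd
    exact (hcont.tendsto (y, t)).comp hyt
  have h2 : ∀ n, φ.f (Pos.emb (u n)).1 * (Pos.emb (u n)).2 = 1 := fun n =>
    mul_inv_cancel₀ (u n).pos.ne'
  simp only [h2] at h1
  have h3 : φ.f y * t = 1 := (tendsto_nhds_unique h1 tendsto_const_nhds)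
  have h4 : 0 < φ.f y := by
    refine lt_of_le_of_ne (φ.nonneg y) fun h => ?_
    rw [← h, zero_mul] at h3
    exact zero_ne_one h3
  refine ⟨⟨y, h4⟩, ?_⟩
  rw [Pos.isInducing_emb.tendsto_nhds_iff]
  have h5 : Pos.emb (⟨y, h4⟩ : Pos φ) = (y, t) := by
    show (y, (φ.f y)⁻¹) = (y, t)
    rw [inv_eq_of_mul_eq_one_right h3]
  rw [h5]
  exact hyt

/-- Topologically `Pos φ` is an open subspace of `Y`. -/
theorem Pos.near (p : Pos φ) (ε : ℝ) (hε : 0 < ε) :
    ∃ δ > 0, ∀ q : Pos φ, dist q.y p.y < δ → dist q p < ε := by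
  have hc : ContinuousAt (fun y => (φ.f y)⁻¹) p.y :=
    (PosLem_continuous φ).continuousAt.inv₀ p.pos.ne'
  obtain ⟨δ, hδ, h⟩ := Metric.continuousAt_iff.1 hc ε hε
  refine ⟨min δ ε, lt_min hδ hε, fun q hq => ?_⟩
  rw [Pos.dist_eq]
  refine max_lt (hq.trans_le (min_le_right _ _)) ?_
  rw [← Real.dist_eq]
  exact h (hq.trans_le (min_le_left _ _))

theorem Pos.isEmbedding_y : IsEmbedding (fun p : Pos φ => p.y) := by
  have hcont : Continuous (fun p : Pos φ => p.y) := by
    have : LipschitzWith 1 (fun p : Pos φ => p.y) :=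
      LipschitzWith.of_dist_le_mul fun p q => by simpa using Pos.dist_y_le p q
    exact this.continuous
  refine ⟨?_, fun p q h => Pos.ext' h⟩
  rw [isInducing_iff_nhds]
  intro p
  refine le_antisymm ?_ ?_
  · exact map_le_iff_le_comap.1 hcont.continuousAt
  · intro s hs
    obtain ⟨ε, hε, h⟩ := Metric.mem_nhds_iff.1 hs
    obtain ⟨δ, hδ, h'⟩ := Pos.near p ε hε
    exact ⟨Metric.ball p.y δ, Metric.ball_mem_nhds _ hδ, fun q hq => h (h' q hq)⟩

theorem Pos.cb (h : CB Y) (φ : Scale Y) : CB (Pos φ) :=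
  isTopologicalBasis_clopen_of_inducing Pos.isEmbedding_y.isInducing h

theorem Pos.sz {S : Set Y} (hS : SZ S) : SZ {p : Pos φ | p.y ∈ S} :=
  SZ.preimage Pos.isEmbedding_y hS

end Pool.Agent.CDim
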