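import Pool.Agent.CDim.RoundsDefs

set_option autoImplicit false

open Set TopologicalSpace Topology

namespace Pool.Agent.CDim

open Pool.Agent.Gap

/-- Unresolved points are in the support of the previous round. -/
theorem Rounds.resolved_claim {S : TS} {PP : ∀ i, S.Sc i → Bool → Set S.U} (R : Rounds S PP)
    (k : ℕ) : ∀ u ∈ S.W R.φ (rs k), u ∈ Unres S PP R.φ (rs k) →
      ∀ k', k = k' + 1 → ∃ j, rs k' ≤ j ∧ j < rs k ∧ 0 < S.val j (R.φ j) u := by
  induction k with
  | zero => intro u _ _ k' hk'; omega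
  | succ k ih =>
    intro u hu hun k' hk'
    obtain rfl : k = k' := by omega
    by_contra hno
    have hzero : ∀ j, rs k ≤ j → j < rs (k + 1) → S.val j (R.φ j) u = 0 := by
      intro j h1 h2
      by_contra hne
      exact hno ⟨j, h1, h2, lt_of_le_of_ne (S.val_nonneg _ _ _) (Ne.symm hne)⟩
    have hr : ∀ t, rs k + t ≤ rs (k + 1) → S.r (rs k + t) u = S.r (rs k) u := by
      intro t
      induction t with
      | zero => intro _; rfl
      | succ t iht =>
        intro ht
        rw [← iht (by omega)]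
        apply S.r_of_none
        rcases hu (rs k + t) (by omega) with h1 | h1
        · exact h1.2
        · have h2 := S.act_pos _ _ _ h1
          rw [hzero _ (Nat.le_add_right _ _) (by omega)] at h2
          exact absurd h2 (lt_irrefl _)
    have hlt := rs_lt k
    have hrr : S.r (rs (k + 1)) u = S.r (rs k) u := by
      have := hr (3 ^ rs k) (by rw [rs_succ])
      rwa [← rs_succ] at this
    have hun' : u ∈ Unres S PP R.φ (rs k) := by
      intro j hj b
      rw [← hrr]
      exact hun j (by omega) b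
    have huW : u ∈ S.W R.φ (rs k) := S.W_anti hlt.le hu
    obtain ⟨c, hc, V, hV, huV⟩ := R.G_cover k u huW hun' (ih u huW hun')
    have hpos := (R.φ_pos k c hc u huW).2 ⟨V, hV, huV⟩
    rw [hzero _ (Nat.le_add_right _ _) (by rw [rs_succ]; omega)] at hpos
    exact lt_irrefl _ hpos

/-- Points which are collapsed forever are resolved. -/
theorem Rounds.resolved {S : TS} {PP : ∀ i, S.Sc i → Bool → Set S.U} (R : Rounds S PP) (i : ℕ)
    (u : S.U) (hu : u ∈ S.W R.φ i) (h : ∀ j ≥ i, S.val j (R.φ j) (S.r i u) = 0) :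
    ∃ j b, S.r i u ∈ PP j (R.φ j) b := by
  by_contra hno
  have hv : S.r i u ∈ S.W R.φ (rs i) := S.r_mem_W_of_zero hu _ fun j h1 _ => h j h1
  have hun : S.r i u ∈ Unres S PP R.φ (rs i) := by
    intro j _ b hb
    rw [S.r_of_ge (le_rs i)] at hb
    exact hno ⟨j, b, hb⟩
  obtain ⟨c, hc, V, hV, huV⟩ := R.G_cover i _ hv hun (R.resolved_claim i _ hv hun)
  have hpos := (R.φ_pos i c hc _ hv).2 ⟨V, hV, huV⟩
  rw [h _ ((le_rs i).trans (Nat.le_add_right _ _))] at hpos
  exact lt_irrefl _ hpos

end Pool.Agent.CDim
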