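import Pool.Agent.CDim.TSBasic

set_option autoImplicit false

open Set TopologicalSpace Topology

namespace Pool.Agent.CDim

open Pool.Agent.Gap

/-- The first coordinate of round `k`; round `k` has `3 ^ rs k` coordinates. -/
def rs : ℕ → ℕ
  | 0 => 0
  | k + 1 => rs k + 3 ^ rs k

theorem rs_succ (k : ℕ) : rs (k + 1) = rs k + 3 ^ rs k := rfl

theorem rs_lt (k : ℕ) : rs k < rs (k + 1) := by
  rw [rs_succ]
  have : 0 < 3 ^ rs k := by positivity
  omega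

theorem rs_strictMono : StrictMono rs := strictMono_nat_of_lt_succ rs_lt

theorem le_rs (k : ℕ) : k ≤ rs k := rs_strictMono.id_le k

/-- The round of the coordinate `i`. -/
def rd (i : ℕ) : ℕ := Nat.findGreatest (fun k => rs k ≤ i) i

theorem rs_rd_le (i : ℕ) : rs (rd i) ≤ i := by
  have : rs 0 ≤ i := Nat.zero_le _
  exact Nat.findGreatest_spec (P := fun k => rs k ≤ i) (Nat.zero_le i) this

theorem lt_rs_rd (i : ℕ) : i < rs (rd i + 1) := by
  by_contra h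
  rw [not_lt] at h
  have h1 : rd i + 1 ≤ i := (le_rs _).trans h
  have h2 := Nat.le_findGreatest (P := fun k => rs k ≤ i) h1 h
  have h3 : rd i + 1 ≤ rd i := h2
  omega

theorem rd_eq {i k : ℕ} (h1 : rs k ≤ i) (h2 : i < rs (k + 1)) : rd i = k := by
  have a := rs_rd_le i
  have b := lt_rs_rd i
  rcases lt_trichotomy (rd i) k with h | h | h
  · have := rs_strictMono.monotone (show rd i + 1 ≤ k by omega)
    omega
  · exact h
  · have := rs_strictMono.monotone (show k + 1 ≤ rd i by omega)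
    omega

theorem rd_add {k c : ℕ} (h : c < 3 ^ rs k) : rd (rs k + c) = k :=
  rd_eq (Nat.le_add_right _ _) (by rw [rs_succ]; omega)

/-- The number of the coordinate `i` inside its round. -/
def rc (i : ℕ) : ℕ := i - rs (rd i)

theorem rs_add_rc (i : ℕ) : rs (rd i) + rc i = i := by
  have := rs_rd_le i
  unfold rc
  omega

theorem rc_lt (i : ℕ) : rc i < 3 ^ rs (rd i) := by
  have h1 := lt_rs_rd i
  have h2 := rs_add_rc i
  rw [rs_succ] at h1
  omega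

theorem rc_add {k c : ℕ} (h : c < 3 ^ rs k) : rc (rs k + c) = c := by
  unfold rc
  rw [rd_add h]
  omega

/-- The unresolved points of level `i` (relative to given open sets `PP`). -/
def Unres (S : TS) (PP : ∀ i, S.Sc i → Bool → Set S.U) (φ : ∀ i, S.Sc i) (i : ℕ) : Set S.U :=
  {u | ∀ j < i, ∀ b, S.r i u ∉ PP j (φ j) b}

/-- The construction in rounds. `G k c` is the family number `c` of round `k`, a family of subsets
of `W φ (rs k)`; it gives the coordinate `rs k + c`. -/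
structure Rounds (S : TS) (PP : ∀ i, S.Sc i → Bool → Set S.U) where
  φ : ∀ i, S.Sc i
  G : ℕ → ℕ → Set (Set S.U)
  G_sub : ∀ k c, ∀ V ∈ G k c, V ⊆ S.W φ (rs k)
  G_open : ∀ k c, ∀ V ∈ G k c, ∀ u ∈ V, ∃ ε > 0, ∀ v ∈ S.W φ (rs k), S.d (rs k) u v < ε → v ∈ V
  G_diam : ∀ k c, ∀ V ∈ G k c, ∀ u ∈ V, ∀ v ∈ V, S.d (rs k) u v ≤ (1 / 2) ^ rs (k + 1)
  G_disj : ∀ k c, ∀ V ∈ G k c, ∀ V' ∈ G k c, (V ∩ V').Nonempty → V = V'
  G_nest : ∀ k c, ∀ V ∈ G (k + 1) c, ∀ u ∈ V, ∃ j, rs k ≤ j ∧ j < rs (k + 1) ∧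
    0 < S.val j (φ j) u
  G_unres : ∀ k c, ∀ V ∈ G k c, ∃ u ∈ V, u ∈ Unres S PP φ (rs k)
  G_cover : ∀ k, ∀ u ∈ S.W φ (rs k), u ∈ Unres S PP φ (rs k) →
    (∀ k', k = k' + 1 → ∃ j, rs k' ≤ j ∧ j < rs k ∧ 0 < S.val j (φ j) u) →
    ∃ c < 3 ^ rs k, ∃ V ∈ G k c, u ∈ V
  φ_pos : ∀ k, ∀ c < 3 ^ rs k, ∀ u ∈ S.W φ (rs k),
    (0 < S.val (rs k + c) (φ (rs k + c)) u ↔ ∃ V ∈ G k c, u ∈ V)

end Pool.Agent.CDim
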