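import Pool.Agent.CDim.Threads

set_option autoImplicit false

open Set TopologicalSpace Topology

namespace Pool.Agent.CDim

open Pool.Agent.Gap

namespace Plan

variable {S : TS} (p : Plan S)

theorem Steps_lbAt_congr (Λ : p.Lbs) (i : ℕ) {u v : S.U}
    (h : S.d i u v = 0) : p.lbAt Λ i u = p.lbAt Λ i v := by
  by_cases hu : ∃ V, V ∈ p.F i ∧ u ∈ V
  · obtain ⟨V, hV, huV⟩ := hu
    have hvV : v ∈ V := p.mem_F_of_d hV huV h
    have h1 := p.lbAt_node Λ (⟨(i, V), hV⟩ : p.Node) huV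
    have h2 := p.lbAt_node Λ (⟨(i, V), hV⟩ : p.Node) hvV
    exact h1.trans h2.symm
  · have hv : ¬ ∃ V, V ∈ p.F i ∧ v ∈ V := by
      rintro ⟨V, hV, hvV⟩
      exact hu ⟨V, hV, p.mem_F_of_d hV hvV (by rw [S.d_comm]; exact h)⟩
    unfold lbAt
    rw [dif_neg hu, dif_neg hv]

theorem stp_congr (Λ : p.Lbs) (i : ℕ) (b : Bool) (lam : unitInterval) {u v : S.U}
    (h : S.d i u v = 0) : p.stp Λ i b lam u = p.stp Λ i b lam v := by
  unfold stp
  rw [p.Steps_lbAt_congr Λ i h]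
  exact S.Q_congr i _ _ b lam u v h

theorem stp_r (Λ : p.Lbs) (i : ℕ) (b : Bool) (lam : unitInterval) (u : S.U) :
    S.r i (p.stp Λ i b lam u) = S.r i u :=
  S.Q_r i _ _ b lam u

theorem stp_fix (Λ : p.Lbs) (i : ℕ) (b : Bool) (lam : unitInterval) (u : S.U) :
    S.r (i + 1) (p.stp Λ i b lam u) = p.stp Λ i b lam u :=
  S.Q_fix i _ _ b lam u

theorem stp_zero (Λ : p.Lbs) (i : ℕ) (b : Bool) (lam : unitInterval) (u : S.U)
    (h : S.val i (p.φ i) u = 0) : p.stp Λ i b lam u = S.r i u :=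
  S.Q_core i _ _ b lam u h

theorem stp_act (Λ : p.Lbs) (i : ℕ) (b : Bool) (lam : unitInterval) (u : S.U)
    (h : 0 < S.val i (p.φ i) u) : S.act i (p.stp Λ i b lam u) = some (p.φ i) :=
  S.Q_act i _ _ b lam u h

theorem stp_x (Λ : p.Lbs) (i : ℕ) (b : Bool) (lam : unitInterval) (u : S.U)
    (h : 0 < S.val i (p.φ i) u) : S.x i (p.stp Λ i b lam u) = lam :=
  S.Q_x i _ _ b lam u h

theorem Steps_d_stp (Λ : p.Lbs) (i : ℕ) (b : Bool) (lam : unitInterval) (u : S.U) :
    S.d i u (p.stp Λ i b lam u) = 0 := by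
  rw [← S.d_r_right i (p.stp Λ i b lam u) u, p.stp_r, S.d_r_right]
  exact S.d_self i u

theorem stp_mem_W (Λ : p.Lbs) (i : ℕ) (b : Bool) (lam : unitInterval) {u : S.U}
    (hu : u ∈ S.W p.φ i) : p.stp Λ i b lam u ∈ S.W p.φ (i + 1) := by
  have h0 := p.Steps_d_stp Λ i b lam u
  rw [S.mem_W_succ]
  refine ⟨S.W_congr h0 hu, ?_⟩
  rcases (S.val_nonneg i (p.φ i) u).eq_or_lt with h | h
  · left
    refine ⟨?_, ?_⟩
    · rw [← S.val_congr (p.φ i) h0]
      exact h.symm
    · rw [p.stp_zero Λ i b lam u h.symm]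
      exact S.act_r i u
  · right
    exact p.stp_act Λ i b lam u h

/-- A thread stays in the sets `W`. -/
theorem thr_mem_W (Λ : p.Lbs) {i : ℕ} {z : ℕ → unitInterval} {v : S.U} (hv : v ∈ S.W p.φ i)
    (h : p.Thr Λ i z v) (j : ℕ) : v ∈ S.W p.φ j := by
  rcases le_total j i with hj | hj
  · exact S.W_anti hj hv
  · obtain ⟨k, rfl⟩ := Nat.exists_eq_add_of_le hj
    clear hj
    induction k with
    | zero => exact hv
    | succ k ih =>
      obtain ⟨b, hb⟩ := h (i + k) (Nat.le_add_right _ _)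
      have h1 := p.stp_mem_W Λ (i + k) b (z (i + k)) ih
      rw [← hb] at h1
      exact S.W_congr (S.d_r (i + k + 1) v) h1

/-- Existence of threads. -/
theorem exists_thr (Λ : p.Lbs) (i : ℕ) (z : ℕ → unitInterval) (u : S.U) :
    ∃ v, S.d i u v = 0 ∧ p.Thr Λ i z v := by
  let w : ℕ → S.U := fun k => Nat.rec (S.r i u) (fun k a => p.stp Λ (i + k) false (z (i + k)) a) k
  have w0 : w 0 = S.r i u := rfl
  have ws : ∀ k, w (k + 1) = p.stp Λ (i + k) false (z (i + k)) (w k) := fun k => rfl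
  have hstep : ∀ k, S.d (i + k) (w k) (w (k + 1)) = 0 := by
    intro k
    rw [ws]
    exact p.Steps_d_stp _ _ _ _ _
  have hd : ∀ k m, S.d (i + k) (w k) (w (k + m)) = 0 := by
    intro k m
    induction m with
    | zero => exact S.d_self _ _
    | succ m ih =>
      have h1 : S.d (i + k) (w (k + m)) (w (k + m + 1)) = 0 :=
        S.d_zero_of_le (by omega) (hstep (k + m))
      have h2 := S.d_triangle (i + k) (w k) (w (k + m)) (w (k + m + 1))
      have h3 := S.d_nonneg (i + k) (w k) (w (k + m + 1))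
      have h4 : w (k + (m + 1)) = w (k + m + 1) := rfl
      rw [h4]
      linarith
  have hd' : ∀ j k a b, j ≤ i + k → k ≤ a → k ≤ b → S.d j (w a) (w b) = 0 := by
    intro j k a b hj ha hb
    obtain ⟨a', rfl⟩ := Nat.exists_eq_add_of_le ha
    obtain ⟨b', rfl⟩ := Nat.exists_eq_add_of_le hb
    have h1 : S.d j (w k) (w (k + a')) = 0 := S.d_zero_of_le hj (hd k a')
    have h2 : S.d j (w k) (w (k + b')) = 0 := S.d_zero_of_le hj (hd k b')
    rw [← S.d_congr_left h1]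
    exact h2
  obtain ⟨v, hv⟩ := S.complete w (by
    intro j ε hε
    refine ⟨j, fun a ha b hb => ?_⟩
    rw [hd' j j a b (by omega) ha hb]
    exact hε)
  have hv0 : ∀ k, S.d (i + k) (w k) v = 0 := by
    intro k
    refine le_antisymm (le_of_forall_pos_lt_add fun ε hε => ?_) (S.d_nonneg _ _ _)
    obtain ⟨N, hN⟩ := hv (i + k) ε hε
    have h1 := hN (max N k) (le_max_left _ _)
    rw [← S.d_congr_left (hd' (i + k) k k (max N k) le_rfl le_rfl (le_max_right _ _))] at h1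
    linarith
  refine ⟨v, ?_, ?_⟩
  · have h1 := hv0 0
    rw [w0, add_zero, S.d_r_left] at h1
    exact h1
  · intro j hj
    obtain ⟨k, rfl⟩ := Nat.exists_eq_add_of_le hj
    refine ⟨false, ?_⟩
    rw [← p.stp_congr Λ (i + k) false (z (i + k)) (hv0 k), ← ws]
    have h1 := S.r_eq (i + k + 1) _ _ (hv0 (k + 1))
    rw [← h1, ws]
    exact p.stp_fix _ _ _ _ _

/-- One step of a thread. -/
theorem O_step (Λ : p.Lbs) (i : ℕ) (jb : ℕ × Bool) (u : S.U) (z : ℕ → unitInterval)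
    (h : ∀ b, p.O Λ (i + 1) jb (p.stp Λ i b (z i) u) z) : p.O Λ i jb u z := by
  intro v huv hthr
  obtain ⟨b, hb⟩ := hthr i le_rfl
  refine h b v ?_ ?_
  · rw [p.stp_congr Λ i b (z i) huv, ← hb]
    exact S.d_r (i + 1) v
  · intro j hj
    exact hthr j (by omega)

end Plan

end Pool.Agent.CDim
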