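import Pool.Agent.CDim.TSBasic

set_option autoImplicit false

open Set TopologicalSpace Topology

namespace Pool.Agent.CDim

open Pool.Agent.Gap

namespace Plan

variable {S : TS} (p : Plan S)

/-- Nodes: a coordinate and a member of the family of that coordinate. -/
abbrev Node : Type := {n : ℕ × Set S.U // n.2 ∈ p.F n.1}

/-- `m` is below `n`. -/
def rel (m n : p.Node) : Prop := n.1.1 < m.1.1 ∧ (m.1.2 ∩ n.1.2).Nonempty

theorem wf_rel : WellFounded p.rel := p.wf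

/-- A choice of labels for all nodes. -/
abbrev Lbs : Type := ∀ n : p.Node, S.Lb n.1.1 (p.φ n.1.1)

open Classical in
/-- The labels used at coordinate `i` by the point `u`. -/
noncomputable def lbAt (Λ : p.Lbs) (i : ℕ) (u : S.U) : S.Lb i (p.φ i) :=
  if h : ∃ V, V ∈ p.F i ∧ u ∈ V then Λ ⟨(i, h.choose), h.choose_spec.1⟩
  else Classical.choice (S.Lb_ne i (p.φ i))

/-- The skeleton step at coordinate `i`. -/
noncomputable def stp (Λ : p.Lbs) (i : ℕ) (b : Bool) (lam : unitInterval) (u : S.U) : S.U :=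
  S.Q i (p.φ i) (p.lbAt Λ i u) b lam u

/-- From level `i` on the point `v` follows the skeleton steps with positions `z`. -/
def Thr (Λ : p.Lbs) (i : ℕ) (z : ℕ → unitInterval) (v : S.U) : Prop :=
  ∀ j ≥ i, ∃ b, S.r (j + 1) v = p.stp Λ j b (z j) v

/-- All threads with positions `z` which start in `u` at level `i` end in the set `P jb`. -/
def O (Λ : p.Lbs) (i : ℕ) (jb : ℕ × Bool) (u : S.U) (z : ℕ → unitInterval) : Prop :=
  ∀ v, S.d i u v = 0 → p.Thr Λ i z v → v ∈ p.P jb.1 jb.2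

/-- For all positions `z` the threads with start and positions near `(u, z)` end in one set. -/
def A (Λ : p.Lbs) (i : ℕ) (u : S.U) : Prop :=
  ∀ z, ∃ jb, ∃ ε > 0, ∃ N ∈ 𝓝 z, ∀ u' ∈ S.W p.φ i, S.d i u' u < ε → ∀ z' ∈ N, p.O Λ i jb u' z'

/-- The labels `x` are good for the node `n` if later coordinates use the labels `Λ`. -/
def Good (n : p.Node) (Λ : p.Lbs) (x : S.Lb n.1.1 (p.φ n.1.1)) : Prop :=
  ∀ u ∈ n.1.2, ∀ z : ℕ → unitInterval, ∃ jb, ∃ ε > 0, ∃ N ∈ 𝓝 z, ∀ u' ∈ n.1.2,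
    S.d n.1.1 u' u < ε → ∀ z' ∈ N, ∀ b,
      p.O Λ (n.1.1 + 1) jb (S.Q n.1.1 (p.φ n.1.1) x b (z' n.1.1) u') z'

theorem mem_F_of_d {i : ℕ} {V : Set S.U} (hV : V ∈ p.F i) {u v : S.U} (hu : u ∈ V)
    (h : S.d i u v = 0) : v ∈ V := by
  obtain ⟨ε, hε, hb⟩ := p.F_open i V hV u hu
  exact hb v (S.W_congr h (p.F_sub i V hV hu)) (h ▸ hε)

theorem lbAt_node (Λ : p.Lbs) (n : p.Node) {u : S.U} (hu : u ∈ n.1.2) :
    p.lbAt Λ n.1.1 u = Λ n := by
  obtain ⟨⟨i, V⟩, hV⟩ := n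
  have h : ∃ V, V ∈ p.F i ∧ u ∈ V := ⟨V, hV, hu⟩
  have e : h.choose = V := p.F_disj i _ h.choose_spec.1 _ hV ⟨u, h.choose_spec.2, hu⟩
  unfold lbAt
  rw [dif_pos h]
  have key : ∀ (V' : Set S.U) (hV' : V' ∈ p.F i), V' = V →
      Λ (⟨(i, V'), hV'⟩ : p.Node) = Λ ⟨(i, V), hV⟩ := by
    intro V' hV' e'
    subst e'
    rfl
  exact key _ _ e

end Plan

end Pool.Agent.CDim
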