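import Pool.Agent.CDim.OneStepMk

set_option autoImplicit false

open Set TopologicalSpace Topology

namespace Pool.Agent.CDim

open Pool.Agent.Gap

/-- A complete metric space with a clopen base. -/
structure TwMkBd where
  Y : Type
  [m : MetricSpace Y]
  cs : CompleteSpace Y
  cb : CB Y

attribute [instance] TwMkBd.m

theorem TwMk_next (B : TwMkBd) : ∃ B' : TwMkBd, Nonempty (OneStep B.Y B'.Y) := by
  have := B.cs
  obtain ⟨E, mE, h1, h2, h3⟩ := exists_oneStep B.Y B.cb
  exact ⟨{ Y := E, m := mE, cs := h1, cb := h2 }, h3⟩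

theorem exists_tw : Nonempty Tw := by
  choose nx hnx using TwMk_next
  have h0 : CB PUnit := by
    refine isTopologicalBasis_of_isOpen_of_nhds (fun s hs => hs.isOpen) fun a s ha hs => ?_
    exact ⟨s, isClopen_discrete s, ha, Subset.rfl⟩
  let B0 : TwMkBd := { Y := PUnit, cs := inferInstance, cb := h0 }
  let B : ℕ → TwMkBd := fun i => Nat.rec B0 (fun _ b => nx b) i
  exact ⟨{
    Y := fun i => (B i).Y
    m := fun i => (B i).m
    cs := fun i => (B i).cs
    cb := fun i => (B i).cb
    st := fun i => Classical.choice (hnx (B i))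
    y0 := PUnit.unit
    uniq := fun y => rfl }⟩

end Pool.Agent.CDim
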